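import Pool.Agent.H883R2.OL.Check

set_option autoImplicit false

/-!
Building the triangulated polygon from a system of codes.
-/

namespace Pool.Agent.H883R2.OL

theorem absP_inj {N : ℕ} (hN : 100 ≤ N) {x y : ℤ} {p q : RP} (p1 : 0 ≤ p.2.1) (p2 : p.2.1 ≤ 2)
    (p3 : 0 ≤ p.2.2.2) (p4 : p.2.2.2 ≤ 2) (q1 : 0 ≤ q.2.1) (q2 : q.2.1 ≤ 2)
    (q3 : 0 ≤ q.2.2.2) (q4 : q.2.2.2 ≤ 2) (h : absP N x y p = absP N x y q) : p = q := by
  obtain ⟨a, b, c, d⟩ := p
  obtain ⟨a', b', c', d'⟩ := q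
  simp only [absP, Prod.mk.injEq] at h
  simp only at p1 p2 p3 p4 q1 q2 q3 q4
  have hN' : (100 : ℤ) ≤ N := by exact_mod_cast hN
  have key : ∀ (u u' v v' z : ℤ), 0 ≤ v → v ≤ 2 → 0 ≤ v' → v' ≤ 2 →
      (z + u) * (N : ℤ) + v = (z + u') * N + v' → u = u' ∧ v = v' := by
    intro u u' v v' z h1 h2 h3 h4 h5
    have h6 : (u - u') * (N : ℤ) = v' - v := by linarith
    have h7 : u = u' := by
      by_contra hne
      rcases lt_or_gt_of_ne hne with h | h
      · have : (u - u') * (N : ℤ) ≤ -1 * N := mul_le_mul_of_nonneg_right (by omega) (by omega)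
        omega
      · have : 1 * (N : ℤ) ≤ (u - u') * N := mul_le_mul_of_nonneg_right (by omega) (by omega)
        omega
    refine ⟨h7, ?_⟩
    rw [h7, sub_self, zero_mul] at h6
    omega
  obtain ⟨e1, e2⟩ := key _ _ _ _ _ p1 p2 q1 q2 h.1
  obtain ⟨e3, e4⟩ := key _ _ _ _ _ p3 p4 q3 q4 h.2
  rw [e1, e2, e3, e4]

theorem base_iff {p : RP} : base p = true ↔ p.1 = 0 ∧ p.2.2.1 = 0 ∧ 0 ≤ p.2.1 ∧ p.2.1 ≤ 2 ∧
    0 ≤ p.2.2.2 ∧ p.2.2.2 ≤ 2 := by
  simp only [base, Bool.and_eq_true, decide_eq_true_eq]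
  tauto

theorem near_iff {d : ℤ × ℤ} {p : RP} : near d p = true ↔
    ((p.1 = 0 ∧ p.2.2.1 = 0) ∨ (p.1 = d.1 ∧ p.2.2.1 = d.2)) ∧ 0 ≤ p.2.1 ∧ p.2.1 ≤ 2 ∧
    0 ≤ p.2.2.2 ∧ p.2.2.2 ≤ 2 := by
  simp only [near, Bool.and_eq_true, Bool.or_eq_true, decide_eq_true_eq]
  tauto

theorem absT_tl (N : ℕ) (x y : ℤ) (s : RP × RP × RP) :
    absT N x y (tl s) = {absP N x y s.1, absP N x y s.2.1, absP N x y s.2.2} := by
  simp [absT, tl]

theorem weight_insert_le (e : Finset Pt) (E : Finset (Finset Pt)) :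
    weight (insert e E) ≤ elen e + weight E := by
  unfold weight
  by_cases h : e ∈ E
  · rw [Finset.insert_eq_of_mem h]
    have := elen_nonneg e
    linarith
  · rw [Finset.sum_insert h]

/-- directions -/
def IsDir (d : ℤ × ℤ) : Prop := d ∈ [((-1, 0) : ℤ × ℤ), (1, 0), (0, -1), (0, 1)]

theorem len_le {P Q : Pt} {M : ℝ} (h0 : 0 ≤ M)
    (h : ((P.1 : ℝ) - Q.1) ^ 2 + ((P.2 : ℝ) - Q.2) ^ 2 ≤ M ^ 2) : len P Q ≤ M := by
  unfold len
  exact Real.sqrt_le_iff.2 ⟨h0, h⟩

theorem len_base {N : ℕ} {x y : ℤ} {p q : RP} (hp : base p = true) (hq : base q = true) :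
    len (absP N x y p) (absP N x y q) ≤ 3 := by
  rw [base_iff] at hp hq
  obtain ⟨a, b, c, d⟩ := p
  obtain ⟨a', b', c', d'⟩ := q
  simp only at hp hq
  obtain ⟨rfl, rfl, h3, h4, h5, h6⟩ := hp
  obtain ⟨rfl, rfl, k3, k4, k5, k6⟩ := hq
  apply len_le (by norm_num)
  simp only [absP]
  push_cast
  have r3 : (0 : ℝ) ≤ b := by exact_mod_cast h3
  have r4 : (b : ℝ) ≤ 2 := by exact_mod_cast h4
  have r5 : (0 : ℝ) ≤ d := by exact_mod_cast h5
  have r6 : (d : ℝ) ≤ 2 := by exact_mod_cast h6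
  have s3 : (0 : ℝ) ≤ b' := by exact_mod_cast k3
  have s4 : (b' : ℝ) ≤ 2 := by exact_mod_cast k4
  have s5 : (0 : ℝ) ≤ d' := by exact_mod_cast k5
  have s6 : (d' : ℝ) ≤ 2 := by exact_mod_cast k6
  have e1 : ((x : ℝ) + 0) * N + b - ((x + 0) * N + b') = b - b' := by ring
  have e2 : ((y : ℝ) + 0) * N + d - ((y + 0) * N + d') = d - d' := by ring
  rw [e1, e2]
  nlinarith

theorem len_near {N : ℕ} (hN : 100 ≤ N) {x y : ℤ} {d : ℤ × ℤ} (hd : IsDir d) {p q : RP}
    (hp : near d p = true) (hq : base q = true) :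
    len (absP N x y p) (absP N x y q) ≤ N + 3 := by
  have hN' : (100 : ℝ) ≤ N := by exact_mod_cast hN
  rw [base_iff] at hq
  rw [near_iff] at hp
  obtain ⟨a, b, c, e⟩ := p
  obtain ⟨a', b', c', e'⟩ := q
  simp only at hp hq
  obtain ⟨h0, h3, h4, h5, h6⟩ := hp
  obtain ⟨rfl, rfl, k3, k4, k5, k6⟩ := hq
  apply len_le (by linarith)
  simp only [absP]
  push_cast
  have r3 : (0 : ℝ) ≤ b := by exact_mod_cast h3
  have r4 : (b : ℝ) ≤ 2 := by exact_mod_cast h4
  have r5 : (0 : ℝ) ≤ e := by exact_mod_cast h5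
  have r6 : (e : ℝ) ≤ 2 := by exact_mod_cast h6
  have s3 : (0 : ℝ) ≤ b' := by exact_mod_cast k3
  have s4 : (b' : ℝ) ≤ 2 := by exact_mod_cast k4
  have s5 : (0 : ℝ) ≤ e' := by exact_mod_cast k5
  have s6 : (e' : ℝ) ≤ 2 := by exact_mod_cast k6
  have e1 : ((x : ℝ) + a) * N + b - ((x + 0) * N + b') = a * N + (b - b') := by ring
  have e2 : ((y : ℝ) + c) * N + e - ((y + 0) * N + e') = c * N + (e - e') := by ring
  rw [e1, e2]
  simp only [IsDir, List.mem_cons, List.not_mem_nil, or_false] at hd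
  have hcase : (a = 0 ∧ c = 0) ∨ (a = -1 ∧ c = 0) ∨ (a = 1 ∧ c = 0) ∨ (a = 0 ∧ c = -1) ∨
      (a = 0 ∧ c = 1) := by
    rcases h0 with ⟨h1, h2⟩ | ⟨h1, h2⟩
    · exact Or.inl ⟨h1, h2⟩
    · rcases hd with rfl | rfl | rfl | rfl <;> simp_all
  have u1 : (b - b' : ℝ) ≤ 2 := by linarith
  have u2 : -2 ≤ (b - b' : ℝ) := by linarith
  have u3 : (e - e' : ℝ) ≤ 2 := by linarith
  have u4 : -2 ≤ (e - e' : ℝ) := by linarith
  have v1 : (b - b' : ℝ) ^ 2 ≤ 4 := by nlinarith
  have v2 : (e - e' : ℝ) ^ 2 ≤ 4 := by nlinarith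
  rcases hcase with ⟨rfl, rfl⟩ | ⟨rfl, rfl⟩ | ⟨rfl, rfl⟩ | ⟨rfl, rfl⟩ | ⟨rfl, rfl⟩ <;> push_cast <;>
    nlinarith

theorem good_cons {d : ℤ × ℤ} {av : List (List RP)} {seen : List RP} {s : RP × RP × RP}
    {l : List (RP × RP × RP)} (h : good d av seen (s :: l) = true) :
    (∃ t ∈ av, s.1 ∈ t ∧ s.2.1 ∈ t) ∧ s.1 ≠ s.2.1 ∧ s.2.2 ∉ seen ∧ base s.2.2 = true ∧
    near d s.1 = true ∧ near d s.2.1 = true ∧ crossP s.1 s.2.1 s.2.2 ≠ (0, 0, 0) ∧
    (nonposB (crossP s.1 s.2.1 s.2.2) = true ∨ nonposB (negP (crossP s.1 s.2.1 s.2.2)) = true) ∧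
    good d (tl s :: av) (s.2.2 :: seen) l = true := by
  simp only [good, Bool.and_eq_true, Bool.or_eq_true, List.any_eq_true, decide_eq_true_eq] at h
  tauto

/-- adding the triangles of a cell -/
theorem add_steps {N : ℕ} (hN : 100 ≤ N) (x y : ℤ) {d : ℤ × ℤ} (hd : IsDir d) :
    ∀ (l : List (RP × RP × RP)) (av : List (List RP)) (seen : List RP) (T0 : Finset (Finset Pt)),
    Stk T0 → (∀ t ∈ av, absT N x y t ∈ T0) →
    (∀ p : RP, base p = true → absP N x y p ∈ verts T0 → p ∈ seen) → good d av seen l = true →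
    Stk (T0 ∪ (l.map (fun s => absT N x y (tl s))).toFinset) ∧
    verts (T0 ∪ (l.map (fun s => absT N x y (tl s))).toFinset) =
      verts T0 ∪ (l.map (fun s => absP N x y s.2.2)).toFinset ∧
    weight (edges (T0 ∪ (l.map (fun s => absT N x y (tl s))).toFinset)) ≤
      weight (edges T0) + lcnt l * ((N : ℝ) + 3) + 3 * scnt l := by
  intro l
  induction l with
  | nil =>
    intro av seen T0 h1 _ _ _
    simp [lcnt, scnt, h1]
  | cons s l ih =>
    intro av seen T0 hT0 hav hseen hg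
    obtain ⟨⟨t, ht, hst1, hst2⟩, hne, hns, hb, hn1, hn2, hc, hc', hg'⟩ := good_cons hg
    have hb' := base_iff.1 hb
    have hn1' := near_iff.1 hn1
    have hn2' := near_iff.1 hn2
    have haT : absT N x y t ∈ T0 := hav t ht
    have ha : absP N x y s.1 ∈ absT N x y t := mem_absT.2 ⟨_, hst1, rfl⟩
    have hb2 : absP N x y s.2.1 ∈ absT N x y t := mem_absT.2 ⟨_, hst2, rfl⟩
    have hab : absP N x y s.1 ≠ absP N x y s.2.1 := fun e =>
      hne (absP_inj hN hn1'.2.1 hn1'.2.2.1 hn1'.2.2.2.1 hn1'.2.2.2.2 hn2'.2.1 hn2'.2.2.1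
        hn2'.2.2.2.1 hn2'.2.2.2.2 e)
    have hxn : absP N x y s.2.2 ∉ verts T0 := fun hx => hns (hseen _ hb hx)
    have hstep : Stk (insert (absT N x y (tl s)) T0) := by
      rw [absT_tl]
      exact Stk.step T0 _ _ _ _ hT0 haT ha hb2 hab hxn
    have hverts : verts (insert (absT N x y (tl s)) T0) = insert (absP N x y s.2.2) (verts T0) := by
      rw [verts_insert, absT_tl]
      ext P
      simp only [Finset.mem_union, Finset.mem_insert, Finset.mem_singleton]
      constructor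
      · rintro ((rfl | rfl | rfl) | h)
        · exact Or.inr (mem_verts.2 ⟨_, haT, ha⟩)
        · exact Or.inr (mem_verts.2 ⟨_, haT, hb2⟩)
        · exact Or.inl rfl
        · exact Or.inr h
      · rintro (rfl | h)
        · exact Or.inl (Or.inr (Or.inr rfl))
        · exact Or.inr h
    have hw : weight (edges (insert (absT N x y (tl s)) T0)) ≤ weight (edges T0) +
        ((if base s.1 then 0 else 1) + (if base s.2.1 then 0 else 1) : ℕ) * ((N : ℝ) + 3) +
        3 * ((if base s.1 then 1 else 0) + (if base s.2.1 then 1 else 0) : ℕ) := by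
      rw [absT_tl, edges_step haT ha hb2 hab hxn]
      have w1 := weight_insert_le {absP N x y s.1, absP N x y s.2.2}
        (insert {absP N x y s.2.1, absP N x y s.2.2} (edges T0))
      have w2 := weight_insert_le {absP N x y s.2.1, absP N x y s.2.2} (edges T0)
      have n1 : absP N x y s.1 ≠ absP N x y s.2.2 := fun e =>
        hxn (e ▸ mem_verts.2 ⟨_, haT, ha⟩)
      have n2 : absP N x y s.2.1 ≠ absP N x y s.2.2 := fun e =>
        hxn (e ▸ mem_verts.2 ⟨_, haT, hb2⟩)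
      rw [elen_pair n1] at w1
      rw [elen_pair n2] at w2
      have l1 : len (absP N x y s.1) (absP N x y s.2.2) ≤
          (if base s.1 then 0 else 1 : ℕ) * ((N : ℝ) + 3) + 3 * (if base s.1 then 1 else 0 : ℕ) := by
        split_ifs with h
        · have := len_base (N := N) (x := x) (y := y) h hb
          simpa using this
        · have := len_near hN (x := x) (y := y) hd hn1 hb
          simpa using this
      have l2 : len (absP N x y s.2.1) (absP N x y s.2.2) ≤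
          (if base s.2.1 then 0 else 1 : ℕ) * ((N : ℝ) + 3) + 3 * (if base s.2.1 then 1 else 0 : ℕ) := by
        split_ifs with h
        · have := len_base (N := N) (x := x) (y := y) h hb
          simpa using this
        · have := len_near hN (x := x) (y := y) hd hn2 hb
          simpa using this
      push_cast at l1 l2 ⊢
      linarith
    obtain ⟨i1, i2, i3⟩ := ih (tl s :: av) (s.2.2 :: seen) (insert (absT N x y (tl s)) T0) hstep
      (by
        intro u hu
        rw [List.mem_cons] at hu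
        rcases hu with rfl | hu
        · exact Finset.mem_insert_self _ _
        · exact Finset.mem_insert_of_mem (hav u hu))
      (by
        intro p hp hpv
        rw [hverts, Finset.mem_insert] at hpv
        rw [List.mem_cons]
        rcases hpv with e | h
        · left
          have hp' := base_iff.1 hp
          exact absP_inj hN hp'.2.2.1 hp'.2.2.2.1 hp'.2.2.2.2.1 hp'.2.2.2.2.2 hb'.2.2.1 hb'.2.2.2.1
            hb'.2.2.2.2.1 hb'.2.2.2.2.2 e
        · exact Or.inr (hseen p hp h)) hg'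
    have hun : insert (absT N x y (tl s)) T0 ∪ (l.map (fun s => absT N x y (tl s))).toFinset =
        T0 ∪ ((s :: l).map (fun s => absT N x y (tl s))).toFinset := by
      ext P
      simp only [Finset.mem_union, Finset.mem_insert, List.map_cons, List.toFinset_cons]
      tauto
    rw [hun] at i1 i2 i3
    refine ⟨i1, ?_, ?_⟩
    · rw [i2, hverts]
      ext P
      simp only [Finset.mem_union, Finset.mem_insert, List.map_cons, List.toFinset_cons]
      tauto
    · have e1 : lcnt (s :: l) = ((if base s.1 then 0 else 1) + (if base s.2.1 then 0 else 1)) +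
          lcnt l := by simp [lcnt]
      have e2 : scnt (s :: l) = ((if base s.1 then 1 else 0) + (if base s.2.1 then 1 else 0)) +
          scnt l := by simp [scnt]
      rw [e1, e2]
      push_cast at hw i3 ⊢
      linarith

end Pool.Agent.H883R2.OL
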