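import Pool.Agent.H883R2.OL.Build

set_option autoImplicit false

/-!
Building the triangulated polygon from a system of codes, part 2.
-/

namespace Pool.Agent.H883R2.OL

/-- A system of codes for the cells. -/
structure CodeSys (k : ℕ × ℕ → ℕ) (V : Finset (ℕ × ℕ)) (cd : ℕ × ℕ → ℕ) (par : ℕ × ℕ → ℕ × ℕ)
    (rk : ℕ × ℕ → ℕ) : Prop where
  root : (0, 1) ∈ V
  cdroot : cd (0, 1) = 1
  kind : ∀ p ∈ V, kindOf (cd p) = k p
  par_mem : ∀ p ∈ V, p ≠ (0, 1) → par p ∈ V
  par_pos : ∀ p ∈ V, p ≠ (0, 1) → ((par p).1 : ℤ) = p.1 + (pdir (cd p)).1 ∧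
    ((par p).2 : ℤ) = p.2 + (pdir (cd p)).2
  fits : ∀ p ∈ V, p ≠ (0, 1) → (cd (par p), cd p) ∈ fitsL
  gate : ∀ p ∈ V, ∀ p' ∈ V, p ≠ (0, 1) → p' ≠ (0, 1) → par p = par p' → 6 < cd (par p) → p = p'
  rank : ∀ p ∈ V, p ≠ (0, 1) → rk (par p) < rk p

/-- the triangles of a cell -/
def ctri (N : ℕ) (cd : ℕ × ℕ → ℕ) (p : ℕ × ℕ) : Finset (Finset Pt) :=
  ((steps (cd p)).map (fun s => absT N p.1 p.2 (tl s))).toFinset

/-- the triangles of a set of cells -/
def TT (N : ℕ) (cd : ℕ × ℕ → ℕ) (A : Finset (ℕ × ℕ)) : Finset (Finset Pt) := A.biUnion (ctri N cd)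

/-- the weight bound -/
noncomputable def WW (N : ℕ) (k : ℕ × ℕ → ℕ) (A : Finset (ℕ × ℕ)) : ℝ :=
  (lng k A : ℝ) * ((N : ℝ) + 3) + 3 * (shs k A : ℝ) - 3 * ((N : ℝ) + 3)

theorem absP_pnt (N : ℕ) (p o : ℕ × ℕ) :
    absP N p.1 p.2 (0, (o.1 : ℤ), 0, (o.2 : ℤ)) = pnt N p o := by
  simp only [absP, pnt, Prod.mk.injEq]
  push_cast
  constructor <;> ring

theorem absP_offR (N : ℕ) (k : ℕ × ℕ → ℕ) (p : ℕ × ℕ) :
    ((offR (k p)).map (absP N p.1 p.2)).toFinset = cpts N k p := by
  unfold offR cpts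
  rw [List.map_map]
  congr 1
  apply List.map_congr_left
  intro o _
  exact absP_pnt N p o

theorem fits5 {a b : ℕ} (h : (a, b) ∈ fitsL) : lcnt (steps b) = (if 6 ≤ kindOf b then 2 else 3) ∧
    scnt (steps b) = sh (kindOf b) ∧ (∀ o ∈ offR (kindOf b), o ∈ (steps b).map (fun s => s.2.2)) ∧
    (∀ s ∈ steps b, s.2.2 ∈ offR (kindOf b)) := by
  have := List.all_eq_true.1 check5 _ h
  simp only [Bool.and_eq_true, decide_eq_true_eq, List.all_eq_true] at this
  tauto

theorem fits4 {a b : ℕ} (h : (a, b) ∈ fitsL) : good (pdir b) (trisS (pdir b) a) [] (steps b) = true :=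
  List.all_eq_true.1 check4 _ h

theorem fits6 {a b : ℕ} (h : (a, b) ∈ fitsL) : IsDir (pdir b) := by
  have := List.all_eq_true.1 check6 _ h
  rw [decide_eq_true_eq] at this
  exact this

theorem lng_insert {k : ℕ × ℕ → ℕ} {A : Finset (ℕ × ℕ)} {p : ℕ × ℕ} (h : p ∉ A) :
    lng k (insert p A) = (if 6 ≤ k p then 2 else 3) + lng k A := Finset.sum_insert h

theorem shs_insert {k : ℕ × ℕ → ℕ} {A : Finset (ℕ × ℕ)} {p : ℕ × ℕ} (h : p ∉ A) :
    shs k (insert p A) = sh (k p) + shs k A := Finset.sum_insert h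

theorem weight_le_card (E : Finset (Finset Pt)) (M : ℝ) (h : ∀ e ∈ E, elen e ≤ M) :
    weight E ≤ E.card * M := by
  unfold weight
  calc _ ≤ ∑ e ∈ E, M := Finset.sum_le_sum h
    _ = _ := by rw [Finset.sum_const, nsmul_eq_mul]

/-- the root square -/
theorem build_root {N : ℕ} {k : ℕ × ℕ → ℕ} {cd : ℕ × ℕ → ℕ} (h1 : cd (0, 1) = 1)
    (hk : kindOf (cd (0, 1)) = k (0, 1)) :
    Stk (TT N cd {(0, 1)}) ∧ verts (TT N cd {(0, 1)}) = ({(0, 1)} : Finset (ℕ × ℕ)).biUnion (cpts N k) ∧
    weight (edges (TT N cd {(0, 1)})) ≤ WW N k {(0, 1)} := by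
  have hk1 : k (0, 1) = 1 := by rw [← hk, h1]; rfl
  let P1 : Pt := absP N (0 : ℕ) (1 : ℕ) (0, 0, 0, 0)
  let P2 : Pt := absP N (0 : ℕ) (1 : ℕ) (0, 2, 0, 0)
  let P3 : Pt := absP N (0 : ℕ) (1 : ℕ) (0, 2, 0, 2)
  let P4 : Pt := absP N (0 : ℕ) (1 : ℕ) (0, 0, 0, 2)
  have n12 : P1 ≠ P2 := by simp [P1, P2, absP]
  have n13 : P1 ≠ P3 := by simp [P1, P3, absP]
  have n14 : P1 ≠ P4 := by simp [P1, P4, absP]
  have n23 : P2 ≠ P3 := by simp [P2, P3, absP]
  have n24 : P2 ≠ P4 := by simp [P2, P4, absP]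
  have n34 : P3 ≠ P4 := by simp [P3, P4, absP]
  have hT : TT N cd {(0, 1)} = insert {P2, P4, P3} {{P1, P4, P2}} := by
    unfold TT ctri
    rw [Finset.singleton_biUnion, h1]
    have : steps 1 = [((0, 0, 0, 0), (0, 0, 0, 2), (0, 2, 0, 0)),
      ((0, 2, 0, 0), (0, 0, 0, 2), (0, 2, 0, 2))] := rfl
    rw [this]
    simp only [List.map_cons, List.map_nil, absT_tl, List.toFinset_cons, List.toFinset_nil]
    ext t
    simp only [Finset.mem_insert, Finset.mem_singleton, Finset.notMem_empty, or_false, P1, P2, P3, P4]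
    tauto
  have hS0 : Stk ({{P1, P4, P2}} : Finset (Finset Pt)) :=
    Stk.base _ (Finset.card_eq_three.2 ⟨P1, P4, P2, n14, n12, n24.symm, rfl⟩)
  have hx : P3 ∉ verts ({{P1, P4, P2}} : Finset (Finset Pt)) := by
    rw [mem_verts]
    rintro ⟨t, ht, hP⟩
    rw [Finset.mem_singleton] at ht
    subst ht
    simp only [Finset.mem_insert, Finset.mem_singleton] at hP
    rcases hP with h | h | h
    · exact n13 h.symm
    · exact n34 h
    · exact n23 h.symm
  have hS : Stk (TT N cd {(0, 1)}) := by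
    rw [hT]
    exact Stk.step _ {P1, P4, P2} P2 P4 P3 hS0 (by simp) (by simp) (by simp) n24 hx
  have hv : verts (TT N cd {(0, 1)}) = {P1, P2, P3, P4} := by
    rw [hT, verts_insert]
    ext y
    simp only [verts, Finset.mem_union, Finset.mem_insert, Finset.mem_singleton,
      Finset.singleton_biUnion, id]
    tauto
  have hc : cpts N k (0, 1) = {P1, P2, P3, P4} := by
    rw [← absP_offR N k (0, 1), hk1]
    have : offR 1 = [(0, 0, 0, 0), (0, 2, 0, 0), (0, 2, 0, 2), (0, 0, 0, 2)] := by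
      unfold offR offs
      simp
    rw [this]
    simp [P1, P2, P3, P4]
  refine ⟨hS, ?_, ?_⟩
  · rw [hv, Finset.singleton_biUnion, hc]
  · have h5 := hS.card_edges
    rw [hv] at h5
    have h4 : ({P1, P2, P3, P4} : Finset Pt).card = 4 := by
      rw [Finset.card_insert_of_notMem (by simp [n12, n13, n14]),
        Finset.card_insert_of_notMem (by simp [n23, n24]), Finset.card_pair n34]
    rw [h4] at h5
    have h6 : (edges (TT N cd {(0, 1)})).card = 5 := by omega
    have h7 := weight_le_card (edges (TT N cd {(0, 1)})) 3 (by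
      intro e he
      obtain ⟨P, Q, hPQ, rfl⟩ := edge_pair he
      rw [elen_pair hPQ]
      have hsub := edge_sub_verts he
      rw [hv, ← hc, ← absP_offR] at hsub
      have hP := hsub (show P ∈ ({P, Q} : Finset Pt) by simp)
      have hQ := hsub (show Q ∈ ({P, Q} : Finset Pt) by simp)
      simp only [List.mem_toFinset, List.mem_map] at hP hQ
      obtain ⟨o, ho, rfl⟩ := hP
      obtain ⟨o', ho', rfl⟩ := hQ
      have hb : ∀ o ∈ offR (k (0, 1)), base o = true := by
        rw [hk1]; decide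
      exact len_base (hb o ho) (hb o' ho'))
    rw [h6] at h7
    unfold WW lng shs
    rw [Finset.sum_singleton, Finset.sum_singleton, hk1]
    have e1 : sh 1 = 5 := rfl
    rw [e1]
    push_cast at h7 ⊢
    norm_num at h7 ⊢
    linarith

theorem build {N : ℕ} (hN : 100 ≤ N) {k : ℕ × ℕ → ℕ} {V : Finset (ℕ × ℕ)} {cd : ℕ × ℕ → ℕ}
    {par : ℕ × ℕ → ℕ × ℕ} {rk : ℕ × ℕ → ℕ} (h : CodeSys k V cd par rk) :
    ∀ (n : ℕ) (A : Finset (ℕ × ℕ)), A.card = n → A ⊆ V → (0, 1) ∈ A →
      (∀ p ∈ A, p ≠ (0, 1) → par p ∈ A) →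
      Stk (TT N cd A) ∧ verts (TT N cd A) = A.biUnion (cpts N k) ∧
      weight (edges (TT N cd A)) ≤ WW N k A := by
  intro n
  induction n using Nat.strong_induction_on with
  | _ n ih =>
    intro A hcard hAV hroot hcl
    by_cases hA : A = {(0, 1)}
    · rw [hA]
      exact build_root h.cdroot (h.kind _ h.root)
    · -- an element of maximal rank other than the root
      have hne : (A.erase (0, 1)).Nonempty := by
        rw [Finset.nonempty_iff_ne_empty]
        intro he
        apply hA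
        rw [Finset.erase_eq_empty_iff] at he
        rcases he with he | he
        · rw [he] at hroot; simp at hroot
        · exact he
      obtain ⟨p, hp, hmax⟩ := Finset.exists_max_image _ rk hne
      rw [Finset.mem_erase] at hp
      set A' := A.erase p with hA'
      have hAi : A = insert p A' := (Finset.insert_erase hp.2).symm
      have hpA' : p ∉ A' := Finset.notMem_erase _ _
      have hcl' : ∀ q ∈ A', q ≠ (0, 1) → par q ∈ A' := by
        intro q hq hq0
        rw [hA', Finset.mem_erase] at hq ⊢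
        refine ⟨?_, hcl q hq.2 hq0⟩
        intro he
        have h1 := h.rank q (hAV hq.2) hq0
        rw [he] at h1
        have h2 := hmax q (Finset.mem_erase.2 ⟨hq0, hq.2⟩)
        omega
      have hcA' : A'.card < n := by
        rw [← hcard]
        exact Finset.card_erase_lt_of_mem hp.2
      obtain ⟨i1, i2, i3⟩ := ih _ hcA' A' rfl ((Finset.erase_subset _ _).trans hAV)
        (Finset.mem_erase.2 ⟨hp.1.symm, hroot⟩) hcl'
      have hpV := hAV hp.2
      have hfit := h.fits p hpV hp.1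
      have hpar := hcl p hp.2 hp.1
      have hpp : par p ≠ p := by
        intro he
        have := h.rank p hpV hp.1
        rw [he] at this
        omega
      have hparA' : par p ∈ A' := Finset.mem_erase.2 ⟨hpp, hpar⟩
      have hpos := h.par_pos p hpV hp.1
      have hNN : 3 ≤ N := by omega
      have hstep := add_steps hN p.1 p.2 (fits6 hfit) (steps (cd p)) (trisS (pdir (cd p)) (cd (par p)))
        [] (TT N cd A') i1 (by
          intro t ht
          simp only [trisS, List.mem_map] at ht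
          obtain ⟨t, ht, rfl⟩ := ht
          rw [absT_shR, ← hpos.1, ← hpos.2]
          simp only [tris, List.mem_map] at ht
          obtain ⟨s, hs, rfl⟩ := ht
          unfold TT
          rw [Finset.mem_biUnion]
          refine ⟨par p, hparA', ?_⟩
          unfold ctri
          rw [List.mem_toFinset, List.mem_map]
          exact ⟨s, hs, rfl⟩) (by
          intro q hq hv
          exfalso
          rw [i2, Finset.mem_biUnion] at hv
          obtain ⟨r, hr, hv⟩ := hv
          have hm := mac_of_mem hNN hv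
          obtain ⟨b1, b2, b3, b4, b5, b6⟩ := base_iff.1 hq
          obtain ⟨qa, qb, qc, qd⟩ := q
          simp only at b1 b2 b3 b4 b5 b6
          subst b1
          subst b2
          lift qb to ℕ using b3
          lift qd to ℕ using b5
          rw [absP_pnt N p (qb, qd), mac_pnt hNN p (qb, qd) (by exact_mod_cast b4)
            (by exact_mod_cast b6)] at hm
          rw [← hm] at hr
          exact hpA' hr) (fits4 hfit)
      obtain ⟨j1, j2, j3⟩ := hstep
      obtain ⟨f1, f2, f3, f4⟩ := fits5 hfit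
      have hTT : TT N cd A = TT N cd A' ∪
          ((steps (cd p)).map (fun s => absT N p.1 p.2 (tl s))).toFinset := by
        unfold TT
        rw [hAi, Finset.biUnion_insert, Finset.union_comm]
        rfl
      rw [hTT]
      refine ⟨j1, ?_, ?_⟩
      · rw [j2, i2, hAi, Finset.biUnion_insert, Finset.union_comm]
        congr 1
        rw [← absP_offR N k p, ← h.kind p hpV]
        ext P
        simp only [List.mem_toFinset, List.mem_map]
        constructor
        · rintro ⟨s, hs, rfl⟩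
          exact ⟨s.2.2, f4 s hs, rfl⟩
        · rintro ⟨o, ho, rfl⟩
          have := f3 o ho
          rw [List.mem_map] at this
          obtain ⟨s, hs, hso⟩ := this
          exact ⟨s, hs, by rw [hso]⟩
      · refine j3.trans ?_
        rw [f1, f2, h.kind p hpV]
        unfold WW at i3 ⊢
        rw [hAi, lng_insert hpA', shs_insert hpA']
        push_cast at i3 ⊢
        linarith

end Pool.Agent.H883R2.OL
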