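import Pool.Agent.H883R2.OL.Build2

set_option autoImplicit false

/-!
The triangulated polygon of a system of codes: face-to-face, and the final statement.
-/

namespace Pool.Agent.H883R2.OL

theorem check7 : fitsL.all (fun ab => decide (ab.1 < 33) && decide (ab.2 < 33)) = true := by
  decide +kernel

theorem fits7 {a b : ℕ} (h : (a, b) ∈ fitsL) : b < 33 := by
  have := List.all_eq_true.1 check7 _ h
  simp only [Bool.and_eq_true, decide_eq_true_eq] at this
  exact this.2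

theorem pairs_sound {l l' : List (List RP)} (h : allB l l' = true) {t t' : List RP} (ht : t ∈ l)
    (ht' : t' ∈ l') {N : ℕ} (hN : 100 ≤ N) (x y : ℤ) : Face (absT N x y t) (absT N x y t') := by
  unfold allB at h
  rw [List.all_eq_true] at h
  have := h t ht
  rw [List.all_eq_true] at this
  exact pairB_sound (this t' ht') hN x y

/-- properties of a step of a code -/
def SP (d : ℤ × ℤ) (s : RP × RP × RP) : Prop :=
  near d s.1 = true ∧ near d s.2.1 = true ∧ near d s.2.2 = true ∧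
    crossP s.1 s.2.1 s.2.2 ≠ (0, 0, 0) ∧
    (nonposB (crossP s.1 s.2.1 s.2.2) = true ∨ nonposB (negP (crossP s.1 s.2.1 s.2.2)) = true)

theorem near_of_base {d : ℤ × ℤ} {p : RP} (h : base p = true) : near d p = true := by
  rw [base_iff] at h
  rw [near_iff]
  tauto

theorem good_SP {d : ℤ × ℤ} : ∀ (l : List (RP × RP × RP)) (av : List (List RP)) (seen : List RP),
    good d av seen l = true → ∀ s ∈ l, SP d s := by
  intro l
  induction l with
  | nil => intro _ _ _ s hs; simp at hs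
  | cons s l ih =>
    intro av seen h s' hs'
    obtain ⟨_, h2, h3, h4, h5, h6, h7, h8, h9⟩ := good_cons h
    rw [List.mem_cons] at hs'
    rcases hs' with rfl | hs'
    · exact ⟨h5, h6, near_of_base h4, h7, h8⟩
    · exact ih _ _ h9 s' hs'

section

variable {N : ℕ} {k : ℕ × ℕ → ℕ} {V : Finset (ℕ × ℕ)} {cd : ℕ × ℕ → ℕ}
    {par : ℕ × ℕ → ℕ × ℕ} {rk : ℕ × ℕ → ℕ}

theorem CodeSys.sp (h : CodeSys k V cd par rk) {p : ℕ × ℕ} (hp : p ∈ V) {s : RP × RP × RP}
    (hs : s ∈ steps (cd p)) : SP (pdir (cd p)) s := by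
  by_cases h0 : p = (0, 1)
  · rw [h0, h.cdroot] at hs ⊢
    have : steps 1 = [((0, 0, 0, 0), (0, 0, 0, 2), (0, 2, 0, 0)),
      ((0, 2, 0, 0), (0, 0, 0, 2), (0, 2, 0, 2))] := rfl
    rw [this] at hs
    simp only [List.mem_cons, List.not_mem_nil, or_false] at hs
    rcases hs with rfl | rfl <;> (unfold SP; decide)
  · exact good_SP _ _ _ (fits4 (h.fits p hp h0)) s hs

theorem CodeSys.dir (h : CodeSys k V cd par rk) {p : ℕ × ℕ} (hp : p ∈ V) :
    pdir (cd p) = (0, 0) ∨ pdir (cd p) = (-1, 0) ∨ pdir (cd p) = (1, 0) ∨ pdir (cd p) = (0, -1) ∨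
      pdir (cd p) = (0, 1) := by
  by_cases h0 : p = (0, 1)
  · rw [h0, h.cdroot]; left; rfl
  · have := fits6 (h.fits p hp h0)
    simp only [IsDir, List.mem_cons, List.not_mem_nil, or_false] at this
    exact Or.inr this

theorem CodeSys.lt33 (h : CodeSys k V cd par rk) {p : ℕ × ℕ} (hp : p ∈ V) : cd p < 33 := by
  by_cases h0 : p = (0, 1)
  · rw [h0, h.cdroot]; norm_num
  · exact fits7 (h.fits p hp h0)

theorem face_fst {t t' : Finset Pt} (M : ℤ) (h1 : ∀ P ∈ t, P.1 < M) (h2 : ∀ P ∈ t', M ≤ P.1) :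
    Face t t' := by
  unfold Face
  refine face_of_sep 1 0 (-(M : ℝ)) (fun P hP => ?_) (fun P hP => ?_) (fun P hP h => ?_)
  · have := h1 P hP
    have : (P.1 : ℝ) < M := by exact_mod_cast this
    linarith
  · have := h2 P hP
    have : (M : ℝ) ≤ P.1 := by exact_mod_cast this
    linarith
  · have := h1 P hP
    have : (P.1 : ℝ) < M := by exact_mod_cast this
    linarith

theorem face_snd {t t' : Finset Pt} (M : ℤ) (h1 : ∀ P ∈ t, P.2 < M) (h2 : ∀ P ∈ t', M ≤ P.2) :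
    Face t t' := by
  unfold Face
  refine face_of_sep 0 1 (-(M : ℝ)) (fun P hP => ?_) (fun P hP => ?_) (fun P hP h => ?_)
  · have := h1 P hP
    have : (P.2 : ℝ) < M := by exact_mod_cast this
    linarith
  · have := h2 P hP
    have : (M : ℝ) ≤ P.2 := by exact_mod_cast this
    linarith
  · have := h1 P hP
    have : (P.2 : ℝ) < M := by exact_mod_cast this
    linarith

/-- numerical separation -/
theorem sep_num {N : ℕ} (hN : 100 ≤ N) {a a' d d' : ℤ} (h1 : a < a') (h2 : a + d < a')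
    (h3 : a < a' + d') (h4 : a + d < a' + d') : ∃ M : ℤ,
    (∀ u v : ℤ, (u = 0 ∨ u = d) → v ≤ 2 → (a + u) * N + v < M) ∧
    (∀ u v : ℤ, (u = 0 ∨ u = d') → 0 ≤ v → M ≤ (a' + u) * N + v) := by
  have hN' : (100 : ℤ) ≤ N := by exact_mod_cast hN
  refine ⟨(max a (a + d)) * N + 3, ?_, ?_⟩
  · intro u v hu hv
    have : a + u ≤ max a (a + d) := by
      rcases hu with rfl | rfl
      · simp
      · exact le_max_right _ _
    have : (a + u) * N ≤ (max a (a + d)) * (N : ℤ) := mul_le_mul_of_nonneg_right this (by omega)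
    omega
  · intro u v hu hv
    have : max a (a + d) + 1 ≤ a' + u := by
      rcases hu with rfl | rfl
      · rw [← max_add_add_right]; apply max_le <;> omega
      · rw [← max_add_add_right]; apply max_le <;> omega
    have : (max a (a + d) + 1) * (N : ℤ) ≤ (a' + u) * N := mul_le_mul_of_nonneg_right this (by omega)
    have e : (max a (a + d) + 1) * (N : ℤ) = max a (a + d) * N + N := by ring
    omega

theorem SP_vert {d : ℤ × ℤ} {s : RP × RP × RP} (h : SP d s) {N : ℕ} {x y : ℤ} {P : Pt}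
    (hP : P ∈ absT N x y (tl s)) : ∃ r : RP, P = absP N x y r ∧
      ((r.1 = 0 ∧ r.2.2.1 = 0) ∨ (r.1 = d.1 ∧ r.2.2.1 = d.2)) ∧ 0 ≤ r.2.1 ∧ r.2.1 ≤ 2 ∧
      0 ≤ r.2.2.2 ∧ r.2.2.2 ≤ 2 := by
  obtain ⟨h1, h2, h3, _⟩ := h
  obtain ⟨r, hr, rfl⟩ := mem_absT.1 hP
  refine ⟨r, rfl, ?_⟩
  simp only [tl, List.mem_cons, List.not_mem_nil, or_false] at hr
  rcases hr with rfl | rfl | rfl
  · exact near_iff.1 h1
  · exact near_iff.1 h2
  · exact near_iff.1 h3

/-- disjoint supports -/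
theorem face_far {N : ℕ} (hN : 100 ≤ N) {d d' : ℤ × ℤ} {s s' : RP × RP × RP} (hs : SP d s)
    (hs' : SP d' s') {x y x' y' : ℤ}
    (hsep : (x < x' ∧ x + d.1 < x' ∧ x < x' + d'.1 ∧ x + d.1 < x' + d'.1) ∨
      (x' < x ∧ x' + d'.1 < x ∧ x' < x + d.1 ∧ x' + d'.1 < x + d.1) ∨
      (y < y' ∧ y + d.2 < y' ∧ y < y' + d'.2 ∧ y + d.2 < y' + d'.2) ∨
      (y' < y ∧ y' + d'.2 < y ∧ y' < y + d.2 ∧ y' + d'.2 < y + d.2)) :
    Face (absT N x y (tl s)) (absT N x' y' (tl s')) := by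
  rcases hsep with ⟨h1, h2, h3, h4⟩ | ⟨h1, h2, h3, h4⟩ | ⟨h1, h2, h3, h4⟩ | ⟨h1, h2, h3, h4⟩
  · obtain ⟨M, m1, m2⟩ := sep_num hN h1 h2 h3 h4
    apply face_fst M
    · intro P hP
      obtain ⟨r, rfl, r1, r2, r3, r4, r5⟩ := SP_vert hs hP
      exact m1 _ _ (by tauto) r3
    · intro P hP
      obtain ⟨r, rfl, r1, r2, r3, r4, r5⟩ := SP_vert hs' hP
      exact m2 _ _ (by tauto) r2
  · obtain ⟨M, m1, m2⟩ := sep_num hN h1 h2 h3 h4
    apply Face.symm
    apply face_fst M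
    · intro P hP
      obtain ⟨r, rfl, r1, r2, r3, r4, r5⟩ := SP_vert hs' hP
      exact m1 _ _ (by tauto) r3
    · intro P hP
      obtain ⟨r, rfl, r1, r2, r3, r4, r5⟩ := SP_vert hs hP
      exact m2 _ _ (by tauto) r2
  · obtain ⟨M, m1, m2⟩ := sep_num hN h1 h2 h3 h4
    apply face_snd M
    · intro P hP
      obtain ⟨r, rfl, r1, r2, r3, r4, r5⟩ := SP_vert hs hP
      exact m1 _ _ (by tauto) r5
    · intro P hP
      obtain ⟨r, rfl, r1, r2, r3, r4, r5⟩ := SP_vert hs' hP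
      exact m2 _ _ (by tauto) r4
  · obtain ⟨M, m1, m2⟩ := sep_num hN h1 h2 h3 h4
    apply Face.symm
    apply face_snd M
    · intro P hP
      obtain ⟨r, rfl, r1, r2, r3, r4, r5⟩ := SP_vert hs' hP
      exact m1 _ _ (by tauto) r5
    · intro P hP
      obtain ⟨r, rfl, r1, r2, r3, r4, r5⟩ := SP_vert hs hP
      exact m2 _ _ (by tauto) r4

/-- parent and child -/
theorem CodeSys.face_par (h : CodeSys k V cd par rk) (hN : 100 ≤ N) {p : ℕ × ℕ} (hp : p ∈ V)
    (h0 : p ≠ (0, 1)) {s s' : RP × RP × RP} (hs : s ∈ steps (cd p)) (hs' : s' ∈ steps (cd (par p))) :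
    Face (absT N p.1 p.2 (tl s)) (absT N (par p).1 (par p).2 (tl s')) := by
  have hfit := h.fits p hp h0
  have hc := List.all_eq_true.1 check2 _ hfit
  simp only at hc
  have hpos := h.par_pos p hp h0
  rw [hpos.1, hpos.2, ← absT_shR]
  refine pairs_sound hc ?_ ?_ hN _ _
  · exact List.mem_map.2 ⟨s, hs, rfl⟩
  · unfold trisS tris
    rw [List.map_map]
    exact List.mem_map.2 ⟨s', hs', rfl⟩

theorem CodeSys.face (h : CodeSys k V cd par rk) (hN : 100 ≤ N) {p p' : ℕ × ℕ} (hp : p ∈ V)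
    (hp' : p' ∈ V) {s s' : RP × RP × RP} (hs : s ∈ steps (cd p)) (hs' : s' ∈ steps (cd p')) :
    Face (absT N p.1 p.2 (tl s)) (absT N p'.1 p'.2 (tl s')) := by
  by_cases e1 : p = p'
  · subst e1
    have hc := List.all_eq_true.1 check1 (cd p) (List.mem_range.2 (h.lt33 hp))
    exact pairs_sound hc (List.mem_map.2 ⟨s, hs, rfl⟩) (List.mem_map.2 ⟨s', hs', rfl⟩) hN _ _
  by_cases e2 : p ≠ (0, 1) ∧ par p = p'
  · obtain ⟨e2, rfl⟩ := e2
    exact h.face_par hN hp e2 hs hs'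
  by_cases e3 : p' ≠ (0, 1) ∧ par p' = p
  · obtain ⟨e3, rfl⟩ := e3
    exact (h.face_par hN hp' e3 hs' hs).symm
  by_cases e4 : p ≠ (0, 1) ∧ p' ≠ (0, 1) ∧ par p = par p'
  · obtain ⟨n1, n2, e4⟩ := e4
    have g1 : ¬ 6 < cd (par p) := fun g => e1 (h.gate p hp p' hp' n1 n2 e4 g)
    have hfit := h.fits p hp n1
    have hfit' := h.fits p' hp' n2
    rw [← e4] at hfit'
    have hc := List.all_eq_true.1 check3 _ hfit
    simp only at hc
    have hc2 := List.all_eq_true.1 hc _ hfit'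
    simp only [ne_eq, not_true_eq_false, decide_false, Bool.false_or, Bool.or_eq_true,
      decide_eq_true_eq, g1, false_or] at hc2
    have hpos := h.par_pos p hp n1
    have hpos' := h.par_pos p' hp' n2
    rw [← e4] at hpos'
    have hd : pdir (cd p) ≠ pdir (cd p') := by
      intro hd
      rw [← hd] at hpos'
      apply e1
      apply Prod.ext <;> omega
    rcases hc2 with hc2 | hc2
    · exact absurd hc2 hd
    · have a1 : (p.1 : ℤ) = (par p).1 + (opp (pdir (cd p))).1 := by unfold opp; simp only; omega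
      have a2 : (p.2 : ℤ) = (par p).2 + (opp (pdir (cd p))).2 := by unfold opp; simp only; omega
      have a3 : (p'.1 : ℤ) = (par p).1 + (opp (pdir (cd p'))).1 := by unfold opp; simp only; omega
      have a4 : (p'.2 : ℤ) = (par p).2 + (opp (pdir (cd p'))).2 := by unfold opp; simp only; omega
      rw [a1, a2, a3, a4, ← absT_shR, ← absT_shR]
      refine pairs_sound hc2 ?_ ?_ hN _ _
      · unfold trisS tris
        rw [List.map_map]
        exact List.mem_map.2 ⟨s, hs, rfl⟩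
      · unfold trisS tris
        rw [List.map_map]
        exact List.mem_map.2 ⟨s', hs', rfl⟩
  -- disjoint supports
  refine face_far hN (h.sp hp hs) (h.sp hp' hs') ?_
  have hq : ∀ r ∈ V, ∃ q : ℕ × ℕ, (q.1 : ℤ) = r.1 + (pdir (cd r)).1 ∧ (q.2 : ℤ) = r.2 + (pdir (cd r)).2 ∧
      ((r ≠ (0, 1) ∧ q = par r) ∨ (r = (0, 1) ∧ q = r)) := by
    intro r hr
    by_cases h0 : r = (0, 1)
    · refine ⟨r, ?_, ?_, Or.inr ⟨h0, rfl⟩⟩ <;> rw [h0, h.cdroot] <;> simp [pdir]
    · exact ⟨par r, (h.par_pos r hr h0).1, (h.par_pos r hr h0).2, Or.inl ⟨h0, rfl⟩⟩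
  obtain ⟨q, q1, q2, q3⟩ := hq p hp
  obtain ⟨q', q1', q2', q3'⟩ := hq p' hp'
  have n1 : ¬ ((p.1 : ℤ) = p'.1 ∧ (p.2 : ℤ) = p'.2) := fun e => e1 (Prod.ext (by omega) (by omega))
  have n2 : ¬ ((q.1 : ℤ) = p'.1 ∧ (q.2 : ℤ) = p'.2) := by
    intro e
    have e' : q = p' := Prod.ext (by omega) (by omega)
    rcases q3 with ⟨u, v⟩ | ⟨u, v⟩
    · exact e2 ⟨u, v.symm.trans e'⟩
    · exact e1 (v.symm.trans e')
  have n3 : ¬ ((q'.1 : ℤ) = p.1 ∧ (q'.2 : ℤ) = p.2) := by
    intro e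
    have e' : q' = p := Prod.ext (by omega) (by omega)
    rcases q3' with ⟨u, v⟩ | ⟨u, v⟩
    · exact e3 ⟨u, v.symm.trans e'⟩
    · exact e1 (v.symm.trans e').symm
  have n4 : ¬ ((q.1 : ℤ) = q'.1 ∧ (q.2 : ℤ) = q'.2) := by
    intro e
    have e' : q = q' := Prod.ext (by omega) (by omega)
    rcases q3 with ⟨u, v⟩ | ⟨u, v⟩ <;> rcases q3' with ⟨u', v'⟩ | ⟨u', v'⟩
    · exact e4 ⟨u, u', by rw [← v, ← v', e']⟩
    · exact e2 ⟨u, by rw [← v, e', v']⟩
    · exact e3 ⟨u', by rw [← v', ← e', v]⟩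
    · exact e1 (by rw [← v, ← v', e'])
  rcases h.dir hp with hd | hd | hd | hd | hd <;> rcases h.dir hp' with hd' | hd' | hd' | hd' | hd' <;>
    rw [hd] at q1 q2 ⊢ <;> rw [hd'] at q1' q2' ⊢ <;> simp only at q1 q2 q1' q2' ⊢ <;> omega

/-- The main construction. -/
theorem CodeSys.triPoly (h : CodeSys k V cd par rk) (hN : 100 ≤ N) :
    TriPoly (pts N k V) (TT N cd V) ∧ weight (edges (TT N cd V)) ≤ (thr N k V : ℝ) := by
  obtain ⟨i1, i2, i3⟩ := build hN h V.card V rfl (Finset.Subset.refl _) h.root (h.par_mem)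
  have hmem : ∀ t ∈ TT N cd V, ∃ p ∈ V, ∃ s ∈ steps (cd p), t = absT N p.1 p.2 (tl s) := by
    intro t ht
    unfold TT at ht
    rw [Finset.mem_biUnion] at ht
    obtain ⟨p, hp, ht⟩ := ht
    unfold ctri at ht
    rw [List.mem_toFinset, List.mem_map] at ht
    obtain ⟨s, hs, rfl⟩ := ht
    exact ⟨p, hp, s, hs, rfl⟩
  refine ⟨⟨?_, i1.card3, ?_, ?_, ?_, i1.conn, ?_⟩, ?_⟩
  · intro t ht P hP
    rw [pts_eq, ← i2]
    exact mem_verts.2 ⟨t, ht, hP⟩
  · intro t ht
    obtain ⟨p, hp, s, hs, rfl⟩ := hmem t ht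
    rw [absT_tl]
    apply not_collinear_of_cross
    rw [cross_absP]
    obtain ⟨_, _, _, h4, h5⟩ := h.sp hp hs
    have hN' : (100 : ℤ) ≤ N := by exact_mod_cast hN
    rcases h5 with h5 | h5
    · rcases nonposB_sound h5 hN' with h | h
      · exact absurd h h4
      · exact h.ne
    · rcases nonposB_sound h5 hN' with h | h
      · exfalso
        apply h4
        simp only [negP, Prod.mk.injEq, neg_eq_zero] at h
        exact Prod.ext h.1 (Prod.ext h.2.1 h.2.2)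
      · simp only [negP] at h
        intro h0
        linarith
  · intro P hP
    rw [pts_eq, ← i2] at hP
    exact mem_verts.1 hP
  · intro t ht t' ht'
    obtain ⟨p, hp, s, hs, rfl⟩ := hmem t ht
    obtain ⟨p', hp', s', hs', rfl⟩ := hmem t' ht'
    exact h.face hN hp hp' hs hs'
  · rw [pts_eq, ← i2, i1.card_verts]
  · refine i3.trans ?_
    have hlng3 : 3 ≤ lng k V := by
      unfold lng
      have hk : k (0, 1) = 1 := by rw [← h.kind _ h.root, h.cdroot]; rfl
      calc 3 = (if 6 ≤ k (0, 1) then 2 else 3) := by rw [hk]; rfl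
        _ ≤ _ := Finset.single_le_sum (f := fun p => if 6 ≤ k p then 2 else 3)
          (fun _ _ => Nat.zero_le _) h.root
    unfold WW thr
    rw [Nat.cast_add, Nat.cast_mul, Nat.cast_sub hlng3]
    push_cast
    linarith

end

end Pool.Agent.H883R2.OL
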