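import Pool.Agent.H883R2.OL.Codes

set_option autoImplicit false

/-!
Finite checks of the local pictures.
-/

namespace Pool.Agent.H883R2.OL

/-- The cross product of relative points, as a polynomial `A N ^ 2 + B N + C`. -/
def crossP (p q r : RP) : ℤ × ℤ × ℤ :=
  ((q.1 - p.1) * (r.2.2.1 - p.2.2.1) - (q.2.2.1 - p.2.2.1) * (r.1 - p.1),
    (q.1 - p.1) * (r.2.2.2 - p.2.2.2) + (q.2.1 - p.2.1) * (r.2.2.1 - p.2.2.1) -
      ((q.2.2.1 - p.2.2.1) * (r.2.1 - p.2.1) + (q.2.2.2 - p.2.2.2) * (r.1 - p.1)),
    (q.2.1 - p.2.1) * (r.2.2.2 - p.2.2.2) - (q.2.2.2 - p.2.2.2) * (r.2.1 - p.2.1))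

theorem cross_absP (N : ℕ) (x y : ℤ) (p q r : RP) :
    cross (absP N x y p) (absP N x y q) (absP N x y r) =
      (crossP p q r).1 * (N : ℤ) ^ 2 + (crossP p q r).2.1 * N + (crossP p q r).2.2 := by
  simp only [cross, absP, crossP]
  ring

/-- sign check: the polynomial is zero, or negative for all `N ≥ 100` -/
def nonposB (c : ℤ × ℤ × ℤ) : Bool :=
  decide (c.2.1 ≤ 40) && decide (c.2.2 ≤ 40) &&
    (decide (c.1 < 0) || (decide (c.1 = 0) && (decide (c.2.1 < 0) ||
      (decide (c.2.1 = 0) && decide (c.2.2 ≤ 0)))))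

def negP (c : ℤ × ℤ × ℤ) : ℤ × ℤ × ℤ := (-c.1, -c.2.1, -c.2.2)

theorem nonposB_sound {c : ℤ × ℤ × ℤ} (h : nonposB c = true) {N : ℤ} (hN : 100 ≤ N) :
    c = (0, 0, 0) ∨ c.1 * N ^ 2 + c.2.1 * N + c.2.2 < 0 := by
  obtain ⟨a, b, c⟩ := c
  simp only [nonposB, Bool.and_eq_true, Bool.or_eq_true, decide_eq_true_eq] at h
  obtain ⟨⟨hb, hc⟩, h | ⟨h1, h | ⟨h2, h3⟩⟩⟩ := h
  · right
    simp only
    have h1 : a * N ^ 2 ≤ -1 * N ^ 2 := mul_le_mul_of_nonneg_right (by omega) (by positivity)
    have h2 : b * N ≤ 40 * N := mul_le_mul_of_nonneg_right hb (by omega)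
    nlinarith
  · right
    simp only
    subst h1
    have h2 : b * N ≤ -1 * N := mul_le_mul_of_nonneg_right (by omega) (by omega)
    nlinarith
  · subst h1
    subst h2
    by_cases h0 : c = 0
    · left; rw [h0]
    · right
      simp only
      have : c < 0 := lt_of_le_of_ne h3 h0
      linarith

/-- the line through `u`, `v` separates the triangles -/
def sepB (u v : RP) (t t' : List RP) : Bool :=
  t.all (fun p => nonposB (crossP u v p)) && t'.all (fun p => nonposB (negP (crossP u v p))) &&
    (t.all (fun p => decide (crossP u v p ≠ (0, 0, 0)) || decide (p ∈ t')) ||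
      t'.all (fun p => decide (crossP u v p ≠ (0, 0, 0)) || decide (p ∈ t)))

/-- the absolute vertex set -/
def absT (N : ℕ) (x y : ℤ) (t : List RP) : Finset Pt := (t.map (absP N x y)).toFinset

theorem mem_absT {N : ℕ} {x y : ℤ} {t : List RP} {P : Pt} :
    P ∈ absT N x y t ↔ ∃ p ∈ t, absP N x y p = P := by
  simp [absT]

/-- meeting face to face -/
def Face (t t' : Finset Pt) : Prop :=
  convexHull ℝ (toR '' (t : Set Pt)) ∩ convexHull ℝ (toR '' (t' : Set Pt)) =
    convexHull ℝ (toR '' ((t ∩ t' : Finset Pt) : Set Pt))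

theorem sepB_sound {u v : RP} {t t' : List RP} (h : sepB u v t t' = true) {N : ℕ} (hN : 100 ≤ N)
    (x y : ℤ) : Face (absT N x y t) (absT N x y t') := by
  have hN' : (100 : ℤ) ≤ N := by exact_mod_cast hN
  simp only [sepB, Bool.and_eq_true, Bool.or_eq_true, List.all_eq_true, decide_eq_true_eq] at h
  obtain ⟨⟨h1, h2⟩, h3⟩ := h
  have key1 : ∀ p ∈ t, crossP u v p = (0, 0, 0) ∨
      cross (absP N x y u) (absP N x y v) (absP N x y p) < 0 := by
    intro p hp
    rw [cross_absP]
    exact nonposB_sound (h1 p hp) hN'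
  have key2 : ∀ p ∈ t', crossP u v p = (0, 0, 0) ∨
      0 < cross (absP N x y u) (absP N x y v) (absP N x y p) := by
    intro p hp
    rw [cross_absP]
    rcases nonposB_sound (h2 p hp) hN' with h | h
    · left
      simp only [negP, Prod.mk.injEq, neg_eq_zero] at h
      exact Prod.ext h.1 (Prod.ext h.2.1 h.2.2)
    · right
      simp only [negP] at h
      linarith
  have z : ∀ p, crossP u v p = (0, 0, 0) →
      cross (absP N x y u) (absP N x y v) (absP N x y p) = 0 := by
    intro p hp
    rw [cross_absP, hp]; ring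
  unfold Face
  apply face_of_cross (absP N x y u) (absP N x y v)
  · intro P hP
    obtain ⟨p, hp, rfl⟩ := mem_absT.1 hP
    rcases key1 p hp with h | h
    · exact (z p h).le
    · exact h.le
  · intro P hP
    obtain ⟨p, hp, rfl⟩ := mem_absT.1 hP
    rcases key2 p hp with h | h
    · exact (z p h).ge
    · exact h.le
  · rcases h3 with h3 | h3
    · left
      intro P hP h0
      obtain ⟨p, hp, rfl⟩ := mem_absT.1 hP
      rcases h3 p hp with h | h
      · rcases key1 p hp with h' | h'
        · exact absurd h' h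
        · exact absurd h0 h'.ne
      · exact mem_absT.2 ⟨p, h, rfl⟩
    · right
      intro P hP h0
      obtain ⟨p, hp, rfl⟩ := mem_absT.1 hP
      rcases h3 p hp with h | h
      · rcases key2 p hp with h' | h'
        · exact absurd h' h
        · exact absurd h0 h'.ne'
      · exact mem_absT.2 ⟨p, h, rfl⟩

theorem Face.symm {t t' : Finset Pt} (h : Face t t') : Face t' t := face_comm h

theorem Face.refl (t : Finset Pt) : Face t t := by
  unfold Face
  rw [Set.inter_self, Finset.inter_self]

/-- check a pair of triangles -/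
def pairB (t t' : List RP) : Bool :=
  decide (t = t') || (t ++ t').any (fun u => (t ++ t').any (fun v => decide (u ≠ v) && sepB u v t t'))

theorem pairB_sound {t t' : List RP} (h : pairB t t' = true) {N : ℕ} (hN : 100 ≤ N)
    (x y : ℤ) : Face (absT N x y t) (absT N x y t') := by
  simp only [pairB, Bool.or_eq_true, List.any_eq_true, Bool.and_eq_true, decide_eq_true_eq] at h
  rcases h with rfl | ⟨u, _, v, _, _, h⟩
  · exact Face.refl _
  · exact sepB_sound h hN x y

/-- the triangle of a step -/
def tl (s : RP × RP × RP) : List RP := [s.1, s.2.1, s.2.2]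

/-- shift by a direction -/
def shR (d : ℤ × ℤ) (p : RP) : RP := (p.1 + d.1, p.2.1, p.2.2.1 + d.2, p.2.2.2)

theorem absP_shR (N : ℕ) (x y : ℤ) (d : ℤ × ℤ) (p : RP) :
    absP N x y (shR d p) = absP N (x + d.1) (y + d.2) p := by
  simp only [absP, shR, Prod.mk.injEq]
  constructor <;> ring

/-- all triangles of a code -/
def tris (c : ℕ) : List (List RP) := (steps c).map tl

/-- shifted triangles -/
def trisS (d : ℤ × ℤ) (c : ℕ) : List (List RP) := (tris c).map (fun t => t.map (shR d))

theorem absT_shR (N : ℕ) (x y : ℤ) (d : ℤ × ℤ) (t : List RP) :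
    absT N x y (t.map (shR d)) = absT N (x + d.1) (y + d.2) t := by
  unfold absT
  rw [List.map_map]
  congr 1
  apply List.map_congr_left
  intro p _
  exact absP_shR N x y d p

def allB (l l' : List (List RP)) : Bool := l.all (fun t => l'.all (fun t' => pairB t t'))

def opp (d : ℤ × ℤ) : ℤ × ℤ := (-d.1, -d.2)

/-- (G1) the triangles of a code -/
theorem check1 : (List.range 33).all (fun c => allB (tris c) (tris c)) = true := by
  decide +kernel

/-- (G2) parent and child -/
theorem check2 : fitsL.all (fun ab => allB (tris ab.2) (trisS (pdir ab.2) ab.1)) = true := by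
  decide +kernel

/-- (G3) two children of the same cell -/
theorem check3 : fitsL.all (fun ab => fitsL.all (fun ab' => decide (ab.1 ≠ ab'.1) ||
    decide (6 < ab.1) || decide (pdir ab.2 = pdir ab'.2) ||
    allB (trisS (opp (pdir ab.2)) ab.2) (trisS (opp (pdir ab'.2)) ab'.2))) = true := by
  decide +kernel

/-- a point of the base cell -/
def base (p : RP) : Bool :=
  decide (p.1 = 0) && decide (p.2.2.1 = 0) && decide (0 ≤ p.2.1) && decide (p.2.1 ≤ 2) &&
    decide (0 ≤ p.2.2.2) && decide (p.2.2.2 ≤ 2)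

/-- a point of the base cell or of the parent cell -/
def near (d : ℤ × ℤ) (p : RP) : Bool :=
  ((decide (p.1 = 0) && decide (p.2.2.1 = 0)) || (decide (p.1 = d.1) && decide (p.2.2.1 = d.2))) &&
    decide (0 ≤ p.2.1) && decide (p.2.1 ≤ 2) && decide (0 ≤ p.2.2.2) && decide (p.2.2.2 ≤ 2)

/-- The steps can be performed, given the available triangles `av` and the vertices `seen` of the cell
present already. -/
def good (d : ℤ × ℤ) : List (List RP) → List RP → List (RP × RP × RP) → Bool
  | _, _, [] => true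
  | av, seen, s :: l =>
    av.any (fun t => decide (s.1 ∈ t) && decide (s.2.1 ∈ t)) && decide (s.1 ≠ s.2.1) &&
      decide (s.2.2 ∉ seen) && base s.2.2 && near d s.1 && near d s.2.1 &&
      decide (crossP s.1 s.2.1 s.2.2 ≠ (0, 0, 0)) && (nonposB (crossP s.1 s.2.1 s.2.2) ||
        nonposB (negP (crossP s.1 s.2.1 s.2.2))) &&
      good d (tl s :: av) (s.2.2 :: seen) l

/-- (G4) the steps of a child can be performed -/
theorem check4 : fitsL.all (fun ab => good (pdir ab.2) (trisS (pdir ab.2) ab.1) [] (steps ab.2)) =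
    true := by
  decide +kernel

/-- number of long edges of a list of steps -/
def lcnt (l : List (RP × RP × RP)) : ℕ :=
  (l.map (fun s => (if base s.1 then 0 else 1) + (if base s.2.1 then 0 else 1))).sum

/-- number of short edges of a list of steps -/
def scnt (l : List (RP × RP × RP)) : ℕ :=
  (l.map (fun s => (if base s.1 then 1 else 0) + (if base s.2.1 then 1 else 0))).sum

/-- offsets as relative points -/
def offR (k : ℕ) : List RP := (offs k).map (fun o => (0, (o.1 : ℤ), 0, (o.2 : ℤ)))

/-- (G5), (G7) -/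
theorem check5 : fitsL.all (fun ab =>
    decide (lcnt (steps ab.2) = if 6 ≤ kindOf ab.2 then 2 else 3) &&
    decide (scnt (steps ab.2) = sh (kindOf ab.2)) &&
    (offR (kindOf ab.2)).all (fun o => decide (o ∈ (steps ab.2).map (fun s => s.2.2))) &&
    (steps ab.2).all (fun s => decide (s.2.2 ∈ offR (kindOf ab.2)))) = true := by
  decide +kernel

/-- directions -/
theorem check6 : fitsL.all (fun ab => decide (pdir ab.2 ∈ [((-1, 0) : ℤ × ℤ), (1, 0), (0, -1), (0, 1)])) =
    true := by
  decide +kernel

end Pool.Agent.H883R2.OL
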