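import Pool.Agent.H883R2.OL.Macro3

set_option autoImplicit false

/-!
The local pictures used to draw a light triangulated polygon, and their finite checks.
-/

namespace Pool.Agent.H883R2.OL

/-- A relative point: the point `((x + ax) N + bx, (y + ay) N + by)` is given by `(ax, bx, ay, by)`. -/
abbrev RP := ℤ × ℤ × ℤ × ℤ

/-- The absolute point. -/
def absP (N : ℕ) (x y : ℤ) (p : RP) : Pt := ((x + p.1) * N + p.2.1, (y + p.2.2.1) * N + p.2.2.2)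

/-- The triangles `{a, b, x}` glued (with the new vertex `x`) for a cell with code `c`. -/
def steps (c : ℕ) : List (RP × RP × RP) :=
  if c = 1 then
    [((0, 0, 0, 0), (0, 0, 0, 2), (0, 2, 0, 0)),
     ((0, 2, 0, 0), (0, 0, 0, 2), (0, 2, 0, 2))]
  else if c = 2 then
    [((-1, 2, 0, 0), (-1, 2, 0, 2), (0, 0, 0, 2)),
     ((-1, 2, 0, 0), (0, 0, 0, 2), (0, 0, 0, 0)),
     ((0, 0, 0, 0), (0, 0, 0, 2), (0, 2, 0, 0)),
     ((0, 2, 0, 0), (0, 0, 0, 2), (0, 2, 0, 2))]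
  else if c = 3 then
    [((-1, 1, 0, 0), (-1, 2, 0, 1), (0, 0, 0, 0)),
     ((-1, 2, 0, 1), (0, 0, 0, 0), (0, 0, 0, 2)),
     ((0, 0, 0, 0), (0, 0, 0, 2), (0, 2, 0, 0)),
     ((0, 2, 0, 0), (0, 0, 0, 2), (0, 2, 0, 2))]
  else if c = 4 then
    [((0, 2, -1, 2), (0, 0, -1, 2), (0, 0, 0, 0)),
     ((0, 0, 0, 0), (0, 2, -1, 2), (0, 2, 0, 0)),
     ((0, 0, 0, 0), (0, 2, 0, 0), (0, 0, 0, 2)),
     ((0, 2, 0, 0), (0, 0, 0, 2), (0, 2, 0, 2))]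
  else if c = 5 then
    [((-1, 2, 0, 2), (-1, 2, 0, 0), (0, 0, 0, 1)),
     ((0, 0, 0, 1), (-1, 2, 0, 2), (0, 2, 0, 1)),
     ((0, 0, 0, 1), (0, 2, 0, 1), (0, 1, 0, 0))]
  else if c = 6 then
    [((-1, 2, 0, 0), (-1, 2, 0, 2), (0, 0, 0, 1)),
     ((-1, 2, 0, 0), (0, 0, 0, 1), (0, 1, 0, 0)),
     ((0, 0, 0, 1), (0, 1, 0, 0), (0, 2, 0, 1))]
  else if c = 7 then
    [((-1, 2, 0, 0), (-1, 2, 0, 2), (0, 1, 0, 2)),
     ((-1, 2, 0, 0), (0, 1, 0, 2), (0, 1, 0, 0))]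
  else if c = 8 then
    [((1, 0, 0, 2), (1, 0, 0, 0), (0, 1, 0, 0)),
     ((0, 1, 0, 0), (1, 0, 0, 2), (0, 1, 0, 2))]
  else if c = 9 then
    [((0, 2, -1, 2), (0, 0, -1, 2), (0, 0, 0, 1)),
     ((0, 0, 0, 1), (0, 2, -1, 2), (0, 2, 0, 1))]
  else if c = 10 then
    [((0, 0, 1, 0), (0, 2, 1, 0), (0, 2, 0, 1)),
     ((0, 0, 1, 0), (0, 2, 0, 1), (0, 0, 0, 1))]
  else if c = 11 then
    [((-1, 1, 0, 2), (-1, 1, 0, 0), (0, 0, 0, 1)),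
     ((0, 0, 0, 1), (-1, 1, 0, 2), (0, 2, 0, 1))]
  else if c = 12 then
    [((-1, 1, 0, 2), (-1, 1, 0, 0), (0, 0, 0, 1)),
     ((0, 0, 0, 1), (-1, 1, 0, 0), (0, 2, 0, 1))]
  else if c = 13 then
    [((1, 1, 0, 2), (1, 1, 0, 0), (0, 2, 0, 1)),
     ((0, 2, 0, 1), (1, 1, 0, 2), (0, 0, 0, 1))]
  else if c = 14 then
    [((1, 1, 0, 2), (1, 1, 0, 0), (0, 2, 0, 1)),
     ((0, 2, 0, 1), (1, 1, 0, 0), (0, 0, 0, 1))]
  else if c = 15 then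
    [((-1, 0, 0, 1), (-1, 2, 0, 1), (0, 2, 0, 2)),
     ((-1, 2, 0, 1), (0, 2, 0, 2), (0, 0, 0, 0))]
  else if c = 16 then
    [((0, 1, -1, 2), (0, 1, -1, 0), (0, 2, 0, 2)),
     ((0, 1, -1, 2), (0, 2, 0, 2), (0, 0, 0, 0))]
  else if c = 17 then
    [((-1, 0, 0, 1), (-1, 2, 0, 1), (0, 2, 0, 2))]
  else if c = 18 then
    [((0, 1, -1, 0), (0, 1, -1, 2), (0, 2, 0, 2))]
  else if c = 19 then
    [((0, 1, -1, 0), (0, 1, -1, 2), (0, 0, 0, 2))]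
  else if c = 20 then
    [((1, 0, 0, 1), (1, 2, 0, 1), (0, 0, 0, 2))]
  else if c = 21 then
    [((-1, 0, 0, 1), (-1, 2, 0, 1), (0, 1, 0, 2))]
  else if c = 22 then
    [((-1, 1, 0, 0), (-1, 1, 0, 2), (0, 1, 0, 2))]
  else if c = 23 then
    [((1, 0, 0, 1), (1, 2, 0, 1), (0, 1, 0, 2))]
  else if c = 24 then
    [((0, 0, -1, 1), (0, 2, -1, 1), (0, 1, 0, 1))]
  else if c = 25 then
    [((0, 0, 1, 1), (0, 2, 1, 1), (0, 1, 0, 1))]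
  else if c = 26 then
    [((0, 0, -1, 1), (0, 2, -1, 1), (0, 1, 0, 1))]
  else if c = 27 then
    [((0, 0, 1, 1), (0, 1, 1, 0), (0, 1, 0, 1))]
  else if c = 28 then
    [((0, 0, 1, 1), (0, 1, 1, 0), (0, 1, 0, 0))]
  else if c = 29 then
    [((-1, 0, 0, 1), (-1, 2, 0, 1), (0, 1, 0, 0))]
  else if c = 30 then
    [((-1, 0, 0, 1), (-1, 2, 0, 1), (0, 2, 0, 0))]
  else if c = 31 then
    [((0, 1, 1, 0), (0, 1, 1, 2), (0, 2, 0, 0))]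
  else if c = 32 then
    [((-1, 0, 0, 0), (-1, 2, 0, 2), (0, 1, 0, 1))]
  else []

/-- direction of the parent -/
def pdir (c : ℕ) : ℤ × ℤ :=
  if c = 1 then (0, 0)
  else if c = 4 ∨ c = 9 ∨ c = 16 ∨ c = 18 ∨ c = 19 ∨ c = 24 ∨ c = 26 then (0, -1)
  else if c = 8 ∨ c = 13 ∨ c = 14 ∨ c = 20 ∨ c = 23 then (1, 0)
  else if c = 10 ∨ c = 25 ∨ c = 27 ∨ c = 28 ∨ c = 31 then (0, 1)
  else (-1, 0)

/-- kind of a code -/
def kindOf (c : ℕ) : ℕ :=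
  if c = 0 then 0 else if c ≤ 4 then 1 else if c ≤ 6 then 2 else if c ≤ 8 then 3
  else if c ≤ 14 then 4 else if c ≤ 16 then 5 else if c ≤ 18 then 9 else if c ≤ 20 then 10
  else if c ≤ 23 then 8 else if c ≤ 27 then 6 else if c ≤ 29 then 7 else if c ≤ 31 then 11 else 6

/-- possible pairs (code of a cell, code of a child) -/
def fitsL : List (ℕ × ℕ) :=
  [(1, 4), (1, 2), (2, 10), (2, 4), (2, 2), (2, 5), (2, 6), (2, 7), (3, 2), (4, 8), (4, 4), (4, 9), (4, 2), (4, 7), (5, 27), (5, 28), (5, 3), (6, 26), (6, 3), (7, 31), (7, 16), (7, 18), (7, 11), (7, 12), (7, 22), (8, 13), (8, 14), (8, 19), (9, 20), (9, 23), (9, 24), (9, 15), (9, 17), (9, 21), (10, 25), (10, 29), (10, 30), (11, 25), (12, 24), (13, 25), (14, 24), (15, 32)]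

end Pool.Agent.H883R2.OL
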