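import Pool.Agent.H883R2.OL.Problem

set_option autoImplicit false

/-!
# The layout used by the reduction from satisfiability
-/

namespace Pool.Agent.H883R2.OL

/-- Offsets of the points of a cell of a given kind: 1 = `F` (square), 2 = `X` (triangle),
3 = vertical pair, 4 = horizontal pair, 5 = reader (diagonal pair), 6 ... 11 = single points,
0 = empty. -/
def offs (k : ℕ) : List (ℕ × ℕ) :=
  if k = 1 then [(0, 0), (2, 0), (2, 2), (0, 2)]
  else if k = 2 then [(0, 1), (2, 1), (1, 0)]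
  else if k = 3 then [(1, 0), (1, 2)]
  else if k = 4 then [(0, 1), (2, 1)]
  else if k = 5 then [(0, 0), (2, 2)]
  else if k = 6 then [(1, 1)]
  else if k = 7 then [(1, 0)]
  else if k = 8 then [(1, 2)]
  else if k = 9 then [(2, 2)]
  else if k = 10 then [(0, 2)]
  else if k = 11 then [(2, 0)]
  else []

/-- the point with offset `o` in the cell `p` -/
def pnt (N : ℕ) (p o : ℕ × ℕ) : Pt := ((N * p.1 + o.1 : ℕ), (N * p.2 + o.2 : ℕ))

/-- the cell of a point -/
def mac (N : ℕ) (P : Pt) : ℕ × ℕ := (P.1.toNat / N, P.2.toNat / N)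

/-- number of edges inside a cell -/
def sh (k : ℕ) : ℕ := if k = 1 then 5 else if k = 2 then 3 else if k ≤ 5 then 1 else 0

/-- the points of a set `V` of cells with kinds `k` -/
def pts (N : ℕ) (k : ℕ × ℕ → ℕ) (V : Finset (ℕ × ℕ)) : Finset Pt :=
  V.biUnion (fun p => ((offs (k p)).map (pnt N p)).toFinset)

/-- number of long edges, plus three -/
def lng (k : ℕ × ℕ → ℕ) (V : Finset (ℕ × ℕ)) : ℕ := ∑ p ∈ V, (if 6 ≤ k p then 2 else 3)

/-- the number of short edges -/
def shs (k : ℕ × ℕ → ℕ) (V : Finset (ℕ × ℕ)) : ℕ := ∑ p ∈ V, sh (k p)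

/-- the threshold -/
def thr (N : ℕ) (k : ℕ × ℕ → ℕ) (V : Finset (ℕ × ℕ)) : ℕ :=
  (lng k V - 3) * (N + 3) + 3 * shs k V

/-- adjacency of cells -/
def Adj (p q : ℕ × ℕ) : Prop :=
  (p.2 = q.2 ∧ (p.1 + 1 = q.1 ∨ q.1 + 1 = p.1)) ∨ (p.1 = q.1 ∧ (p.2 + 1 = q.2 ∨ q.2 + 1 = p.2))

/-- Left end of band `r`, column `x` (`1 ≤ x ≤ r + 3`), row `i < 5` of the band. -/
def lend (r x i : ℕ) : ℕ :=
  if i = 1 then (if x = r + 1 ∧ r % 2 = 1 then 2 else 1)
  else if r % 2 = 0 then
    (if x = r + 2 then (if i = 2 ∨ i = 3 then 1 else if i = 4 then 4 else 0)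
    else if x = r + 3 ∧ i = 4 then 8 else 0)
  else
    (if x = r + 1 then (if i = 0 ∨ i = 2 then 6 else if i = 3 then 4 else 1)
    else if x = r + 2 then (if i = 3 then 11 else if i = 4 then 3 else 0)
    else if x = r + 3 then (if i = 4 then 8 else 0)
    else if i = 4 then 1 else 0)

/-- Tile `j` of band `r`, column `d < 6` of the tile, row `i < 5` of the band; `b` tells whether the
literal `r` occurs in the clause `j`. -/
def tile (m r j d i : ℕ) (b : Bool) : ℕ :=
  if i = 0 then (if d = 1 then (if r = 0 then 0 else 4) else if d = 2 then 7 else 0)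
  else if i = 1 then (if d = 2 then 2 else if d = 5 ∧ j + 1 = m then 0 else 1)
  else if i = 2 then (if d = 0 ∨ d = 4 then 1 else if d = 2 then 6 else 0)
  else if i = 3 then
    (if d = 0 ∨ d = 4 then 1 else if d = 1 ∨ d = 3 then 3 else if d = 2 then 4 else 0)
  else
    (if d = 0 ∨ d = 4 then 4
    else if d = 1 then (if b then 5 else 9)
    else if d = 2 then 6
    else if d = 3 then 10
    else if j + 1 = m then 0 else 8)

/-- The kind of a cell. -/
def kd (K m : ℕ) (inc : ℕ → ℕ → Bool) (p : ℕ × ℕ) : ℕ :=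
  if K ≤ p.2 / 5 then 0
  else if p.1 = 0 then (if p.2 = 0 then 0 else 1)
  else if p.1 < p.2 / 5 + 4 then lend (p.2 / 5) p.1 (p.2 % 5)
  else if m ≤ (p.1 - p.2 / 5 - 4) / 6 then 0
  else tile m (p.2 / 5) ((p.1 - p.2 / 5 - 4) / 6) ((p.1 - p.2 / 5 - 4) % 6) (p.2 % 5)
    (inc (p.2 / 5) ((p.1 - p.2 / 5 - 4) / 6))

/-- The cells. -/
def cells (K m : ℕ) (inc : ℕ → ℕ → Bool) : Finset (ℕ × ℕ) :=
  ((Finset.range (K + 6 * m + 4)) ×ˢ (Finset.range (5 * K))).filter (fun p => kd K m inc p ≠ 0)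

/-- Properties of the relation linked by an edge between the cells, for a light outerplane Laman
graph. -/
structure LinkRel (K m : ℕ) (inc : ℕ → ℕ → Bool) (Lk : ℕ × ℕ → ℕ × ℕ → Prop) : Prop where
  symm : ∀ p q, Lk p q → Lk q p
  adj : ∀ p q, Lk p q → Adj p q
  ne0 : ∀ p q, Lk p q → kd K m inc p ≠ 0
  conn : ∀ p, kd K m inc p ≠ 0 → Relation.ReflTransGen Lk (0, 1) p
  single : ∀ p q q', 6 ≤ kd K m inc p → Lk p q → Lk p q' → q = q'
  pair : ∀ p q q' q'', 3 ≤ kd K m inc p → kd K m inc p ≤ 5 → Lk p q → Lk p q' → Lk p q'' →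
    q = q' ∨ q = q'' ∨ q' = q''
  tri : ∀ x y, kd K m inc (x + 1, y + 1) = 2 → Lk (x + 1, y + 1) (x, y + 1) →
    Lk (x + 1, y + 1) (x + 2, y + 1) → Lk (x + 1, y + 1) (x + 1, y) →
    Lk (x + 1, y + 1) (x + 1, y + 2) → False
  reader : ∀ x y, kd K m inc (x, y + 1) = 5 → Lk (x, y + 1) (x, y) →
    Lk (x, y + 1) (x + 1, y + 1) → False

/-- The formula is satisfied by the assignment `σ`: for each clause `j < m` there is a literal `r < K`
(the variable `r / 2`, positive if `r` is even) which occurs in the clause and is true. -/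
def Sats (K m : ℕ) (inc : ℕ → ℕ → Bool) (σ : ℕ → Bool) : Prop :=
  ∀ j < m, ∃ r < K, inc r j = true ∧ σ (r / 2) = decide (r % 2 = 0)

end Pool.Agent.H883R2.OL
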