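import Pool.Agent.H883R2.OL.Stk

set_option autoImplicit false

/-!
Plane geometry of triangles meeting face to face.
-/

namespace Pool.Agent.H883R2.OL

/-- twice the signed area of a triangle -/
def cross (p q r : Pt) : ℤ := (q.1 - p.1) * (r.2 - p.2) - (q.2 - p.2) * (r.1 - p.1)

/-- real version -/
def crossR (p q : Pt) (x : ℝ × ℝ) : ℝ :=
  ((q.1 : ℝ) - p.1) * (x.2 - p.2) - ((q.2 : ℝ) - p.2) * (x.1 - p.1)

theorem crossR_toR (p q r : Pt) : crossR p q (toR r) = (cross p q r : ℝ) := by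
  simp only [crossR, cross, toR]
  push_cast
  ring

theorem toR_injective : Function.Injective toR := by
  intro p q h
  simp only [toR, Prod.mk.injEq, Int.cast_inj] at h
  exact Prod.ext h.1 h.2

/-- Points of the convex hull as convex combinations. -/
theorem mem_hull_iff (t : Finset Pt) (x : ℝ × ℝ) : x ∈ convexHull ℝ (toR '' (t : Set Pt)) ↔
    ∃ w : Pt → ℝ, (∀ p ∈ t, 0 ≤ w p) ∧ ∑ p ∈ t, w p = 1 ∧ ∑ p ∈ t, w p • toR p = x := by
  classical
  constructor
  · intro h
    rw [← Finset.coe_image, Finset.mem_convexHull'] at h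
    obtain ⟨w, h0, h1, h2⟩ := h
    refine ⟨fun p => w (toR p), fun p hp => h0 _ (Finset.mem_image_of_mem _ hp), ?_, ?_⟩
    · rw [← h1, Finset.sum_image (fun a _ b _ h => toR_injective h)]
    · rw [← h2, Finset.sum_image (fun a _ b _ h => toR_injective h)]
  · rintro ⟨w, h0, h1, h2⟩
    rw [← h2]
    exact (convex_convexHull ℝ _).sum_mem h0 h1
      (fun p hp => subset_convexHull ℝ _ (Set.mem_image_of_mem _ hp))

/-- affine functionals and convex combinations -/
theorem aff_sum (t : Finset Pt) (w : Pt → ℝ) (A B C : ℝ) (h1 : ∑ p ∈ t, w p = 1) (x : ℝ × ℝ)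
    (hx : ∑ p ∈ t, w p • toR p = x) :
    A * x.1 + B * x.2 + C = ∑ p ∈ t, w p * (A * p.1 + B * p.2 + C) := by
  have e1 : x.1 = ∑ p ∈ t, w p * p.1 := by
    rw [← hx, Prod.fst_sum]
    simp [toR]
  have e2 : x.2 = ∑ p ∈ t, w p * p.2 := by
    rw [← hx, Prod.snd_sum]
    simp [toR]
  have e3 : C = ∑ p ∈ t, w p * C := by rw [← Finset.sum_mul, h1, one_mul]
  rw [e1, e2]
  conv_lhs => rw [e3]
  rw [Finset.mul_sum, Finset.mul_sum, ← Finset.sum_add_distrib, ← Finset.sum_add_distrib]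
  exact Finset.sum_congr rfl (fun p _ => by ring)

/-- A separating line. -/
theorem face_of_sep {t t' : Finset Pt} (A B C : ℝ) (h1 : ∀ p ∈ t, A * p.1 + B * p.2 + C ≤ 0)
    (h2 : ∀ p ∈ t', 0 ≤ A * p.1 + B * p.2 + C)
    (h3 : ∀ p ∈ t, A * p.1 + B * p.2 + C = 0 → p ∈ t') :
    convexHull ℝ (toR '' (t : Set Pt)) ∩ convexHull ℝ (toR '' (t' : Set Pt)) =
      convexHull ℝ (toR '' ((t ∩ t' : Finset Pt) : Set Pt)) := by
  classical
  apply Set.Subset.antisymm
  · rintro x ⟨hx, hx'⟩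
    rw [mem_hull_iff] at hx hx' ⊢
    obtain ⟨w, w0, w1, wx⟩ := hx
    obtain ⟨w', w0', w1', wx'⟩ := hx'
    have e := aff_sum t w A B C w1 x wx
    have e' := aff_sum t' w' A B C w1' x wx'
    have s1 : ∑ p ∈ t, w p * (A * p.1 + B * p.2 + C) ≤ 0 :=
      Finset.sum_nonpos (fun p hp => mul_nonpos_of_nonneg_of_nonpos (w0 p hp) (h1 p hp))
    have s2 : 0 ≤ ∑ p ∈ t', w' p * (A * p.1 + B * p.2 + C) :=
      Finset.sum_nonneg (fun p hp => mul_nonneg (w0' p hp) (h2 p hp))
    have s3 : ∑ p ∈ t, w p * (A * p.1 + B * p.2 + C) = 0 := by linarith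
    rw [Finset.sum_eq_zero_iff_of_nonpos
      (fun p hp => mul_nonpos_of_nonneg_of_nonpos (w0 p hp) (h1 p hp))] at s3
    have key : ∀ p ∈ t, p ∉ t ∩ t' → w p = 0 := by
      intro p hp hp'
      rcases mul_eq_zero.1 (s3 p hp) with h | h
      · exact h
      · exact absurd (Finset.mem_inter.2 ⟨hp, h3 p hp h⟩) hp'
    refine ⟨w, fun p hp => w0 p (Finset.mem_inter.1 hp).1, ?_, ?_⟩
    · rw [← w1]
      exact Finset.sum_subset Finset.inter_subset_left key
    · rw [← wx]
      exact Finset.sum_subset Finset.inter_subset_left (fun p hp hp' => by rw [key p hp hp', zero_smul])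
  · apply Set.subset_inter
    · exact convexHull_mono (Set.image_mono (by exact_mod_cast Finset.inter_subset_left))
    · exact convexHull_mono (Set.image_mono (by exact_mod_cast Finset.inter_subset_right))

theorem face_comm {t t' : Finset Pt}
    (h : convexHull ℝ (toR '' (t : Set Pt)) ∩ convexHull ℝ (toR '' (t' : Set Pt)) =
      convexHull ℝ (toR '' ((t ∩ t' : Finset Pt) : Set Pt))) :
    convexHull ℝ (toR '' (t' : Set Pt)) ∩ convexHull ℝ (toR '' (t : Set Pt)) =
      convexHull ℝ (toR '' ((t' ∩ t : Finset Pt) : Set Pt)) := by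
  rw [Set.inter_comm, h, Finset.inter_comm]

/-- A separating line through two points `u`, `v`. -/
theorem face_of_cross {t t' : Finset Pt} (u v : Pt) (h1 : ∀ p ∈ t, cross u v p ≤ 0)
    (h2 : ∀ p ∈ t', 0 ≤ cross u v p)
    (h3 : (∀ p ∈ t, cross u v p = 0 → p ∈ t') ∨ (∀ p ∈ t', cross u v p = 0 → p ∈ t)) :
    convexHull ℝ (toR '' (t : Set Pt)) ∩ convexHull ℝ (toR '' (t' : Set Pt)) =
      convexHull ℝ (toR '' ((t ∩ t' : Finset Pt) : Set Pt)) := by
  have e : ∀ p : Pt, -((v.2 : ℝ) - u.2) * p.1 + ((v.1 : ℝ) - u.1) * p.2 +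
      (((v.2 : ℝ) - u.2) * u.1 - ((v.1 : ℝ) - u.1) * u.2) = ((cross u v p : ℤ) : ℝ) := by
    intro p
    simp only [cross]
    push_cast
    ring
  have e' : ∀ p : Pt, ((v.2 : ℝ) - u.2) * p.1 + (-((v.1 : ℝ) - u.1)) * p.2 +
      (-(((v.2 : ℝ) - u.2) * u.1 - ((v.1 : ℝ) - u.1) * u.2)) = -((cross u v p : ℤ) : ℝ) := by
    intro p
    simp only [cross]
    push_cast
    ring
  rcases h3 with h3 | h3
  · refine face_of_sep (-((v.2 : ℝ) - u.2)) ((v.1 : ℝ) - u.1)
      (((v.2 : ℝ) - u.2) * u.1 - ((v.1 : ℝ) - u.1) * u.2) (fun p hp => ?_) (fun p hp => ?_)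
      (fun p hp h => ?_)
    · rw [e]; exact_mod_cast h1 p hp
    · rw [e]; exact_mod_cast h2 p hp
    · rw [e] at h; exact h3 p hp (by exact_mod_cast h)
  · apply face_comm
    refine face_of_sep ((v.2 : ℝ) - u.2) (-((v.1 : ℝ) - u.1))
      (-(((v.2 : ℝ) - u.2) * u.1 - ((v.1 : ℝ) - u.1) * u.2)) (fun p hp => ?_) (fun p hp => ?_)
      (fun p hp h => ?_)
    · rw [e']; have := h2 p hp; have : (0 : ℝ) ≤ cross u v p := by exact_mod_cast this
      linarith
    · rw [e']; have := h1 p hp; have : (cross u v p : ℝ) ≤ 0 := by exact_mod_cast this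
      linarith
    · rw [e'] at h
      exact h3 p hp (by have : (cross u v p : ℝ) = 0 := by linarith
                        exact_mod_cast this)

/-- Nondegenerate triangles. -/
theorem cross_ne_zero {p q r : Pt} (hpq : p ≠ q)
    (h : ¬ Collinear ℝ (toR '' (({p, q, r} : Finset Pt) : Set Pt))) : cross p q r ≠ 0 := by
  intro h0
  apply h
  have hp : toR p ∈ toR '' (({p, q, r} : Finset Pt) : Set Pt) := ⟨p, by simp, rfl⟩
  rw [collinear_iff_of_mem hp]
  have hD : (0 : ℝ) < ((q.1 : ℝ) - p.1) ^ 2 + ((q.2 : ℝ) - p.2) ^ 2 := by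
    have : (q.1 : ℝ) - p.1 ≠ 0 ∨ (q.2 : ℝ) - p.2 ≠ 0 := by
      by_contra hcon
      push Not at hcon
      apply hpq
      have h1 : (q.1 : ℝ) = p.1 := by linarith [hcon.1]
      have h2 : (q.2 : ℝ) = p.2 := by linarith [hcon.2]
      exact Prod.ext (by exact_mod_cast h1.symm) (by exact_mod_cast h2.symm)
    rcases this with h | h <;> positivity
  have h0' : ((q.1 : ℝ) - p.1) * (r.2 - p.2) - ((q.2 : ℝ) - p.2) * (r.1 - p.1) = 0 := by
    have : (cross p q r : ℝ) = 0 := by exact_mod_cast h0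
    rw [cross] at this
    push_cast at this
    exact this
  refine ⟨(((q.1 : ℝ) - p.1), ((q.2 : ℝ) - p.2)), ?_⟩
  rintro _ ⟨y, hy, rfl⟩
  simp only [Finset.coe_insert, Finset.coe_singleton, Set.mem_insert_iff, Set.mem_singleton_iff] at hy
  rcases hy with rfl | rfl | rfl
  · exact ⟨0, by simp⟩
  · exact ⟨1, by simp [toR]⟩
  · refine ⟨(((q.1 : ℝ) - p.1) * (y.1 - p.1) + ((q.2 : ℝ) - p.2) * (y.2 - p.2)) /
      (((q.1 : ℝ) - p.1) ^ 2 + ((q.2 : ℝ) - p.2) ^ 2), ?_⟩
    simp only [toR, Prod.ext_iff, vadd_eq_add, Prod.fst_add, Prod.snd_add, Prod.smul_fst,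
      Prod.smul_snd, smul_eq_mul]
    constructor
    · field_simp
      linear_combination (-((q.2 : ℝ) - p.2)) * h0'
    · field_simp
      linear_combination (((q.1 : ℝ) - p.1)) * h0'

theorem not_collinear_of_cross {p q r : Pt} (h : cross p q r ≠ 0) :
    ¬ Collinear ℝ (toR '' (({p, q, r} : Finset Pt) : Set Pt)) := by
  intro hc
  have hp : toR p ∈ toR '' (({p, q, r} : Finset Pt) : Set Pt) := ⟨p, by simp, rfl⟩
  rw [collinear_iff_of_mem hp] at hc
  obtain ⟨v, hv⟩ := hc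
  obtain ⟨s, hs⟩ := hv (toR q) ⟨q, by simp, rfl⟩
  obtain ⟨s', hs'⟩ := hv (toR r) ⟨r, by simp, rfl⟩
  simp only [toR, Prod.ext_iff, vadd_eq_add, Prod.fst_add, Prod.snd_add, Prod.smul_fst,
      Prod.smul_snd, smul_eq_mul] at hs hs'
  apply h
  have : (cross p q r : ℝ) = 0 := by
    rw [cross]
    push_cast
    rw [hs.1, hs.2, hs'.1, hs'.2]
    ring
  exact_mod_cast this

/-- Two triangles on the same edge lie on opposite sides. -/
theorem opp_side {a b u w : Pt} (hab : a ≠ b) (huw : u ≠ w) (hua : u ≠ a) (hub : u ≠ b)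
    (hwa : w ≠ a) (hwb : w ≠ b)
    (hf : convexHull ℝ (toR '' (({a, b, u} : Finset Pt) : Set Pt)) ∩
      convexHull ℝ (toR '' (({a, b, w} : Finset Pt) : Set Pt)) =
      convexHull ℝ (toR '' ((({a, b, u} : Finset Pt) ∩ {a, b, w} : Finset Pt) : Set Pt)))
    (h : 0 < cross a b u * cross a b w) : False := by
  classical
  have hint : (({a, b, u} : Finset Pt) ∩ {a, b, w}) = {a, b} := by
    ext y
    simp only [Finset.mem_inter, Finset.mem_insert, Finset.mem_singleton]
    constructor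
    · rintro ⟨h1 | h1 | h1, h2 | h2 | h2⟩ <;> subst h1 <;> simp_all
    · rintro (rfl | rfl) <;> simp
  rw [hint] at hf
  have hR : (0 : ℝ) < (cross a b u : ℝ) * cross a b w := by exact_mod_cast h
  set c1 : ℝ := (cross a b u : ℝ) with hc1
  set c2 : ℝ := (cross a b w : ℝ) with hc2
  have hc20 : c2 ≠ 0 := by rintro h; rw [h, mul_zero] at hR; exact lt_irrefl _ hR
  have hc10 : c1 ≠ 0 := by rintro h; rw [h, zero_mul] at hR; exact lt_irrefl _ hR
  set κ : ℝ := c1 / c2 with hκ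
  have hκ0 : 0 < κ := by
    rw [hκ]
    have : c1 / c2 = c1 * c2 / (c2 * c2) := by field_simp
    rw [this]
    exact div_pos hR (mul_self_pos.2 hc20)
  set d1 : ℝ := (b.1 : ℝ) - a.1 with hd1
  set d2 : ℝ := (b.2 : ℝ) - a.2 with hd2
  have hD : (0 : ℝ) < d1 ^ 2 + d2 ^ 2 := by
    have : d1 ≠ 0 ∨ d2 ≠ 0 := by
      by_contra hcon
      push Not at hcon
      apply hab
      have h1 : (a.1 : ℝ) = b.1 := by linarith [hcon.1]
      have h2 : (a.2 : ℝ) = b.2 := by linarith [hcon.2]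
      exact Prod.ext (by exact_mod_cast h1) (by exact_mod_cast h2)
    rcases this with h | h <;> positivity
  -- the vector v
  set m1 : ℝ := ((a.1 : ℝ) + b.1) / 2 with hm1
  set m2 : ℝ := ((a.2 : ℝ) + b.2) / 2 with hm2
  set v1 : ℝ := (u.1 : ℝ) - m1 - κ * (w.1 - m1) with hv1
  set v2 : ℝ := (u.2 : ℝ) - m2 - κ * (w.2 - m2) with hv2
  have e1 : c1 = d1 * ((u.2 : ℝ) - m2) - d2 * ((u.1 : ℝ) - m1) := by
    rw [hc1, cross, hd1, hd2, hm1, hm2]; push_cast; ring
  have e2 : c2 = d1 * ((w.2 : ℝ) - m2) - d2 * ((w.1 : ℝ) - m1) := by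
    rw [hc2, cross, hd1, hd2, hm1, hm2]; push_cast; ring
  have e3 : κ * c2 = c1 := by rw [hκ]; field_simp
  have hpar : d1 * v2 = d2 * v1 := by
    have : d1 * v2 - d2 * v1 = c1 - κ * c2 := by rw [e1, e2, hv1, hv2]; ring
    linarith
  set lam : ℝ := (v1 * d1 + v2 * d2) / (d1 ^ 2 + d2 ^ 2) with hlam
  have f1 : v1 = lam * d1 := by
    rw [hlam]; field_simp
    linear_combination d2 * hpar * (-1)
  have f2 : v2 = lam * d2 := by
    rw [hlam]; field_simp
    linear_combination d1 * hpar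
  set ε : ℝ := 1 / (4 * (1 + κ + |lam|)) with hε
  have hden : 0 < 1 + κ + |lam| := by positivity
  have hε0 : 0 < ε := by rw [hε]; positivity
  have g0 : 4 * ε + 4 * (ε * κ) + 4 * (ε * |lam|) = 1 := by
    have : ε * (4 * (1 + κ + |lam|)) = 1 := by rw [hε]; field_simp
    linear_combination this
  have q1 : 0 ≤ ε * κ := mul_nonneg hε0.le hκ0.le
  have q2 : 0 ≤ ε * |lam| := mul_nonneg hε0.le (abs_nonneg lam)
  have g1 : ε * κ ≤ 1 / 4 := by clear_value ε κ lam; linarith
  have g2 : ε * |lam| ≤ 1 / 4 := by clear_value ε κ lam; linarith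
  have g3 : ε ≤ 1 / 4 := by clear_value ε κ lam; linarith
  have g4 : -(1 / 4) ≤ ε * lam := by
    have h1 := mul_le_mul_of_nonneg_left (neg_abs_le lam) hε0.le
    rw [mul_neg] at h1
    clear_value ε κ lam
    linarith
  have g5 : ε * lam ≤ 1 / 4 := by
    have h1 := mul_le_mul_of_nonneg_left (le_abs_self lam) hε0.le
    clear_value ε κ lam
    linarith
  -- the point
  have hsum : ∀ (y : Pt) (hya : y ≠ a) (hyb : y ≠ b) (f : Pt → ℝ),
      ∑ p ∈ ({a, b, y} : Finset Pt), f p = f a + f b + f y := by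
    intro y hya hyb f
    rw [Finset.sum_insert (by simp [hab, hya.symm]), Finset.sum_insert (by simp [hyb.symm]),
      Finset.sum_singleton]
    ring
  have hsum' : ∀ (y : Pt) (hya : y ≠ a) (hyb : y ≠ b) (f : Pt → ℝ × ℝ),
      ∑ p ∈ ({a, b, y} : Finset Pt), f p = f a + f b + f y := by
    intro y hya hyb f
    rw [Finset.sum_insert (by simp [hab, hya.symm]), Finset.sum_insert (by simp [hyb.symm]),
      Finset.sum_singleton]
    ring
  let P : ℝ × ℝ := (m1 + ε * (u.1 - m1), m2 + ε * (u.2 - m2))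
  have hP1 : P ∈ convexHull ℝ (toR '' (({a, b, u} : Finset Pt) : Set Pt)) := by
    rw [mem_hull_iff]
    refine ⟨fun p => if p = u then ε else (1 - ε) / 2, ?_, ?_, ?_⟩
    · intro p _
      dsimp only
      split_ifs
      · exact hε0.le
      · linarith
    · rw [hsum u hua hub]
      simp only [hua.symm, hub.symm, if_false, if_true]
      ring
    · rw [hsum' u hua hub]
      simp only [hua.symm, hub.symm, if_false, if_true]
      apply Prod.ext
      · simp only [toR, Prod.fst_add, Prod.smul_fst, smul_eq_mul, P, hm1]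
        ring
      · simp only [toR, Prod.snd_add, Prod.smul_snd, smul_eq_mul, P, hm2]
        ring
  have hP2 : P ∈ convexHull ℝ (toR '' (({a, b, w} : Finset Pt) : Set Pt)) := by
    rw [mem_hull_iff]
    refine ⟨fun p => if p = w then ε * κ else if p = a then (1 - ε * κ) / 2 - ε * lam else
      (1 - ε * κ) / 2 + ε * lam, ?_, ?_, ?_⟩
    · intro p _
      dsimp only
      split_ifs
      · positivity
      · linarith
      · linarith
    · rw [hsum w hwa hwb]
      simp only [hwa.symm, hwb.symm, hab.symm, if_false, if_true]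
      ring
    · rw [hsum' w hwa hwb]
      simp only [hwa.symm, hwb.symm, hab.symm, if_false, if_true]
      have k1 : (u.1 : ℝ) - m1 = lam * d1 + κ * (w.1 - m1) := by linarith
      have k2 : (u.2 : ℝ) - m2 = lam * d2 + κ * (w.2 - m2) := by linarith
      apply Prod.ext
      · simp only [toR, Prod.fst_add, Prod.smul_fst, smul_eq_mul, P]
        rw [k1, hm1, hd1]
        ring
      · simp only [toR, Prod.snd_add, Prod.smul_snd, smul_eq_mul, P]
        rw [k2, hm2, hd2]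
        ring
  have hP3 : P ∈ convexHull ℝ (toR '' (({a, b} : Finset Pt) : Set Pt)) := by
    rw [← hf]; exact ⟨hP1, hP2⟩
  rw [mem_hull_iff] at hP3
  obtain ⟨ω, _, w1, wx⟩ := hP3
  have e := aff_sum {a, b} ω (-d2) d1 (d2 * m1 - d1 * m2) w1 P wx
  rw [Finset.sum_pair hab] at e
  have z1 : -d2 * (a.1 : ℝ) + d1 * a.2 + (d2 * m1 - d1 * m2) = 0 := by
    rw [hd1, hd2, hm1, hm2]; ring
  have z2 : -d2 * (b.1 : ℝ) + d1 * b.2 + (d2 * m1 - d1 * m2) = 0 := by
    rw [hd1, hd2, hm1, hm2]; ring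
  rw [z1, z2, mul_zero, mul_zero, add_zero] at e
  have : -d2 * P.1 + d1 * P.2 + (d2 * m1 - d1 * m2) = ε * c1 := by
    rw [e1]; simp only [P]; ring
  rw [this] at e
  rcases mul_eq_zero.1 e with h | h
  · exact hε0.ne' h
  · exact hc10 h

end Pool.Agent.H883R2.OL
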