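import Pool.Agent.H883R2.OL.Build3

set_option autoImplicit false

/-!
The codes of the cells for a satisfying assignment.
-/

namespace Pool.Agent.H883R2.OL

/-- the literal `r` is true -/
def onB (σ : ℕ → Bool) (r : ℕ) : Bool := (σ (r / 2) == decide (r % 2 = 0))

/-- codes in the left end -/
def codeL (σ : ℕ → Bool) (r x i : ℕ) : ℕ :=
  if i = 1 then
    (if x = r + 1 ∧ r % 2 = 1 then (if σ (r / 2) then 5 else 6)
    else if x = r + 2 ∧ r % 2 = 1 then 3 else 2)
  else if r % 2 = 0 then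
    (if x = r + 2 then (if i = 2 ∨ i = 3 then 4 else if i = 4 then 9 else 0)
    else if x = r + 3 ∧ i = 4 then (if onB σ r then 21 else 23) else 0)
  else
    (if x = r + 1 then (if i = 0 then (if onB σ r then 24 else 27)
      else if i = 2 then (if onB σ r then 26 else 25) else if i = 3 then 10 else 2)
    else if x = r + 2 then (if i = 3 then (if onB σ r then 30 else 31) else if i = 4 then 7 else 0)
    else if x = r + 3 then (if i = 4 then (if onB σ r then 22 else 23) else 0)
    else if i = 4 then 2 else 0)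

/-- codes in the tiles -/
def codeT (m r j d i : ℕ) (on le eq b : Bool) : ℕ :=
  if i = 0 then (if d = 1 then (if r = 0 then 0 else 10) else if d = 2 then (if le then 28 else 29)
    else 0)
  else if i = 1 then (if d = 2 then (if le then 5 else 6) else if d = 3 then 3
    else if d = 5 ∧ j + 1 = m then 0 else 2)
  else if i = 2 then (if d = 0 ∨ d = 4 then 4 else if d = 2 then (if le then 25 else 26) else 0)
  else if i = 3 then
    (if d = 0 ∨ d = 4 then 4 else if d = 1 then 7 else if d = 3 then 8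
    else if d = 2 then (if on then (if le then 11 else 12) else (if le then 13 else 14)) else 0)
  else
    (if d = 0 ∨ d = 4 then 9
    else if d = 1 then (if b then (if on then 15 else 16) else (if on then 17 else 18))
    else if d = 2 then (if eq then 32 else if le then 25 else 24)
    else if d = 3 then (if on then 19 else 20)
    else if j + 1 = m then 0 else (if on then 21 else 23))

/-- The code of a cell. -/
def code (K m : ℕ) (inc : ℕ → ℕ → Bool) (σ : ℕ → Bool) (ρ : ℕ → ℕ) (p : ℕ × ℕ) : ℕ :=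
  if K ≤ p.2 / 5 then 0
  else if p.1 = 0 then (if p.2 = 0 then 0 else if p.2 = 1 then 1 else 4)
  else if p.1 < p.2 / 5 + 4 then codeL σ (p.2 / 5) p.1 (p.2 % 5)
  else if m ≤ (p.1 - p.2 / 5 - 4) / 6 then 0
  else codeT m (p.2 / 5) ((p.1 - p.2 / 5 - 4) / 6) ((p.1 - p.2 / 5 - 4) % 6) (p.2 % 5)
    (onB σ (p.2 / 5)) (decide (p.2 / 5 ≤ ρ ((p.1 - p.2 / 5 - 4) / 6)))
    (decide (p.2 / 5 = ρ ((p.1 - p.2 / 5 - 4) / 6))) (inc (p.2 / 5) ((p.1 - p.2 / 5 - 4) / 6))

/-- direction of the child of a gate, left end -/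
def selL (σ : ℕ → Bool) (r : ℕ) : ℤ × ℤ :=
  if r % 2 = 0 then (if onB σ r then (1, 0) else (0, 1))
  else (if onB σ r then (1, 0) else (0, -1))

/-- direction of the child of a gate, tiles -/
def selT (d i : ℕ) (on le : Bool) : ℤ × ℤ :=
  if i = 0 then (if le then (0, -1) else (1, 0))
  else if i = 3 then (if d = 1 then (if on then (1, 0) else (0, 1))
    else if d = 2 then (if le then (0, -1) else (0, 1))
    else (if on then (0, 1) else (-1, 0)))
  else (if d = 1 then (1, 0) else (if on then (1, 0) else (-1, 0)))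

/-- direction of the child of a gate -/
def sel (σ : ℕ → Bool) (ρ : ℕ → ℕ) (p : ℕ × ℕ) : ℤ × ℤ :=
  if p.1 < p.2 / 5 + 4 then selL σ (p.2 / 5)
  else selT ((p.1 - p.2 / 5 - 4) % 6) (p.2 % 5) (onB σ (p.2 / 5))
    (decide (p.2 / 5 ≤ ρ ((p.1 - p.2 / 5 - 4) / 6)))

section

variable {K m : ℕ} {inc : ℕ → ℕ → Bool} {σ : ℕ → Bool} {ρ : ℕ → ℕ}

theorem kindOf_codeL (r x i : ℕ) (hi : i < 5) : kindOf (codeL σ r x i) = lend r x i := by
  interval_cases i <;> simp [codeL, lend] <;> split_ifs <;> first | rfl | (exfalso; omega)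

theorem kindOf_codeT (m r j d i : ℕ) (on le eq b : Bool) (hd : d < 6) (hi : i < 5) :
    kindOf (codeT m r j d i on le eq b) = tile m r j d i b := by
  interval_cases i <;> interval_cases d <;> simp [codeT, tile] <;> (try split_ifs) <;> rfl

theorem kindOf_code (p : ℕ × ℕ) : kindOf (code K m inc σ ρ p) = kd K m inc p := by
  unfold code kd
  have h1 : p.2 % 5 < 5 := Nat.mod_lt _ (by norm_num)
  have h2 : (p.1 - p.2 / 5 - 4) % 6 < 6 := Nat.mod_lt _ (by norm_num)
  split_ifs
  all_goals first | rfl | exact kindOf_codeL _ _ _ h1 | exact kindOf_codeT _ _ _ _ _ _ _ _ _ h2 h1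

theorem code_T {r j d i : ℕ} (hr : r < K) (hj : j < m) (hd : d < 6) (hi : i < 5) :
    code K m inc σ ρ (r + 4 + 6 * j + d, 5 * r + i) =
      codeT m r j d i (onB σ r) (decide (r ≤ ρ j)) (decide (r = ρ j)) (inc r j) := by
  unfold code
  have e1 : (5 * r + i) / 5 = r := by omega
  have e2 : (5 * r + i) % 5 = i := by omega
  have e3 : (r + 4 + 6 * j + d - r - 4) / 6 = j := by omega
  have e4 : (r + 4 + 6 * j + d - r - 4) % 6 = d := by omega
  simp only [e1, e2, e3, e4]
  rw [if_neg (by omega), if_neg (by omega), if_neg (by omega), if_neg (by omega)]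

theorem code_L {r x i : ℕ} (hr : r < K) (hx : 1 ≤ x) (hx2 : x < r + 4) (hi : i < 5) :
    code K m inc σ ρ (x, 5 * r + i) = codeL σ r x i := by
  unfold code
  have e1 : (5 * r + i) / 5 = r := by omega
  have e2 : (5 * r + i) % 5 = i := by omega
  simp only [e1, e2]
  rw [if_neg (by omega), if_neg (by omega), if_pos hx2]

theorem sel_T {r j d i : ℕ} (hd : d < 6) (hi : i < 5) :
    sel σ ρ (r + 4 + 6 * j + d, 5 * r + i) = selT d i (onB σ r) (decide (r ≤ ρ j)) := by
  unfold sel
  have e1 : (5 * r + i) / 5 = r := by omega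
  have e2 : (5 * r + i) % 5 = i := by omega
  have e3 : (r + 4 + 6 * j + d - r - 4) / 6 = j := by omega
  have e4 : (r + 4 + 6 * j + d - r - 4) % 6 = d := by omega
  simp only [e1, e2, e3, e4]
  rw [if_neg (by omega)]

theorem sel_L {r x i : ℕ} (hx2 : x < r + 4) (hi : i < 5) :
    sel σ ρ (x, 5 * r + i) = selL σ r := by
  unfold sel
  have e1 : (5 * r + i) / 5 = r := by omega
  simp only [e1]
  rw [if_pos hx2]

theorem code_S {y : ℕ} (hy : y < 5 * K) (hy2 : 2 ≤ y) : code K m inc σ ρ (0, y) = 4 := by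
  unfold code
  rw [if_neg (by simp only; omega), if_pos rfl, if_neg (by simp only; omega),
    if_neg (by simp only; omega)]

theorem code_root (hK : 2 ≤ K) : code K m inc σ ρ (0, 1) = 1 := by
  unfold code
  rw [if_neg (by simp only; omega), if_pos rfl, if_neg (by simp only; omega), if_pos rfl]

/-- what we need about the parent of a cell -/
def PG (K m : ℕ) (inc : ℕ → ℕ → Bool) (σ : ℕ → Bool) (ρ : ℕ → ℕ) (p : ℕ × ℕ) : Prop :=
  ∃ q : ℕ × ℕ, (q.1 : ℤ) = p.1 + (pdir (code K m inc σ ρ p)).1 ∧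
    (q.2 : ℤ) = p.2 + (pdir (code K m inc σ ρ p)).2 ∧
    (code K m inc σ ρ q, code K m inc σ ρ p) ∈ fitsL ∧
    (6 < code K m inc σ ρ q → sel σ ρ q = opp (pdir (code K m inc σ ρ p)))

theorem PG_of {p q : ℕ × ℕ} {c c' : ℕ} (hc : code K m inc σ ρ p = c) (hc' : code K m inc σ ρ q = c')
    (h1 : (q.1 : ℤ) = p.1 + (pdir c).1) (h2 : (q.2 : ℤ) = p.2 + (pdir c).2) (h3 : (c', c) ∈ fitsL)
    (h4 : 6 < c' → sel σ ρ q = opp (pdir c)) : PG K m inc σ ρ p := by
  subst hc
  subst hc'
  exact ⟨q, h1, h2, h3, h4⟩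

end

end Pool.Agent.H883R2.OL
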