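import Pool.Agent.H883R2.OL.Par

set_option autoImplicit false

/-!
The system of codes of a satisfying assignment.
-/

namespace Pool.Agent.H883R2.OL

variable {K m : ℕ} {inc : ℕ → ℕ → Bool} {σ : ℕ → Bool} {ρ : ℕ → ℕ}

theorem PG_all (hK : 2 ≤ K) (hK2 : K % 2 = 0) (hm : 1 ≤ m)
    (hρ : ∀ j < m, ρ j < K ∧ inc (ρ j) j = true ∧ onB σ (ρ j) = true) (p : ℕ × ℕ)
    (hp : kd K m inc p ≠ 0) (h0 : p ≠ (0, 1)) : PG K m inc σ ρ p := by
  obtain ⟨x, y⟩ := p
  obtain ⟨r, i, hi, rfl⟩ : ∃ r i, i < 5 ∧ y = 5 * r + i := ⟨y / 5, y % 5, Nat.mod_lt _ (by norm_num), by omega⟩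
  have hr : r < K := by
    by_contra hcon
    apply hp
    unfold kd
    rw [if_pos (by simp only; omega)]
  rcases Nat.eq_zero_or_pos x with hx | hx
  · subst hx
    have h2 : 2 ≤ 5 * r + i := by
      by_contra hcon
      have : 5 * r + i = 0 ∨ 5 * r + i = 1 := by omega
      rcases this with h | h
      · apply hp
        unfold kd
        rw [if_neg (by simp only; omega), if_pos rfl, if_pos h]
      · exact h0 (by rw [h])
    exact ps hK (by omega) h2
  by_cases hx2 : x < r + 4
  · -- left end
    have hkd : kd K m inc (x, 5 * r + i) = lend r x i := by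
      unfold kd
      have e1 : (5 * r + i) / 5 = r := by omega
      have e2 : (5 * r + i) % 5 = i := by omega
      simp only [e1, e2]
      rw [if_neg (by omega), if_neg (by omega), if_pos hx2]
    rw [hkd] at hp
    have hm' : 0 < m := hm
    by_cases he : r % 2 = 0
    · have ho : ¬ r % 2 = 1 := by omega
      rcases (show i = 0 ∨ i = 1 ∨ i = 2 ∨ i = 3 ∨ i = 4 by omega) with rfl | rfl | rfl | rfl | rfl
      · exfalso
        apply hp
        simp [lend, he]
      · exact pl_1 hK hr hx hx2
      · have : x = r + 2 := by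
          by_contra hcon
          apply hp
          simp [lend, he, hcon]
        subst this
        exact pe_2 hr he
      · have : x = r + 2 := by
          by_contra hcon
          apply hp
          simp [lend, he, hcon]
        subst this
        exact pe_3 hr he
      · have : x = r + 2 ∨ x = r + 3 := by
          by_contra hcon
          push Not at hcon
          apply hp
          simp [lend, he, hcon.1, hcon.2]
        rcases this with rfl | rfl
        · exact pe_4 hr he
        · exact pe_u hr he hm'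
    · have ho : r % 2 = 1 := by omega
      rcases (show i = 0 ∨ i = 1 ∨ i = 2 ∨ i = 3 ∨ i = 4 by omega) with rfl | rfl | rfl | rfl | rfl
      · have : x = r + 1 := by
          by_contra hcon
          apply hp
          simp [lend, ho, hcon]
        subst this
        obtain ⟨r', rfl⟩ : ∃ r', r = r' + 1 := ⟨r - 1, by omega⟩
        exact po_0 hr (by omega)
      · exact pl_1 hK hr hx hx2
      · have : x = r + 1 := by
          by_contra hcon
          apply hp
          simp [lend, ho, hcon]
        subst this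
        exact po_2 hr ho
      · have : x = r + 1 ∨ x = r + 2 := by
          by_contra hcon
          push Not at hcon
          apply hp
          simp [lend, ho, hcon.1, hcon.2]
        rcases this with rfl | rfl
        · exact po_3 hr ho
        · exact po_s hr ho
      · rcases (show x ≤ r + 1 ∨ x = r + 2 ∨ x = r + 3 by omega) with h | rfl | rfl
        · exact po_4 hr ho hx h
        · exact po_b hr ho
        · exact po_u hr ho hm'
  · -- tiles
    obtain ⟨j, d, hd, rfl⟩ : ∃ j d, d < 6 ∧ x = r + 4 + 6 * j + d :=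
      ⟨(x - r - 4) / 6, (x - r - 4) % 6, Nat.mod_lt _ (by norm_num), by omega⟩
    have e1 : (5 * r + i) / 5 = r := by omega
    have e2 : (5 * r + i) % 5 = i := by omega
    have e3 : (r + 4 + 6 * j + d - r - 4) / 6 = j := by omega
    have e4 : (r + 4 + 6 * j + d - r - 4) % 6 = d := by omega
    have hj : j < m := by
      by_contra hcon
      apply hp
      unfold kd
      simp only [e1, e2, e3, e4]
      rw [if_neg (by omega), if_neg (by omega), if_neg (by omega), if_pos (by omega)]
    have hkd : kd K m inc (r + 4 + 6 * j + d, 5 * r + i) = tile m r j d i (inc r j) := by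
      unfold kd
      simp only [e1, e2, e3, e4]
      rw [if_neg (by omega), if_neg (by omega), if_neg (by omega), if_neg (by omega)]
    rw [hkd] at hp
    have bad : ∀ (P : Prop), tile m r j d i (inc r j) = 0 → P := fun P h => absurd h hp
    rcases (show i = 0 ∨ i = 1 ∨ i = 2 ∨ i = 3 ∨ i = 4 by omega) with rfl | rfl | rfl | rfl | rfl <;>
      rcases (show d = 0 ∨ d = 1 ∨ d = 2 ∨ d = 3 ∨ d = 4 ∨ d = 5 by omega) with
        rfl | rfl | rfl | rfl | rfl | rfl
    · exact bad _ rfl
    · exact pg_0_1 hr hj (fun h => hp (by simp [tile, h]))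
    · exact pg_0_2 hr hj
    · exact bad _ rfl
    · exact bad _ rfl
    · exact bad _ rfl
    · exact pg_1_0 hr hj
    · exact pg_1_1 hr hj
    · exact pg_1_2 hr hj
    · exact pg_1_3 hr hj
    · exact pg_1_4 hr hj
    · exact pg_1_5 hr hj (fun h => hp (by simp [tile, h]))
    · exact pg_2_0 hr hj
    · exact bad _ rfl
    · exact pg_2_2 hr hj
    · exact bad _ rfl
    · exact pg_2_4 hr hj
    · exact bad _ rfl
    · exact pg_3_0 hr hj
    · exact pg_3_1 hr hj
    · exact pg_3_2 hr hj
    · exact pg_3_3 hr hj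
    · exact pg_3_4 hr hj
    · exact bad _ rfl
    · exact pg_4_0 hr hj
    · exact pg_4_1 hr hj
    · exact pg_4_2 hr hj (hρ j hj)
    · exact pg_4_3 hr hj
    · exact pg_4_4 hr hj
    · exact pg_4_5 hr hj (fun h => hp (by simp [tile, h]))

/-- stages -/
def stg (c : ℕ) : ℕ := if c ≤ 6 then 0 else if c ≤ 10 then 1 else if c ≤ 16 then 2 else 3

theorem check8 : fitsL.all (fun ab => decide (stg ab.1 < stg ab.2) ||
    (decide (stg ab.1 = 0) && decide (stg ab.2 = 0) &&
      (decide (pdir ab.2 = (-1, 0)) || decide (pdir ab.2 = (0, -1))))) = true := by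
  decide +kernel

theorem check9 : fitsL.all (fun ab => decide (kindOf ab.1 ≠ 0)) = true := by
  decide +kernel

/-- the rank of a cell -/
def rkk (K m : ℕ) (inc : ℕ → ℕ → Bool) (σ : ℕ → Bool) (ρ : ℕ → ℕ) (p : ℕ × ℕ) : ℕ :=
  if code K m inc σ ρ p ≤ 6 then p.1 + p.2
  else K + 6 * m + 4 + 5 * K + stg (code K m inc σ ρ p)

/-- the parent of a cell -/
def parr (K m : ℕ) (inc : ℕ → ℕ → Bool) (σ : ℕ → Bool) (ρ : ℕ → ℕ) (p : ℕ × ℕ) : ℕ × ℕ :=
  (((p.1 : ℤ) + (pdir (code K m inc σ ρ p)).1).toNat,
    ((p.2 : ℤ) + (pdir (code K m inc σ ρ p)).2).toNat)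

theorem codeSys (hK : 2 ≤ K) (hK2 : K % 2 = 0) (hm : 1 ≤ m)
    (hρ : ∀ j < m, ρ j < K ∧ inc (ρ j) j = true ∧ onB σ (ρ j) = true) :
    CodeSys (kd K m inc) (cells K m inc) (code K m inc σ ρ) (parr K m inc σ ρ)
      (rkk K m inc σ ρ) := by
  have main : ∀ p ∈ cells K m inc, p ≠ (0, 1) →
      ((parr K m inc σ ρ p).1 : ℤ) = p.1 + (pdir (code K m inc σ ρ p)).1 ∧
      ((parr K m inc σ ρ p).2 : ℤ) = p.2 + (pdir (code K m inc σ ρ p)).2 ∧
      (code K m inc σ ρ (parr K m inc σ ρ p), code K m inc σ ρ p) ∈ fitsL ∧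
      (6 < code K m inc σ ρ (parr K m inc σ ρ p) →
        sel σ ρ (parr K m inc σ ρ p) = opp (pdir (code K m inc σ ρ p))) := by
    intro p hp h0
    obtain ⟨q, h1, h2, h3, h4⟩ := PG_all (σ := σ) (ρ := ρ) hK hK2 hm hρ p
      ((mem_cells K m inc p).1 hp) h0
    have : parr K m inc σ ρ p = q := by
      unfold parr
      apply Prod.ext
      · simp only; rw [← h1]; simp
      · simp only; rw [← h2]; simp
    rw [this]
    exact ⟨h1, h2, h3, h4⟩
  have hmem : ∀ p ∈ cells K m inc, p ≠ (0, 1) → parr K m inc σ ρ p ∈ cells K m inc := by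
    intro p hp h0
    obtain ⟨_, _, h3, _⟩ := main p hp h0
    rw [mem_cells, ← kindOf_code (σ := σ) (ρ := ρ)]
    have := List.all_eq_true.1 check9 _ h3
    simpa using this
  refine ⟨?_, code_root hK, fun p _ => kindOf_code p, hmem, fun p hp h0 => ⟨(main p hp h0).1,
    (main p hp h0).2.1⟩, fun p hp h0 => (main p hp h0).2.2.1, ?_, ?_⟩
  · rw [mem_cells, kd_root K m inc hK]; norm_num
  · intro p hp p' hp' h0 h0' he h6
    obtain ⟨a1, a2, a3, a4⟩ := main p hp h0
    obtain ⟨b1, b2, b3, b4⟩ := main p' hp' h0'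
    have c1 := a4 h6
    rw [he] at h6
    have c2 := b4 h6
    rw [he, c2] at c1
    unfold opp at c1
    simp only [Prod.mk.injEq, neg_inj] at c1
    rw [he] at a1 a2
    apply Prod.ext
    · have := c1.1; omega
    · have := c1.2; omega
  · intro p hp h0
    obtain ⟨a1, a2, a3, a4⟩ := main p hp h0
    have hq := hmem p hp h0
    have hb : ∀ q ∈ cells K m inc, q.1 + q.2 < K + 6 * m + 4 + 5 * K := by
      intro q hq
      unfold cells at hq
      rw [Finset.mem_filter, Finset.mem_product, Finset.mem_range, Finset.mem_range] at hq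
      omega
    have hb1 := hb _ hq
    have hc := List.all_eq_true.1 check8 _ a3
    simp only [Bool.or_eq_true, Bool.and_eq_true, decide_eq_true_eq] at hc
    unfold rkk
    rcases hc with hc | ⟨⟨hc1, hc2⟩, hc3⟩
    · have h6 : ¬ code K m inc σ ρ p ≤ 6 := by
        intro h
        have : stg (code K m inc σ ρ p) = 0 := by unfold stg; rw [if_pos h]
        omega
      rw [if_neg h6]
      split_ifs
      · omega
      · omega
    · have g : ∀ c, stg c = 0 → c ≤ 6 := by
        intro c hc
        by_contra h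
        unfold stg at hc
        rw [if_neg h] at hc
        split_ifs at hc
      rw [if_pos (g _ hc1), if_pos (g _ hc2)]
      rcases hc3 with h | h <;> rw [h] at a1 a2 <;> simp only at a1 a2 <;> omega

theorem exists_light (K m : ℕ) (inc : ℕ → ℕ → Bool) (hK : 2 ≤ K) (hK2 : K % 2 = 0) (hm : 1 ≤ m)
    (N : ℕ) (hN : 100 ≤ N) (σ : ℕ → Bool) (h : Sats K m inc σ) :
    ∃ T, TriPoly (pts N (kd K m inc) (cells K m inc)) T ∧
      weight (edges T) ≤ (thr N (kd K m inc) (cells K m inc) : ℝ) := by
  classical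
  have h' : ∀ j, ∃ r, j < m → r < K ∧ inc r j = true ∧ onB σ r = true := by
    intro j
    by_cases hj : j < m
    · obtain ⟨r, h1, h2, h3⟩ := h j hj
      exact ⟨r, fun _ => ⟨h1, h2, by unfold onB; rw [h3]; simp⟩⟩
    · exact ⟨0, fun h => absurd h hj⟩
  choose ρ hρ using h'
  have := (codeSys (σ := σ) (ρ := ρ) hK hK2 hm hρ).triPoly hN
  exact ⟨_, this.1, this.2⟩

end Pool.Agent.H883R2.OL
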