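import Pool.Agent.H883R2.OL.Defs

set_option autoImplicit false

namespace Pool.Agent.H883R2.OL

namespace Logic

variable {K m : ℕ} {inc : ℕ → ℕ → Bool} {Lk : ℕ × ℕ → ℕ × ℕ → Prop}

/-- reachable from the root in `n` steps -/
def Rch (Lk : ℕ × ℕ → ℕ × ℕ → Prop) : ℕ → ℕ × ℕ → Prop
  | 0, p => p = (0, 1)
  | n + 1, p => ∃ q, Rch Lk n q ∧ Lk q p

theorem exists_rch {p : ℕ × ℕ} (h : Relation.ReflTransGen Lk (0, 1) p) : ∃ n, Rch Lk n p := by
  induction h with
  | refl => exact ⟨0, rfl⟩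
  | tail _ hl ih =>
    obtain ⟨n, hn⟩ := ih
    exact ⟨n + 1, _, hn, hl⟩

/-- distance from the root -/
noncomputable def D (Lk : ℕ × ℕ → ℕ × ℕ → Prop) (p : ℕ × ℕ) : ℕ := sInf {n | Rch Lk n p}

/-- `q` serves `p` -/
def Sv (Lk : ℕ × ℕ → ℕ × ℕ → Prop) (p q : ℕ × ℕ) : Prop := Lk p q ∧ D Lk p = D Lk q + 1

/-- a cell that is neither empty nor single -/
def ok (K m : ℕ) (inc : ℕ → ℕ → Bool) (p : ℕ × ℕ) : Prop := 0 < kd K m inc p ∧ kd K m inc p < 6

theorem kd_root (hK : 1 ≤ K) : kd K m inc (0, 1) = 1 := by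
  unfold kd
  simp
  omega

theorem kpos_of_lk (h : LinkRel K m inc Lk) {p q : ℕ × ℕ} (hl : Lk p q) :
    kd K m inc p ≠ 0 ∧ kd K m inc q ≠ 0 := ⟨h.ne0 _ _ hl, h.ne0 _ _ (h.symm _ _ hl)⟩

theorem D_spec (h : LinkRel K m inc Lk) {p : ℕ × ℕ} (hp : kd K m inc p ≠ 0) :
    Rch Lk (D Lk p) p := by
  obtain ⟨n, hn⟩ := exists_rch (h.conn p hp)
  exact Nat.sInf_mem (s := {n | Rch Lk n p}) ⟨n, hn⟩

theorem exists_sv (h : LinkRel K m inc Lk) {p : ℕ × ℕ} (hp : kd K m inc p ≠ 0)
    (hne : p ≠ (0, 1)) : ∃ q, Sv Lk p q := by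
  have h1 := D_spec h hp
  rcases hD : D Lk p with _ | n
  · rw [hD] at h1
    exact absurd h1 hne
  · rw [hD] at h1
    obtain ⟨q, hq, hl⟩ := h1
    refine ⟨q, h.symm _ _ hl, ?_⟩
    have h2 : D Lk q ≤ n := Nat.sInf_le hq
    have h3 : D Lk p ≤ D Lk q + 1 :=
      Nat.sInf_le (show Rch Lk (D Lk q + 1) p from ⟨q, D_spec h (h.ne0 _ _ hl), hl⟩)
    omega

theorem root_kd6 (hK : 1 ≤ K) {p : ℕ × ℕ} (hp : 1 < kd K m inc p) : p ≠ (0, 1) := by
  rintro rfl
  rw [kd_root hK] at hp
  omega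

theorem sv_lt6 (h : LinkRel K m inc Lk) (hK : 1 ≤ K) {p q : ℕ × ℕ} (hs : Sv Lk p q) :
    kd K m inc q < 6 := by
  by_contra hc
  push Not at hc
  obtain ⟨q', hl', hD'⟩ := exists_sv h (p := q) (by omega) (root_kd6 (m := m) (inc := inc) hK (by omega))
  have := h.single q p q' hc (h.symm _ _ hs.1) hl'
  subst this
  have := hs.2
  omega

theorem sv_ok (h : LinkRel K m inc Lk) (hK : 1 ≤ K) {p q : ℕ × ℕ} (hs : Sv Lk p q) :
    ok K m inc q := ⟨Nat.pos_of_ne_zero (kpos_of_lk h hs.1).2, sv_lt6 h hK hs⟩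

/-- a pair cell serves at most one cell -/
theorem pair_serves (h : LinkRel K m inc Lk) (hK : 1 ≤ K) {p p' q : ℕ × ℕ}
    (h3 : 3 ≤ kd K m inc q) (h5 : kd K m inc q ≤ 5) (hs : Sv Lk p q) (hs' : Sv Lk p' q) :
    p = p' := by
  obtain ⟨q0, hl, hD⟩ := exists_sv h (p := q) (by omega) (root_kd6 (m := m) (inc := inc) hK (by omega))
  rcases h.pair q q0 p p' h3 h5 hl (h.symm _ _ hs.1) (h.symm _ _ hs'.1) with h1 | h1 | h1
  · subst h1
    have := hs.2
    omega
  · subst h1
    have := hs'.2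
    omega
  · exact h1

/-- a single cell is served by the cell it is linked to -/
theorem single_sv (h : LinkRel K m inc Lk) (hK : 1 ≤ K) {p q : ℕ × ℕ} (h6 : 6 ≤ kd K m inc p)
    (hl : Lk p q) : Sv Lk p q := by
  obtain ⟨q0, hs⟩ := exists_sv h (p := p) (by omega) (root_kd6 (m := m) (inc := inc) hK (by omega))
  have := h.single p q q0 h6 hl hs.1
  subst this
  exact hs

/-- the four neighbours -/
theorem adj4 {x y : ℕ} {q : ℕ × ℕ} (h : Adj (x, y) q) :
    ∃ a b, q = (a, b) ∧ ((b = y ∧ a + 1 = x) ∨ (b = y ∧ a = x + 1) ∨ (a = x ∧ b + 1 = y) ∨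
      (a = x ∧ b = y + 1)) := by
  obtain ⟨a, b⟩ := q
  refine ⟨a, b, rfl, ?_⟩
  simp only [Adj] at h
  omega

theorem cut (h : LinkRel K m inc Lk) (hK : 1 ≤ K) (A : ℕ × ℕ → Prop) (hr : ¬ A (0, 1))
    {p0 : ℕ × ℕ} (h0 : A p0) (hk : ok K m inc p0) :
    ∃ p q, A p ∧ ¬ A q ∧ Lk p q ∧ ok K m inc p ∧ ok K m inc q := by
  by_contra hc
  push Not at hc
  have key : ∀ n, ∀ p, A p → ok K m inc p → D Lk p = n → False := by
    intro n
    induction n with
    | zero =>
      intro p hA hp hD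
      have h1 := D_spec h (p := p) (by have := hp.1; omega)
      rw [hD] at h1
      have h2 : p = (0, 1) := h1
      subst h2
      exact hr hA
    | succ n ih =>
      intro p hA hp hD
      obtain ⟨q, hs⟩ := exists_sv h (p := p) (by have := hp.1; omega) (by rintro rfl; exact hr hA)
      have hq := sv_ok h hK hs
      by_cases hAq : A q
      · exact ih q hAq hq (by have := hs.2; omega)
      · exact hc p q hA hAq hs.1 hp hq
  exact key _ p0 h0 hk rfl

/-! ### kinds -/

theorem kd_big {x y r i : ℕ} (hy : y = 5 * r + i) (hi : i < 5) (hr : K ≤ r) :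
    kd K m inc (x, y) = 0 := by
  unfold kd
  have : y / 5 = r := by omega
  simp [this, hr]

theorem kd_tile {x y r j d i : ℕ} (hx : x = r + 4 + 6 * j + d) (hy : y = 5 * r + i) (hr : r < K)
    (hj : j < m) (hd : d < 6) (hi : i < 5) :
    kd K m inc (x, y) = tile m r j d i (inc r j) := by
  unfold kd
  have h1 : y / 5 = r := by omega
  have h2 : y % 5 = i := by omega
  have h3 : (x - r - 4) / 6 = j := by omega
  have h4 : (x - r - 4) % 6 = d := by omega
  simp only [h1, h2, h3, h4]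
  rw [if_neg (by omega), if_neg (by omega), if_neg (by omega), if_neg (by omega)]

theorem kd_lend {x y r i : ℕ} (hx : 1 ≤ x) (hx' : x < r + 4) (hy : y = 5 * r + i) (hr : r < K)
    (hi : i < 5) : kd K m inc (x, y) = lend r x i := by
  unfold kd
  have h1 : y / 5 = r := by omega
  have h2 : y % 5 = i := by omega
  simp only [h1, h2]
  rw [if_neg (by omega), if_neg (by omega), if_pos (by omega)]

theorem kd_far {x y r i : ℕ} (hx : r + 4 + 6 * m ≤ x) (hy : y = 5 * r + i) (hi : i < 5) :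
    kd K m inc (x, y) = 0 := by
  unfold kd
  have h1 : y / 5 = r := by omega
  have h3 : m ≤ (x - r - 4) / 6 := by omega
  simp only [h1]
  split_ifs <;> first | rfl | omega

/-- the non-single cells of the top row of a band (outside column `0`) are the cells `Y` -/
theorem row0 {x y r : ℕ} (ho : ok K m inc (x, y)) (hy : y = 5 * r) (hx : 1 ≤ x) :
    r < K ∧ ∃ j, j < m ∧ x = r + 4 + 6 * j + 1 := by
  have h0 := ho.1
  have h6 := ho.2
  by_cases hr : K ≤ r
  · have := kd_big (K := K) (m := m) (inc := inc) (x := x) (y := y) (r := r) (i := 0)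
      (by omega) (by omega) hr
    omega
  push Not at hr
  refine ⟨hr, ?_⟩
  by_cases hl : x < r + 4
  · have h3 := kd_lend (K := K) (m := m) (inc := inc) (x := x) (y := y) (r := r) (i := 0)
      hx hl (by omega) hr (by omega)
    have h4 : lend r x 0 = 0 ∨ lend r x 0 = 6 := by
      unfold lend
      split_ifs <;> simp_all
    omega
  push Not at hl
  by_cases hf : r + 4 + 6 * m ≤ x
  · have h3 := kd_far (K := K) (m := m) (inc := inc) (x := x) (y := y) (r := r) (i := 0)
      hf (by omega) (by omega)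
    omega
  push Not at hf
  obtain ⟨j, d, hd, hxj⟩ : ∃ j d, d < 6 ∧ x = r + 4 + 6 * j + d :=
    ⟨(x - r - 4) / 6, (x - r - 4) % 6, by omega, by omega⟩
  have hj : j < m := by omega
  have h3 := kd_tile (K := K) (m := m) (inc := inc) (x := x) (y := y) (r := r) (i := 0)
    hxj (by omega) hr hj hd (by omega)
  by_cases hd1 : d = 1
  · exact ⟨j, hj, by omega⟩
  · rw [h3] at h0 h6
    by_cases hd2 : d = 2
    · simp [tile, hd2] at h6
    · simp [tile, hd1, hd2] at h0

/-- no vertical link between non-single cells of different bands, except in column `0` -/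
theorem vert {x y r : ℕ} (h1 : ok K m inc (x, y)) (h2 : ok K m inc (x, y + 1))
    (hy : y = 5 * r + 4) : x = 0 := by
  by_contra hx
  obtain ⟨hr, j, hj, hxj⟩ := row0 (r := r + 1) h2 (by omega) (by omega)
  have h4 := kd_tile (K := K) (m := m) (inc := inc) (x := x) (y := y) (r := r) (i := 4)
    (j := j) (d := 2) (by omega) (by omega) (by omega) hj (by omega) (by omega)
  have h5 := h1.2
  rw [h4] at h5
  simp [tile] at h5

/-- the cell in column `d`, row `i` of tile `j` of band `r` -/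
abbrev T (r j d i : ℕ) : ℕ × ℕ := (r + 4 + 6 * j + d, 5 * r + i)

/-- the cell in column `x`, row `i` of band `r` -/
abbrev E (r x i : ℕ) : ℕ × ℕ := (x, 5 * r + i)

theorem kdT {r j d i : ℕ} (hr : r < K) (hj : j < m) (hd : d < 6) (hi : i < 5) :
    kd K m inc (T r j d i) = tile m r j d i (inc r j) := kd_tile rfl rfl hr hj hd hi

theorem kdE {r x i : ℕ} (hx : 1 ≤ x) (hx' : x < r + 4) (hr : r < K)
    (hi : i < 5) : kd K m inc (E r x i) = lend r x i := kd_lend hx hx' rfl hr hi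

/-- the server of a cell is one of its four neighbours -/
theorem sv4 (h : LinkRel K m inc Lk) (hK : 1 ≤ K) {x y : ℕ} {q : ℕ × ℕ} (hs : Sv Lk (x, y) q) :
    ∃ a b, q = (a, b) ∧ ok K m inc (a, b) ∧
      ((b = y ∧ a + 1 = x) ∨ (b = y ∧ a = x + 1) ∨ (a = x ∧ b + 1 = y) ∨ (a = x ∧ b = y + 1)) := by
  obtain ⟨a, b, hq, hc⟩ := adj4 (h.adj _ _ hs.1)
  subst hq
  exact ⟨a, b, rfl, sv_ok h hK hs, hc⟩

theorem not_ok_of_kd {p : ℕ × ℕ} {k : ℕ} (hk : kd K m inc p = k) (h : k = 0 ∨ 6 ≤ k)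
    (ho : ok K m inc p) : False := by
  have := ho.1
  have := ho.2
  omega

section servers

variable {r j : ℕ}

theorem srv_e0 (h : LinkRel K m inc Lk) (hK : 1 ≤ K) (hj : j < m) {q : ℕ × ℕ}
    (hs : Sv Lk (T 0 j 2 0) q) : q = T 0 j 2 1 := by
  obtain ⟨a, b, rfl, ho, hc⟩ := sv4 h hK hs
  rcases hc with ⟨h1, h2⟩ | ⟨h1, h2⟩ | ⟨h1, h2⟩ | ⟨h1, h2⟩
  · exact (not_ok_of_kd (kd_tile (r := 0) (j := j) (d := 1) (i := 0) (by omega)
      (by omega) (by omega) (by omega) (by omega) (by omega)) (by simp [tile]) ho).elim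
  · exact (not_ok_of_kd (kd_tile (r := 0) (j := j) (d := 3) (i := 0) (by omega)
      (by omega) (by omega) (by omega) (by omega) (by omega)) (by simp [tile]) ho).elim
  · omega
  · exact Prod.ext (by simp; omega) (by simp; omega)

theorem srv_e (h : LinkRel K m inc Lk) (hK : 1 ≤ K) (hr : r + 1 < K) (hj : j < m) {q : ℕ × ℕ}
    (hs : Sv Lk (T (r + 1) j 2 0) q) : q = T (r + 1) j 2 1 ∨ q = T (r + 1) j 1 0 := by
  obtain ⟨a, b, rfl, ho, hc⟩ := sv4 h hK hs
  rcases hc with ⟨h1, h2⟩ | ⟨h1, h2⟩ | ⟨h1, h2⟩ | ⟨h1, h2⟩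
  · right; exact Prod.ext (by simp; omega) (by simp; omega)
  · exact (not_ok_of_kd (kd_tile (r := (r + 1)) (j := j) (d := 3) (i := 0) (by omega)
      (by omega) (by omega) (by omega) (by omega) (by omega)) (by simp [tile]) ho).elim
  · exact (not_ok_of_kd (kd_tile (r := r) (j := j) (d := 3) (i := 4) (by omega)
      (by omega) (by omega) (by omega) (by omega) (by omega)) (by simp [tile]) ho).elim
  · left; exact Prod.ext (by simp; omega) (by simp; omega)

theorem srv_c (h : LinkRel K m inc Lk) (hK : 1 ≤ K) (hr : r < K) (hj : j < m) {q : ℕ × ℕ}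
    (hs : Sv Lk (T r j 2 4) q) : q = T r j 1 4 ∨ q = T r j 2 3 ∨
      (q = T (r + 1) j 1 0 ∧ r + 1 < K) := by
  obtain ⟨a, b, rfl, ho, hc⟩ := sv4 h hK hs
  rcases hc with ⟨h1, h2⟩ | ⟨h1, h2⟩ | ⟨h1, h2⟩ | ⟨h1, h2⟩
  · left; exact Prod.ext (by simp; omega) (by simp; omega)
  · exact (not_ok_of_kd (kd_tile (r := r) (j := j) (d := 3) (i := 4) (by omega)
      (by omega) (by omega) (by omega) (by omega) (by omega)) (by simp [tile]) ho).elim
  · right; left; exact Prod.ext (by simp; omega) (by simp; omega)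
  · right; right
    obtain ⟨h3, -⟩ := row0 (r := r + 1) ho (by omega) (by omega)
    exact ⟨by exact Prod.ext (by simp; omega) (by simp; omega), h3⟩

theorem srv_v (h : LinkRel K m inc Lk) (hK : 1 ≤ K) (hr : r < K) (hj : j < m) {q : ℕ × ℕ}
    (hs : Sv Lk (T r j 1 4) q) : q = T r j 0 4 ∨ q = T r j 1 3 := by
  obtain ⟨a, b, rfl, ho, hc⟩ := sv4 h hK hs
  rcases hc with ⟨h1, h2⟩ | ⟨h1, h2⟩ | ⟨h1, h2⟩ | ⟨h1, h2⟩
  · left; exact Prod.ext (by simp; omega) (by simp; omega)
  · exact (not_ok_of_kd (kd_tile (r := r) (j := j) (d := 2) (i := 4) (by omega)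
      (by omega) (by omega) (by omega) (by omega) (by omega)) (by simp [tile]) ho).elim
  · right; exact Prod.ext (by simp; omega) (by simp; omega)
  · obtain ⟨h3, j', h4, h5⟩ := row0 (r := r + 1) ho (by omega) (by omega)
    omega

theorem srv_t (h : LinkRel K m inc Lk) (hK : 1 ≤ K) (hr : r < K) (hj : j < m) {q : ℕ × ℕ}
    (hs : Sv Lk (T r j 2 2) q) : q = T r j 2 1 ∨ q = T r j 2 3 := by
  obtain ⟨a, b, rfl, ho, hc⟩ := sv4 h hK hs
  rcases hc with ⟨h1, h2⟩ | ⟨h1, h2⟩ | ⟨h1, h2⟩ | ⟨h1, h2⟩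
  · exact (not_ok_of_kd (kd_tile (r := r) (j := j) (d := 1) (i := 2) (by omega)
      (by omega) (by omega) (by omega) (by omega) (by omega)) (by simp [tile]) ho).elim
  · exact (not_ok_of_kd (kd_tile (r := r) (j := j) (d := 3) (i := 2) (by omega)
      (by omega) (by omega) (by omega) (by omega) (by omega)) (by simp [tile]) ho).elim
  · left; exact Prod.ext (by simp; omega) (by simp; omega)
  · right; exact Prod.ext (by simp; omega) (by simp; omega)

theorem srv_z (h : LinkRel K m inc Lk) (hK : 1 ≤ K) (hr : r < K) (hj : j < m) {q : ℕ × ℕ}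
    (hs : Sv Lk (T r j 2 3) q) : q = T r j 1 3 ∨ q = T r j 3 3 := by
  obtain ⟨a, b, rfl, ho, hc⟩ := sv4 h hK hs
  rcases hc with ⟨h1, h2⟩ | ⟨h1, h2⟩ | ⟨h1, h2⟩ | ⟨h1, h2⟩
  · left; exact Prod.ext (by simp; omega) (by simp; omega)
  · right; exact Prod.ext (by simp; omega) (by simp; omega)
  · exact (not_ok_of_kd (kd_tile (r := r) (j := j) (d := 2) (i := 2) (by omega)
      (by omega) (by omega) (by omega) (by omega) (by omega)) (by simp [tile]) ho).elim
  · exact (not_ok_of_kd (kd_tile (r := r) (j := j) (d := 2) (i := 4) (by omega)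
      (by omega) (by omega) (by omega) (by omega) (by omega)) (by simp [tile]) ho).elim

theorem srv_w (h : LinkRel K m inc Lk) (hK : 1 ≤ K) (hr : r < K) (hj : j < m) {q : ℕ × ℕ}
    (hs : Sv Lk (T r j 3 4) q) : q = T r j 4 4 ∨ q = T r j 3 3 := by
  obtain ⟨a, b, rfl, ho, hc⟩ := sv4 h hK hs
  rcases hc with ⟨h1, h2⟩ | ⟨h1, h2⟩ | ⟨h1, h2⟩ | ⟨h1, h2⟩
  · exact (not_ok_of_kd (kd_tile (r := r) (j := j) (d := 2) (i := 4) (by omega)
      (by omega) (by omega) (by omega) (by omega) (by omega)) (by simp [tile]) ho).elim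
  · left; exact Prod.ext (by simp; omega) (by simp; omega)
  · right; exact Prod.ext (by simp; omega) (by simp; omega)
  · obtain ⟨h3, j', h4, h5⟩ := row0 (r := r + 1) ho (by omega) (by omega)
    omega

theorem srv_u (h : LinkRel K m inc Lk) (hK : 1 ≤ K) (hr : r < K) (hj : j + 1 < m) {q : ℕ × ℕ}
    (hs : Sv Lk (T r j 5 4) q) : q = T r j 4 4 ∨ q = T r (j + 1) 0 4 := by
  obtain ⟨a, b, rfl, ho, hc⟩ := sv4 h hK hs
  rcases hc with ⟨h1, h2⟩ | ⟨h1, h2⟩ | ⟨h1, h2⟩ | ⟨h1, h2⟩
  · left; exact Prod.ext (by simp; omega) (by simp; omega)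
  · right; exact Prod.ext (by simp; omega) (by simp; omega)
  · exact (not_ok_of_kd (kd_tile (r := r) (j := j) (d := 5) (i := 3) (by omega)
      (by omega) (by omega) (by omega) (by omega) (by omega)) (by simp [tile]) ho).elim
  · obtain ⟨h3, j', h4, h5⟩ := row0 (r := r + 1) ho (by omega) (by omega)
    omega

theorem srv_u0 (h : LinkRel K m inc Lk) (hK : 1 ≤ K) (hr : r < K) {q : ℕ × ℕ}
    (hs : Sv Lk (E r (r + 3) 4) q) : q = E r (r + 2) 4 ∨ q = T r 0 0 4 := by
  obtain ⟨a, b, rfl, ho, hc⟩ := sv4 h hK hs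
  rcases hc with ⟨h1, h2⟩ | ⟨h1, h2⟩ | ⟨h1, h2⟩ | ⟨h1, h2⟩
  · left; exact Prod.ext (by simp; omega) (by simp; omega)
  · right; exact Prod.ext (by simp; omega) (by simp; omega)
  · exact (not_ok_of_kd (kd_lend (r := r) (i := 3) (by omega) (by omega)
      (by omega) (by omega) (by omega)) (by unfold lend; split_ifs <;> simp_all <;> omega)
      ho).elim
  · obtain ⟨h3, j', h4, h5⟩ := row0 (r := r + 1) ho (by omega) (by omega)
    omega

theorem srv_qu (h : LinkRel K m inc Lk) (hK : 1 ≤ K) (hr : r + 1 < K) {q : ℕ × ℕ}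
    (hs : Sv Lk (E (r + 1) (r + 2) 0) q) : q = E (r + 1) (r + 2) 1 ∨ q = E r (r + 2) 4 := by
  obtain ⟨a, b, rfl, ho, hc⟩ := sv4 h hK hs
  rcases hc with ⟨h1, h2⟩ | ⟨h1, h2⟩ | ⟨h1, h2⟩ | ⟨h1, h2⟩
  · obtain ⟨h3, j', h4, h5⟩ := row0 (r := r + 1) ho (by omega) (by omega)
    omega
  · obtain ⟨h3, j', h4, h5⟩ := row0 (r := r + 1) ho (by omega) (by omega)
    omega
  · right; exact Prod.ext (by simp; omega) (by simp; omega)
  · left; exact Prod.ext (by simp; omega) (by simp; omega)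

theorem srv_s (h : LinkRel K m inc Lk) (hK : 1 ≤ K) (hr : r < K) (ho2 : r % 2 = 1) {q : ℕ × ℕ}
    (hs : Sv Lk (E r (r + 2) 3) q) : q = E r (r + 1) 3 ∨ q = E r (r + 2) 4 := by
  obtain ⟨a, b, rfl, ho, hc⟩ := sv4 h hK hs
  rcases hc with ⟨h1, h2⟩ | ⟨h1, h2⟩ | ⟨h1, h2⟩ | ⟨h1, h2⟩
  · left; exact Prod.ext (by simp; omega) (by simp; omega)
  · exact (not_ok_of_kd (kd_lend (r := r) (i := 3) (by omega) (by omega)
      (by omega) (by omega) (by omega)) (by unfold lend; split_ifs <;> simp_all <;> omega)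
      ho).elim
  · exact (not_ok_of_kd (kd_lend (r := r) (i := 2) (by omega) (by omega)
      (by omega) (by omega) (by omega)) (by unfold lend; split_ifs <;> simp_all <;> omega)
      ho).elim
  · right; exact Prod.ext (by simp; omega) (by simp; omega)

theorem srv_qd (h : LinkRel K m inc Lk) (hK : 1 ≤ K) (hr : r < K) (ho2 : r % 2 = 1) {q : ℕ × ℕ}
    (hs : Sv Lk (E r (r + 1) 2) q) : q = E r (r + 1) 1 ∨ q = E r (r + 1) 3 := by
  obtain ⟨a, b, rfl, ho, hc⟩ := sv4 h hK hs
  rcases hc with ⟨h1, h2⟩ | ⟨h1, h2⟩ | ⟨h1, h2⟩ | ⟨h1, h2⟩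
  · exact (not_ok_of_kd (kd_lend (r := r) (i := 2) (by omega) (by omega)
      (by omega) (by omega) (by omega)) (by unfold lend; split_ifs <;> simp_all <;> omega)
      ho).elim
  · exact (not_ok_of_kd (kd_lend (r := r) (i := 2) (by omega) (by omega)
      (by omega) (by omega) (by omega)) (by unfold lend; split_ifs <;> simp_all <;> omega)
      ho).elim
  · left; exact Prod.ext (by simp; omega) (by simp; omega)
  · right; exact Prod.ext (by simp; omega) (by simp; omega)

end servers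


section steps

variable {r j : ℕ}

/-- a boundary link to the right of column `X` -/
theorem right_boundary {x y x' y' : ℕ}
    (hr : r < K) (hj : j < m)
    (hy : 5 * r ≤ y) (hy2 : y < 5 * r + 5) (hx : r + 4 + 6 * j + 2 < x)
    (hA : ¬ (5 * r ≤ y' ∧ y' < 5 * r + 5 ∧ r + 4 + 6 * j + 2 < x'))
    (hc : (y' = y ∧ x' + 1 = x) ∨ (y' = y ∧ x' = x + 1) ∨ (x' = x ∧ y' + 1 = y) ∨ (x' = x ∧ y' = y + 1))
    (hp : ok K m inc (x, y)) (hq : ok K m inc (x', y')) :
    ((x, y) = T r j 3 1 ∧ (x', y') = T r j 2 1) ∨ ((x, y) = T r j 3 3 ∧ (x', y') = T r j 2 3) := by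
  rcases hc with ⟨h1, h2⟩ | ⟨h1, h2⟩ | ⟨h1, h2⟩ | ⟨h1, h2⟩
  · subst h1
    have hx' : x' = r + 4 + 6 * j + 2 := by omega
    obtain ⟨i, hi, hyi⟩ : ∃ i, i < 5 ∧ y' = 5 * r + i := ⟨y' - 5 * r, by omega, by omega⟩
    interval_cases i
    · exact (not_ok_of_kd (kd_tile (r := r) (j := j) (d := 2) (i := 0) (by omega)
      (by omega) (by omega) (by omega) (by omega) (by omega)) (by simp [tile]) hq).elim
    · left; exact ⟨by exact Prod.ext (by simp; omega) (by simp; omega), by exact Prod.ext (by simp; omega) (by simp; omega)⟩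
    · exact (not_ok_of_kd (kd_tile (r := r) (j := j) (d := 2) (i := 2) (by omega)
      (by omega) (by omega) (by omega) (by omega) (by omega)) (by simp [tile]) hq).elim
    · right; exact ⟨by exact Prod.ext (by simp; omega) (by simp; omega), by exact Prod.ext (by simp; omega) (by simp; omega)⟩
    · exact (not_ok_of_kd (kd_tile (r := r) (j := j) (d := 2) (i := 4) (by omega)
      (by omega) (by omega) (by omega) (by omega) (by omega)) (by simp [tile]) hq).elim
  · omega
  · subst h1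
    have : y = 5 * r := by omega
    obtain ⟨r', rfl⟩ : ∃ r', r = r' + 1 := ⟨r - 1, by omega⟩
    have hy' : y = y' + 1 := by omega
    subst hy'
    have := vert (r := r') hq hp (by omega)
    omega
  · subst h1
    subst h2
    have := vert (r := r) hp hq (by omega)
    omega

/-- step (B) -/
theorem stepB0 (h : LinkRel K m inc Lk) (hK : 1 ≤ K) (hr : r < K) (hj : j < m)
    (hX : ¬ (Lk (T r j 2 1) (T r j 1 1) ∧ Lk (T r j 2 1) (T r j 3 1)))
    (hZ : ¬ (Lk (T r j 2 3) (T r j 1 3) ∧ Lk (T r j 2 3) (T r j 3 3))) : False := by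
  set A : ℕ × ℕ → Prop := fun p => (5 * r ≤ p.2 ∧ p.2 < 5 * r + 5 ∧ r + 4 + 6 * j + 2 < p.1) ∨
    (p = T r j 2 1 ∧ ¬ Lk (T r j 2 1) (T r j 1 1)) ∨
    (p = T r j 2 3 ∧ ¬ Lk (T r j 2 3) (T r j 1 3)) with hAdef
  have hF : kd K m inc (T r j 3 1) = 1 := by
    rw [kdT hr hj (by omega) (by omega)]
    simp [tile]
  obtain ⟨p, q, hp, hq, hl, hpo, hqo⟩ := cut h hK A (by
      rintro (h1 | ⟨h1, -⟩ | ⟨h1, -⟩)
      · simp at h1
      · have := congrArg Prod.fst h1
        simp at this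
      · have := congrArg Prod.fst h1
        simp at this) (p0 := T r j 3 1) (by left; simp) (by
      constructor <;> omega)
  obtain ⟨x, y⟩ := p
  obtain ⟨x', y', rfl, hc⟩ := adj4 (h.adj _ _ hl)
  have hq1 : ¬ (5 * r ≤ y' ∧ y' < 5 * r + 5 ∧ r + 4 + 6 * j + 2 < x') := fun h1 => hq (Or.inl h1)
  rcases hp with hp | ⟨hp, hp2⟩ | ⟨hp, hp2⟩
  · rcases right_boundary hr hj hp.1 hp.2.1 hp.2.2 hq1 hc hpo hqo with ⟨h1, h2⟩ | ⟨h1, h2⟩
    · rw [h1, h2] at hl
      have h3 : Lk (T r j 2 1) (T r j 3 1) := h.symm _ _ hl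
      by_cases h4 : Lk (T r j 2 1) (T r j 1 1)
      · exact hX ⟨h4, h3⟩
      · exact hq (Or.inr (Or.inl ⟨h2, h4⟩))
    · rw [h1, h2] at hl
      have h3 : Lk (T r j 2 3) (T r j 3 3) := h.symm _ _ hl
      by_cases h4 : Lk (T r j 2 3) (T r j 1 3)
      · exact hZ ⟨h4, h3⟩
      · exact hq (Or.inr (Or.inr ⟨h2, h4⟩))
  · obtain ⟨rfl, rfl⟩ := Prod.mk.inj hp
    rcases hc with ⟨h1, h2⟩ | ⟨h1, h2⟩ | ⟨h1, h2⟩ | ⟨h1, h2⟩
    · have h3 : (x', y') = T r j 1 1 := by exact Prod.ext (by simp; omega) (by simp; omega)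
      rw [h3] at hl
      exact hp2 hl
    · omega
    · exact (not_ok_of_kd (kd_tile (r := r) (j := j) (d := 2) (i := 0) (by omega)
      (by omega) (by omega) (by omega) (by omega) (by omega)) (by simp [tile]) hqo).elim
    · exact (not_ok_of_kd (kd_tile (r := r) (j := j) (d := 2) (i := 2) (by omega)
      (by omega) (by omega) (by omega) (by omega) (by omega)) (by simp [tile]) hqo).elim
  · obtain ⟨rfl, rfl⟩ := Prod.mk.inj hp
    rcases hc with ⟨h1, h2⟩ | ⟨h1, h2⟩ | ⟨h1, h2⟩ | ⟨h1, h2⟩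
    · have h3 : (x', y') = T r j 1 3 := by exact Prod.ext (by simp; omega) (by simp; omega)
      rw [h3] at hl
      exact hp2 hl
    · omega
    · exact (not_ok_of_kd (kd_tile (r := r) (j := j) (d := 2) (i := 2) (by omega)
      (by omega) (by omega) (by omega) (by omega) (by omega)) (by simp [tile]) hqo).elim
    · exact (not_ok_of_kd (kd_tile (r := r) (j := j) (d := 2) (i := 4) (by omega)
      (by omega) (by omega) (by omega) (by omega) (by omega)) (by simp [tile]) hqo).elim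


theorem T_ne_root {r j d i : ℕ} : T r j d i ≠ (0, 1) := by
  intro h1
  have := congrArg Prod.fst h1
  simp at this

theorem kT (hr : r < K) (hj : j < m) (d i k : ℕ) (hd : d < 6) (hi : i < 5)
    (hk : tile m r j d i (inc r j) = k) : kd K m inc (T r j d i) = k := by
  rw [kdT hr hj hd hi, hk]

theorem srvT (h : LinkRel K m inc Lk) (hr : r < K) (hj : j < m) (d i k : ℕ) (hd : d < 6)
    (hi : i < 5) (hk : tile m r j d i (inc r j) = k) (hk0 : 0 < k) : ∃ q, Sv Lk (T r j d i) q :=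
  exists_sv h (by rw [kT hr hj d i k hd hi hk]; omega) T_ne_root

theorem stepB (h : LinkRel K m inc Lk) (hK : 1 ≤ K) (hr : r < K) (hj : j < m)
    (h1 : Sv Lk (T r j 2 0) (T r j 2 1)) (h2 : Sv Lk (T r j 2 4) (T r j 2 3)) : False := by
  have hzk : kd K m inc (T r j 2 3) = 4 := kT hr hj 2 3 4 (by omega) (by omega) (by simp [tile])
  have hXk : kd K m inc (T r j 2 1) = 2 := kT hr hj 2 1 2 (by omega) (by omega) (by simp [tile])
  have hzt : ¬ Lk (T r j 2 3) (T r j 2 2) := by
    intro hzt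
    obtain ⟨q0, hq0⟩ := srvT h hr hj 2 3 4 (by omega) (by omega) (by simp [tile]) (by omega)
    have hc : Lk (T r j 2 3) (T r j 2 4) := h.symm _ _ h2.1
    rcases srv_z h hK hr hj hq0 with rfl | rfl
    · rcases h.pair _ _ _ _ (by omega) (by omega) hzt hc hq0.1 with h3 | h3 | h3
      · have := congrArg Prod.snd h3
        simp at this
      · have := congrArg Prod.fst h3
        simp at this
      · have := congrArg Prod.fst h3
        simp at this
    · rcases h.pair _ _ _ _ (by omega) (by omega) hzt hc hq0.1 with h3 | h3 | h3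
      · have := congrArg Prod.snd h3
        simp at this
      · have := congrArg Prod.fst h3
        simp at this
      · have := congrArg Prod.fst h3
        simp at this
  have hXt : Lk (T r j 2 1) (T r j 2 2) := by
    obtain ⟨q0, hq0⟩ := srvT h hr hj 2 2 6 (by omega) (by omega) (by simp [tile]) (by omega)
    rcases srv_t h hK hr hj hq0 with rfl | rfl
    · exact h.symm _ _ hq0.1
    · exact absurd (h.symm _ _ hq0.1) hzt
  refine stepB0 h hK hr hj ?_ ?_
  · rintro ⟨h3, h4⟩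
    exact h.tri (r + 4 + 6 * j + 1) (5 * r) hXk h3 h4 (h.symm _ _ h1.1) hXt
  · rintro ⟨h3, h4⟩
    have hc : Lk (T r j 2 3) (T r j 2 4) := h.symm _ _ h2.1
    rcases h.pair _ _ _ _ (by omega) (by omega) h3 h4 hc with h5 | h5 | h5
    · have := congrArg Prod.fst h5
      simp at this
    · have := congrArg Prod.fst h5
      simp at this
    · have := congrArg Prod.fst h5
      simp at this

theorem stepC (h : LinkRel K m inc Lk) (hK : 1 ≤ K) (hj : j < m) :
    ∃ r, r < K ∧ inc r j = true ∧ Sv Lk (T r j 2 4) (T r j 1 4) := by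
  by_contra hc
  push Not at hc
  have key : ∀ r, r < K → Sv Lk (T r j 2 0) (T r j 2 1) ∧
      (∃ q, Sv Lk (T r j 2 4) q ∧ q = T (r + 1) j 1 0 ∧ r + 1 < K) := by
    have hc2 : ∀ r, r < K → Sv Lk (T r j 2 0) (T r j 2 1) →
        ∃ q, Sv Lk (T r j 2 4) q ∧ q = T (r + 1) j 1 0 ∧ r + 1 < K := by
      intro r hr h1
      obtain ⟨q0, hq0⟩ := srvT h hr hj 2 4 6 (by omega) (by omega) (by simp [tile]) (by omega)
      rcases srv_c h hK hr hj hq0 with rfl | rfl | ⟨h2, h3⟩
      · by_cases hi : inc r j = true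
        · exact absurd hq0 (hc r hr hi)
        · have h4 := sv_ok h hK hq0
          exact (not_ok_of_kd (kT hr hj 1 4 9 (by omega) (by omega) (by simp [tile, hi])) (by simp)
            h4).elim
      · exact (stepB h hK hr hj h1 hq0).elim
      · exact ⟨q0, hq0, h2, h3⟩
    intro r
    induction r with
    | zero =>
      intro hr
      obtain ⟨q0, hq0⟩ := srvT h hr hj 2 0 7 (by omega) (by omega) (by simp [tile]) (by omega)
      have h1 := srv_e0 h hK hj hq0
      subst h1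
      exact ⟨hq0, hc2 0 hr hq0⟩
    | succ r ih =>
      intro hr
      obtain ⟨h1, q, h2, h3, h4⟩ := ih (by omega)
      subst h3
      have h5 : Sv Lk (T (r + 1) j 2 0) (T (r + 1) j 2 1) := by
        obtain ⟨q0, hq0⟩ := srvT h hr hj 2 0 7 (by omega) (by omega) (by simp [tile]) (by omega)
        rcases srv_e h hK hr hj hq0 with rfl | rfl
        · exact hq0
        · have hk : kd K m inc (T (r + 1) j 1 0) = 4 :=
            kT hr hj 1 0 4 (by omega) (by omega) (by simp [tile])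
          have h6 := pair_serves h hK (by omega) (by omega) hq0 h2
          have := congrArg Prod.snd h6
          simp at this
          omega
      exact ⟨h5, hc2 (r + 1) hr h5⟩
  obtain ⟨-, q, -, -, h1⟩ := key (K - 1) (by omega)
  omega

theorem stepD (h : LinkRel K m inc Lk) (hK : 1 ≤ K) (hr : r < K) (hj : j < m)
    (hi : inc r j = true) (h1 : Sv Lk (T r j 2 4) (T r j 1 4)) :
    Sv Lk (T r j 1 4) (T r j 0 4) := by
  have hk : kd K m inc (T r j 1 4) = 5 := kT hr hj 1 4 5 (by omega) (by omega) (by simp [tile, hi])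
  obtain ⟨q0, hq0⟩ := srvT h hr hj 1 4 5 (by omega) (by omega) (by simp [tile, hi]) (by omega)
  rcases srv_v h hK hr hj hq0 with rfl | rfl
  · exact hq0
  · exact (h.reader (r + 4 + 6 * j + 1) (5 * r + 3) hk hq0.1 (h.symm _ _ h1.1)).elim

theorem stepE (h : LinkRel K m inc Lk) (hK : 1 ≤ K) (hr : r < K) (hj : j + 1 < m)
    (h1 : Sv Lk (T r (j + 1) 1 4) (T r (j + 1) 0 4)) :
    Sv Lk (T r j 1 4) (T r j 0 4) := by
  have hj' : j < m := by omega
  have hu : Sv Lk (T r j 5 4) (T r j 4 4) := by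
    obtain ⟨q0, hq0⟩ := srvT h hr hj' 5 4 8 (by omega) (by omega) (by simp [tile]; omega) (by omega)
    rcases srv_u h hK hr hj hq0 with rfl | rfl
    · exact hq0
    · have hk : kd K m inc (T r (j + 1) 0 4) = 4 :=
        kT hr hj 0 4 4 (by omega) (by omega) (by simp [tile])
      have h6 := pair_serves h hK (by omega) (by omega) hq0 h1
      have := congrArg Prod.fst h6
      simp at this
      omega
  have hw : Sv Lk (T r j 3 4) (T r j 3 3) := by
    obtain ⟨q0, hq0⟩ := srvT h hr hj' 3 4 10 (by omega) (by omega) (by simp [tile]) (by omega)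
    rcases srv_w h hK hr hj' hq0 with rfl | rfl
    · have hk : kd K m inc (T r j 4 4) = 4 :=
        kT hr hj' 4 4 4 (by omega) (by omega) (by simp [tile])
      have h6 := pair_serves h hK (by omega) (by omega) hq0 hu
      have := congrArg Prod.fst h6
      simp at this
    · exact hq0
  have hz : Sv Lk (T r j 2 3) (T r j 1 3) := by
    obtain ⟨q0, hq0⟩ := srvT h hr hj' 2 3 4 (by omega) (by omega) (by simp [tile]) (by omega)
    rcases srv_z h hK hr hj' hq0 with rfl | rfl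
    · exact hq0
    · have hk : kd K m inc (T r j 3 3) = 3 :=
        kT hr hj' 3 3 3 (by omega) (by omega) (by simp [tile])
      have h6 := pair_serves h hK (by omega) (by omega) hq0 hw
      have := congrArg Prod.fst h6
      simp at this
  obtain ⟨q0, hq0⟩ := srvT h hr hj' 1 4 (if inc r j then 5 else 9) (by omega) (by omega)
    (by simp [tile]) (by split_ifs <;> omega)
  rcases srv_v h hK hr hj' hq0 with rfl | rfl
  · exact hq0
  · have hk : kd K m inc (T r j 1 3) = 3 :=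
      kT hr hj' 1 3 3 (by omega) (by omega) (by simp [tile])
    have h6 := pair_serves h hK (by omega) (by omega) hq0 hz
    have := congrArg Prod.fst h6
    simp at this

theorem stepE0 (h : LinkRel K m inc Lk) (hK : 1 ≤ K) (hr : r < K) (hm : 0 < m)
    (h1 : Sv Lk (T r 0 1 4) (T r 0 0 4)) : Sv Lk (E r (r + 3) 4) (E r (r + 2) 4) := by
  have hk8 : kd K m inc (E r (r + 3) 4) = 8 := by
    rw [kdE (by omega) (by omega) hr (by omega)]
    unfold lend
    split_ifs <;> simp_all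
  obtain ⟨q0, hq0⟩ := exists_sv h (p := E r (r + 3) 4) (by omega)
    (root_kd6 (m := m) (inc := inc) hK (by omega))
  rcases srv_u0 h hK hr hq0 with rfl | rfl
  · exact hq0
  · have hk : kd K m inc (T r 0 0 4) = 4 :=
      kT hr hm 0 4 4 (by omega) (by omega) (by simp [tile])
    have h6 := pair_serves h hK (by omega) (by omega) hq0 h1
    have := congrArg Prod.fst h6
    simp at this

theorem stepEven (h : LinkRel K m inc Lk) (hK : 1 ≤ K) (hr : r + 1 < K) (h2 : r % 2 = 0)
    (h1 : Sv Lk (E r (r + 3) 4) (E r (r + 2) 4)) :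
    Lk (E (r + 1) (r + 2) 0) (E (r + 1) (r + 2) 1) := by
  have hk6 : kd K m inc (E (r + 1) (r + 2) 0) = 6 := by
    rw [kdE (by omega) (by omega) hr (by omega)]
    unfold lend
    split_ifs <;> simp_all <;> omega
  have hk4 : kd K m inc (E r (r + 2) 4) = 4 := by
    rw [kdE (by omega) (by omega) (by omega) (by omega)]
    unfold lend
    split_ifs <;> simp_all <;> omega
  obtain ⟨q0, hq0⟩ := exists_sv h (p := E (r + 1) (r + 2) 0) (by omega)
    (root_kd6 (m := m) (inc := inc) hK (by omega))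
  rcases srv_qu h hK hr hq0 with rfl | rfl
  · exact hq0.1
  · have h6 := pair_serves h hK (by omega) (by omega) hq0 h1
    have := congrArg Prod.fst h6
    simp at this

theorem stepOdd (h : LinkRel K m inc Lk) (hK : 1 ≤ K) (hr : r < K) (h2 : r % 2 = 1)
    (h1 : Sv Lk (E r (r + 3) 4) (E r (r + 2) 4)) :
    Lk (E r (r + 1) 2) (E r (r + 1) 1) := by
  have hkb : kd K m inc (E r (r + 2) 4) = 3 := by
    rw [kdE (by omega) (by omega) hr (by omega)]
    unfold lend
    split_ifs <;> simp_all <;> omega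
  have hks : kd K m inc (E r (r + 2) 3) = 11 := by
    rw [kdE (by omega) (by omega) hr (by omega)]
    unfold lend
    split_ifs <;> simp_all <;> omega
  have hka : kd K m inc (E r (r + 1) 3) = 4 := by
    rw [kdE (by omega) (by omega) hr (by omega)]
    unfold lend
    split_ifs <;> simp_all <;> omega
  have hkq : kd K m inc (E r (r + 1) 2) = 6 := by
    rw [kdE (by omega) (by omega) hr (by omega)]
    unfold lend
    split_ifs <;> simp_all <;> omega
  have hs : Sv Lk (E r (r + 2) 3) (E r (r + 1) 3) := by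
    obtain ⟨q0, hq0⟩ := exists_sv h (p := E r (r + 2) 3) (by omega)
      (root_kd6 (m := m) (inc := inc) hK (by omega))
    rcases srv_s h hK hr h2 hq0 with rfl | rfl
    · exact hq0
    · have h6 := pair_serves h hK (by omega) (by omega) hq0 h1
      have := congrArg Prod.fst h6
      simp at this
  obtain ⟨q0, hq0⟩ := exists_sv h (p := E r (r + 1) 2) (by omega)
    (root_kd6 (m := m) (inc := inc) hK (by omega))
  rcases srv_qd h hK hr h2 hq0 with rfl | rfl
  · exact hq0.1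
  · have h6 := pair_serves h hK (by omega) (by omega) hq0 hs
    have := congrArg Prod.fst h6
    simp at this

theorem left_boundary {x y x' y' : ℕ} (hr : r < K) (h2 : r % 2 = 1)
    (hy : 5 * r ≤ y) (hy2 : y < 5 * r + 5) (hx : r + 4 ≤ x ∨ (r + 2 ≤ x ∧ y = 5 * r + 1))
    (hA : ¬ (5 * r ≤ y' ∧ y' < 5 * r + 5 ∧ (r + 4 ≤ x' ∨ (r + 2 ≤ x' ∧ y' = 5 * r + 1))))
    (hc : (y' = y ∧ x' + 1 = x) ∨ (y' = y ∧ x' = x + 1) ∨ (x' = x ∧ y' + 1 = y) ∨ (x' = x ∧ y' = y + 1))
    (hp : ok K m inc (x, y)) (hq : ok K m inc (x', y')) :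
    (x, y) = E r (r + 2) 1 ∧ (x', y') = E r (r + 1) 1 := by
  rcases hc with ⟨h1, h3⟩ | ⟨h1, h3⟩ | ⟨h1, h3⟩ | ⟨h1, h3⟩
  · by_cases hx4 : r + 4 ≤ x
    · have hx' : x' = r + 3 := by omega
      obtain ⟨i, hi, hyi⟩ : ∃ i, i < 5 ∧ y' = 5 * r + i := ⟨y' - 5 * r, by omega, by omega⟩
      interval_cases i
      · exact (not_ok_of_kd (kd_lend (r := r) (i := 0) (by omega) (by omega)
      (by omega) (by omega) (by omega)) (by unfold lend; split_ifs <;> simp_all <;> omega)
      hq).elim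
      · omega
      · exact (not_ok_of_kd (kd_lend (r := r) (i := 2) (by omega) (by omega)
      (by omega) (by omega) (by omega)) (by unfold lend; split_ifs <;> simp_all <;> omega)
      hq).elim
      · exact (not_ok_of_kd (kd_lend (r := r) (i := 3) (by omega) (by omega)
      (by omega) (by omega) (by omega)) (by unfold lend; split_ifs <;> simp_all <;> omega)
      hq).elim
      · exact (not_ok_of_kd (kd_lend (r := r) (i := 4) (by omega) (by omega)
      (by omega) (by omega) (by omega)) (by unfold lend; split_ifs <;> simp_all <;> omega)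
      hq).elim
    · exact ⟨by exact Prod.ext (by simp; omega) (by simp; omega), by exact Prod.ext (by simp; omega) (by simp; omega)⟩
  · omega
  · by_cases hx4 : r + 4 ≤ x
    · have : y = 5 * r := by omega
      obtain ⟨r', rfl⟩ : ∃ r', r = r' + 1 := ⟨r - 1, by omega⟩
      subst h1
      subst h3
      have := vert (r := r') hq hp (by omega)
      omega
    · obtain ⟨-, j', h4, h5⟩ := row0 (r := r) hq (by omega) (by omega)
      omega
  · by_cases hx4 : r + 4 ≤ x
    · subst h1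
      subst h3
      have := vert (r := r) hp hq (by omega)
      omega
    · exact (not_ok_of_kd (kd_lend (r := r) (i := 2) (by omega) (by omega)
      (by omega) (by omega) (by omega)) (by unfold lend; split_ifs <;> simp_all <;> omega)
      hq).elim

theorem stepF (h : LinkRel K m inc Lk) (hK : 1 ≤ K) (hr : r < K) (h2 : r % 2 = 1)
    (hu : Lk (E r (r + 1) 0) (E r (r + 1) 1)) (hd : Lk (E r (r + 1) 2) (E r (r + 1) 1)) :
    False := by
  have hXk : kd K m inc (E r (r + 1) 1) = 2 := by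
    rw [kdE (by omega) (by omega) hr (by omega)]
    unfold lend
    split_ifs <;> simp_all <;> omega
  have hX : ¬ (Lk (E r (r + 1) 1) (E r r 1) ∧ Lk (E r (r + 1) 1) (E r (r + 2) 1)) := by
    rintro ⟨h3, h4⟩
    exact h.tri r (5 * r) hXk h3 h4 (h.symm _ _ hu) (h.symm _ _ hd)
  set A : ℕ × ℕ → Prop := fun p => (5 * r ≤ p.2 ∧ p.2 < 5 * r + 5 ∧
    (r + 4 ≤ p.1 ∨ (r + 2 ≤ p.1 ∧ p.2 = 5 * r + 1))) ∨
    (p = E r (r + 1) 1 ∧ ¬ Lk (E r (r + 1) 1) (E r r 1)) with hAdef
  have hF : kd K m inc (E r (r + 2) 1) = 1 := by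
    rw [kdE (by omega) (by omega) hr (by omega)]
    unfold lend
    split_ifs <;> simp_all
  obtain ⟨p, q, hp, hq, hl, hpo, hqo⟩ := cut h hK A (by
      rintro (h1 | ⟨h1, -⟩)
      · simp at h1
      · have := congrArg Prod.fst h1
        simp at this) (p0 := E r (r + 2) 1) (by left; simp) (by
      constructor <;> omega)
  obtain ⟨x, y⟩ := p
  obtain ⟨x', y', rfl, hc⟩ := adj4 (h.adj _ _ hl)
  have hq1 := fun h1 => hq (Or.inl h1)
  rcases hp with hp | ⟨hp, hp2⟩
  · obtain ⟨h1, h3⟩ := left_boundary hr h2 hp.1 hp.2.1 hp.2.2 hq1 hc hpo hqo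
    rw [h1, h3] at hl
    have h4 : Lk (E r (r + 1) 1) (E r (r + 2) 1) := h.symm _ _ hl
    by_cases h5 : Lk (E r (r + 1) 1) (E r r 1)
    · exact hX ⟨h5, h4⟩
    · exact hq (Or.inr ⟨h3, h5⟩)
  · obtain ⟨rfl, rfl⟩ := Prod.mk.inj hp
    rcases hc with ⟨h1, h3⟩ | ⟨h1, h3⟩ | ⟨h1, h3⟩ | ⟨h1, h3⟩
    · have h3 : (x', y') = E r r 1 := by exact Prod.ext (by simp; omega) (by simp; omega)
      rw [h3] at hl
      exact hp2 hl
    · exact hq1 ⟨by simp; omega, by simp; omega, Or.inr ⟨by simp; omega, by simp; omega⟩⟩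
    · exact (not_ok_of_kd (kd_lend (r := r) (i := 0) (by omega) (by omega)
      (by omega) (by omega) (by omega)) (by unfold lend; split_ifs <;> simp_all <;> omega)
      hqo).elim
    · exact (not_ok_of_kd (kd_lend (r := r) (i := 2) (by omega) (by omega)
      (by omega) (by omega) (by omega)) (by unfold lend; split_ifs <;> simp_all <;> omega)
      hqo).elim

end steps

end Logic

open Logic in
theorem sat_of_linkRel (K m : ℕ) (inc : ℕ → ℕ → Bool) (hK : 2 ≤ K) (hK2 : K % 2 = 0) (hm : 1 ≤ m)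
    {Lk : ℕ × ℕ → ℕ × ℕ → Prop} (h : LinkRel K m inc Lk) : ∃ σ, Sats K m inc σ := by
  classical
  have hK1 : 1 ≤ K := by omega
  refine ⟨fun i => decide (Lk (E (2 * i + 1) (2 * i + 2) 0) (E (2 * i + 1) (2 * i + 2) 1)), ?_⟩
  intro j hj
  obtain ⟨r, hr, hi, h1⟩ := stepC h hK1 hj
  refine ⟨r, hr, hi, ?_⟩
  have h2 := stepD h hK1 hr hj hi h1
  have h3 : ∀ k, k ≤ j → Sv Lk (T r (j - k) 1 4) (T r (j - k) 0 4) := by
    intro k
    induction k with
    | zero => intro _; simpa using h2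
    | succ k ih =>
      intro hk
      have h4 := ih (by omega)
      have h5 : j - k = (j - (k + 1)) + 1 := by omega
      rw [h5] at h4
      exact stepE h hK1 hr (by omega) h4
  have h4 := h3 j le_rfl
  rw [Nat.sub_self] at h4
  have h5 := stepE0 h hK1 hr (by omega) h4
  rcases Nat.mod_two_eq_zero_or_one r with hr2 | hr2
  · have h6 := stepEven h hK1 (by omega) hr2 h5
    obtain ⟨i, rfl⟩ : ∃ i, r = 2 * i := ⟨r / 2, by omega⟩
    have h7 : 2 * i / 2 = i := by omega
    rw [h7]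
    simp only [hr2, decide_true]
    rw [decide_eq_true_eq]
    exact h6
  · have h6 := stepOdd h hK1 hr hr2 h5
    obtain ⟨i, rfl⟩ : ∃ i, r = 2 * i + 1 := ⟨r / 2, by omega⟩
    have h7 : (2 * i + 1) / 2 = i := by omega
    rw [h7]
    have h8 : decide ((2 * i + 1) % 2 = 0) = false := by
      rw [decide_eq_false_iff_not]
      omega
    rw [h8, decide_eq_false_iff_not]
    intro h9
    exact stepF h hK1 hr hr2 h9 h6

end Pool.Agent.H883R2.OL
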