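import Pool.Agent.H883R2.OL.Geom

set_option autoImplicit false

/-!
Light triangulated polygons on a layout: the macro structure.
-/

namespace Pool.Agent.H883R2.OL

/-- the points of a cell -/
def cpts (N : ℕ) (k : ℕ × ℕ → ℕ) (p : ℕ × ℕ) : Finset Pt := ((offs (k p)).map (pnt N p)).toFinset

theorem pts_eq (N : ℕ) (k : ℕ × ℕ → ℕ) (V : Finset (ℕ × ℕ)) : pts N k V = V.biUnion (cpts N k) := rfl

theorem offs_bound {k : ℕ} {o : ℕ × ℕ} (h : o ∈ offs k) : o.1 ≤ 2 ∧ o.2 ≤ 2 := by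
  unfold offs at h
  split_ifs at h <;> simp only [List.mem_cons, List.not_mem_nil, or_false] at h <;>
    (try rcases h with rfl | rfl | rfl | rfl) <;> simp_all

theorem mac_pnt {N : ℕ} (hN : 3 ≤ N) (p o : ℕ × ℕ) (h1 : o.1 ≤ 2) (h2 : o.2 ≤ 2) :
    mac N (pnt N p o) = p := by
  unfold mac pnt
  simp only [Int.toNat_natCast]
  rw [Nat.mul_add_div (by omega), Nat.mul_add_div (by omega), Nat.div_eq_of_lt (by omega),
    Nat.div_eq_of_lt (by omega)]
  simp

theorem pnt_injective (N : ℕ) (p : ℕ × ℕ) : Function.Injective (pnt N p) := by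
  intro o o' h
  unfold pnt at h
  simp only [Prod.mk.injEq, Nat.cast_inj] at h
  exact Prod.ext (by omega) (by omega)

theorem mem_cpts {N : ℕ} {k : ℕ × ℕ → ℕ} {p : ℕ × ℕ} {P : Pt} :
    P ∈ cpts N k p ↔ ∃ o ∈ offs (k p), pnt N p o = P := by
  simp [cpts]

theorem mac_of_mem {N : ℕ} (hN : 3 ≤ N) {k : ℕ × ℕ → ℕ} {p : ℕ × ℕ} {P : Pt}
    (h : P ∈ cpts N k p) : mac N P = p := by
  obtain ⟨o, ho, rfl⟩ := mem_cpts.1 h
  exact mac_pnt hN p o (offs_bound ho).1 (offs_bound ho).2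

theorem mem_pts {N : ℕ} {k : ℕ × ℕ → ℕ} {V : Finset (ℕ × ℕ)} {P : Pt} :
    P ∈ pts N k V ↔ ∃ p ∈ V, P ∈ cpts N k p := by
  rw [pts_eq, Finset.mem_biUnion]

theorem mem_pts' {N : ℕ} (hN : 3 ≤ N) {k : ℕ × ℕ → ℕ} {V : Finset (ℕ × ℕ)} {P : Pt}
    (h : P ∈ pts N k V) : mac N P ∈ V ∧ P ∈ cpts N k (mac N P) := by
  obtain ⟨p, hp, h1⟩ := mem_pts.1 h
  rw [mac_of_mem hN h1]
  exact ⟨hp, h1⟩

theorem offs_nodup (k : ℕ) : (offs k).Nodup := by
  unfold offs
  split_ifs <;> decide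

theorem card_cpts (N : ℕ) (k : ℕ × ℕ → ℕ) (p : ℕ × ℕ) : (cpts N k p).card = (offs (k p)).length := by
  unfold cpts
  rw [List.toFinset_card_of_nodup ((offs_nodup _).map (pnt_injective N p)), List.length_map]

theorem offs_count {k : ℕ} (h0 : k ≠ 0) (h : k ≤ 11) :
    2 * (offs k).length = sh k + (if 6 ≤ k then 2 else 3) := by
  have h1 : 1 ≤ k := by omega
  interval_cases k <;> decide

theorem sh_le (k : ℕ) : sh k ≤ 5 := by unfold sh; split_ifs <;> omega

theorem card_pts {N : ℕ} (hN : 3 ≤ N) (k : ℕ × ℕ → ℕ) (V : Finset (ℕ × ℕ))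
    (h0 : ∀ p ∈ V, k p ≠ 0) (h : ∀ p ∈ V, k p ≤ 11) :
    2 * (pts N k V).card = shs k V + lng k V := by
  rw [pts_eq, Finset.card_biUnion]
  · unfold shs lng
    rw [Finset.mul_sum, ← Finset.sum_add_distrib]
    apply Finset.sum_congr rfl
    intro p hp
    rw [card_cpts, offs_count (h0 p hp) (h p hp)]
  · intro p _ q _ hpq
    rw [Function.onFun, Finset.disjoint_left]
    intro P h1 h2
    apply hpq
    rw [← mac_of_mem hN h1, ← mac_of_mem hN h2]

theorem len_self (p : Pt) : len p p = 0 := by simp [len]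

theorem len_comm (p q : Pt) : len p q = len q p := by
  unfold len
  congr 1
  ring

theorem len_nonneg (p q : Pt) : 0 ≤ len p q := Real.sqrt_nonneg _

theorem elen_pair {p q : Pt} (h : p ≠ q) : elen {p, q} = len p q := by
  unfold elen
  rw [Finset.sum_pair h, Finset.sum_pair h, Finset.sum_pair h, len_self, len_self, len_comm q p]
  ring

theorem elen_nonneg (e : Finset Pt) : 0 ≤ elen e := by
  unfold elen
  apply div_nonneg _ (by norm_num)
  exact Finset.sum_nonneg fun p _ => Finset.sum_nonneg fun q _ => len_nonneg p q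

theorem le_len {P Q : Pt} {M : ℝ} (h0 : 0 ≤ M)
    (h : M ^ 2 ≤ ((P.1 : ℝ) - Q.1) ^ 2 + ((P.2 : ℝ) - Q.2) ^ 2) : M ≤ len P Q := by
  unfold len
  rw [Real.le_sqrt h0]
  · exact h
  · positivity

/-- coordinate differences in different columns -/
theorem diff_sq {N a b o o' : ℕ} (hN : 3 ≤ N) (hab : a ≠ b) (ho : o ≤ 2) (ho' : o' ≤ 2) :
    ((N : ℝ) - 2) ^ 2 ≤ ((((N * a + o : ℕ) : ℤ) : ℝ) - (((N * b + o' : ℕ) : ℤ) : ℝ)) ^ 2 := by
  have h3 : (3 : ℝ) ≤ N := by exact_mod_cast hN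
  have e1 : (o : ℝ) ≤ 2 := by exact_mod_cast ho
  have e2 : (o' : ℝ) ≤ 2 := by exact_mod_cast ho'
  have e3 : (0 : ℝ) ≤ o := by positivity
  have e4 : (0 : ℝ) ≤ o' := by positivity
  push_cast
  rcases lt_or_gt_of_ne hab with h | h
  · have h1 : N * (a + 1) ≤ N * b := Nat.mul_le_mul_left _ h
    have h2 : (N : ℝ) * (a + 1) ≤ N * b := by exact_mod_cast h1
    nlinarith
  · have h1 : N * (b + 1) ≤ N * a := Nat.mul_le_mul_left _ h
    have h2 : (N : ℝ) * (b + 1) ≤ N * a := by exact_mod_cast h1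
    nlinarith

theorem diff_sq2 {N a b o o' : ℕ} (hN : 3 ≤ N) (hab : a + 2 ≤ b ∨ b + 2 ≤ a) (ho : o ≤ 2)
    (ho' : o' ≤ 2) :
    4 * ((N : ℝ) - 2) ^ 2 ≤ ((((N * a + o : ℕ) : ℤ) : ℝ) - (((N * b + o' : ℕ) : ℤ) : ℝ)) ^ 2 := by
  have h3 : (3 : ℝ) ≤ N := by exact_mod_cast hN
  have e1 : (o : ℝ) ≤ 2 := by exact_mod_cast ho
  have e2 : (o' : ℝ) ≤ 2 := by exact_mod_cast ho'
  have e3 : (0 : ℝ) ≤ o := by positivity
  have e4 : (0 : ℝ) ≤ o' := by positivity
  push_cast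
  rcases hab with h | h
  · have h1 : N * (a + 2) ≤ N * b := Nat.mul_le_mul_left _ h
    have h2 : (N : ℝ) * (a + 2) ≤ N * b := by exact_mod_cast h1
    nlinarith
  · have h1 : N * (b + 2) ≤ N * a := Nat.mul_le_mul_left _ h
    have h2 : (N : ℝ) * (b + 2) ≤ N * a := by exact_mod_cast h1
    nlinarith

theorem len_far {N : ℕ} (hN : 3 ≤ N) {k : ℕ × ℕ → ℕ} {p q : ℕ × ℕ} (hpq : p ≠ q) {P Q : Pt}
    (hP : P ∈ cpts N k p) (hQ : Q ∈ cpts N k q) : (N : ℝ) - 2 ≤ len P Q := by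
  have h3 : (3 : ℝ) ≤ N := by exact_mod_cast hN
  obtain ⟨o, ho, rfl⟩ := mem_cpts.1 hP
  obtain ⟨o', ho', rfl⟩ := mem_cpts.1 hQ
  apply le_len (by linarith)
  have b1 := offs_bound ho
  have b2 := offs_bound ho'
  by_cases h : p.1 = q.1
  · have h' : p.2 ≠ q.2 := fun h' => hpq (Prod.ext h h')
    have := diff_sq hN h' b1.2 b2.2
    simp only [pnt]
    nlinarith [sq_nonneg ((((N * p.1 + o.1 : ℕ) : ℤ) : ℝ) - (((N * q.1 + o'.1 : ℕ) : ℤ) : ℝ))]
  · have := diff_sq hN h b1.1 b2.1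
    simp only [pnt]
    nlinarith [sq_nonneg ((((N * p.2 + o.2 : ℕ) : ℤ) : ℝ) - (((N * q.2 + o'.2 : ℕ) : ℤ) : ℝ))]

theorem len_nonadj {N : ℕ} (hN : 3 ≤ N) {k : ℕ × ℕ → ℕ} {p q : ℕ × ℕ} (hpq : p ≠ q)
    (hadj : ¬ Adj p q) {P Q : Pt}
    (hP : P ∈ cpts N k p) (hQ : Q ∈ cpts N k q) : 7 / 5 * ((N : ℝ) - 2) ≤ len P Q := by
  have h3 : (3 : ℝ) ≤ N := by exact_mod_cast hN
  obtain ⟨o, ho, rfl⟩ := mem_cpts.1 hP
  obtain ⟨o', ho', rfl⟩ := mem_cpts.1 hQ
  apply le_len (by linarith)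
  have b1 := offs_bound ho
  have b2 := offs_bound ho'
  have s1 := sq_nonneg ((((N * p.1 + o.1 : ℕ) : ℤ) : ℝ) - (((N * q.1 + o'.1 : ℕ) : ℤ) : ℝ))
  have s2 := sq_nonneg ((((N * p.2 + o.2 : ℕ) : ℤ) : ℝ) - (((N * q.2 + o'.2 : ℕ) : ℤ) : ℝ))
  have s3 := sq_nonneg ((N : ℝ) - 2)
  simp only [pnt]
  unfold Adj at hadj
  by_cases h : p.1 = q.1
  · have h' : p.2 + 2 ≤ q.2 ∨ q.2 + 2 ≤ p.2 := by
      have : p.2 ≠ q.2 := fun h' => hpq (Prod.ext h h')
      omega
    have := diff_sq2 hN h' b1.2 b2.2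
    linarith
  · by_cases h2 : p.2 = q.2
    · have h' : p.1 + 2 ≤ q.1 ∨ q.1 + 2 ≤ p.1 := by omega
      have := diff_sq2 hN h' b1.1 b2.1
      linarith
    · have e1 := diff_sq hN h b1.1 b2.1
      have e2 := diff_sq hN h2 b1.2 b2.2
      linarith

/-- A triangulated polygon is a stacked family. -/
theorem TriPoly.stk {S : Finset Pt} {T : Finset (Finset Pt)} (h : TriPoly S T) (hS : S.Nonempty) :
    Stk T ∧ verts T = S := by
  have hv : verts T = S := by
    ext P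
    rw [mem_verts]
    constructor
    · rintro ⟨t, ht, hP⟩
      exact h.sub t ht hP
    · exact h.cover P
  refine ⟨stk_of ?_ h.card3 h.conn ?_, hv⟩
  · obtain ⟨P, hP⟩ := hS
    obtain ⟨t, ht, _⟩ := h.cover P hP
    exact ⟨t, ht⟩
  · rw [hv, h.card]

section Light

variable {N : ℕ} {k : ℕ × ℕ → ℕ} {V : Finset (ℕ × ℕ)} {T : Finset (Finset Pt)}

theorem edge_pair {e : Finset Pt} (he : e ∈ edges T) : ∃ P Q, P ≠ Q ∧ e = {P, Q} := by
  obtain ⟨_, _, _, h⟩ := mem_edges.1 he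
  exact Finset.card_eq_two.1 h

/-- the edges inside a cell -/
def esh (N : ℕ) (k : ℕ × ℕ → ℕ) (T : Finset (Finset Pt)) (p : ℕ × ℕ) : Finset (Finset Pt) :=
  (edges T).filter (· ⊆ cpts N k p)

theorem esh_le (hT : Stk T) {p : ℕ × ℕ} (h0 : k p ≠ 0) (h : k p ≤ 11) :
    (esh N k T p).card ≤ sh (k p) := by
  have h1 := offs_count h0 h
  have h2 := card_cpts N k p
  by_cases h3 : 6 ≤ k p
  · rw [if_pos h3] at h1
    have h5 : esh N k T p = ∅ := by
      rw [Finset.eq_empty_iff_forall_notMem]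
      intro e he
      unfold esh at he
      rw [Finset.mem_filter] at he
      obtain ⟨_, _, _, hc⟩ := mem_edges.1 he.1
      have := Finset.card_le_card he.2
      have h6 : sh (k p) = 0 := by unfold sh; split_ifs <;> omega
      omega
    rw [h5]; simp
  · rw [if_neg h3] at h1
    have h4 : 2 ≤ (cpts N k p).card := by
      have : 1 ≤ sh (k p) := by unfold sh; split_ifs <;> omega
      omega
    have := hT.laman (cpts N k p) h4
    unfold esh
    omega

/-- Main counting argument. -/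
theorem light_count (hN : 75 * V.card + 10 ≤ N) (h0 : ∀ p ∈ V, k p ≠ 0) (h11 : ∀ p ∈ V, k p ≤ 11)
    (hroot : ∃ p ∈ V, k p ≤ 5) (hT : Stk T) (hv : verts T = pts N k V)
    (hw : weight (edges T) ≤ (thr N k V : ℝ)) :
    (∀ p ∈ V, (esh N k T p).card = sh (k p)) ∧
    ∀ P Q, P ≠ Q → {P, Q} ∈ edges T → mac N P ≠ mac N Q → Adj (mac N P) (mac N Q) := by
  classical
  have hN3 : 3 ≤ N := by omega
  have hVpos : 1 ≤ V.card := by
    obtain ⟨p, hp, _⟩ := hroot
    exact Finset.card_pos.2 ⟨p, hp⟩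
  set E := edges T with hE
  set Sh := V.biUnion (esh N k T) with hSh
  have hShE : Sh ⊆ E := by
    intro e he
    rw [hSh, Finset.mem_biUnion] at he
    obtain ⟨p, _, he⟩ := he
    exact (Finset.mem_filter.1 he).1
  have hcSh : Sh.card = ∑ p ∈ V, (esh N k T p).card := by
    rw [hSh, Finset.card_biUnion]
    intro p _ q _ hpq
    rw [Function.onFun, Finset.disjoint_left]
    intro e h1 h2
    apply hpq
    rw [esh, Finset.mem_filter] at h1 h2
    obtain ⟨P, Q, _, rfl⟩ := edge_pair h1.1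
    rw [← mac_of_mem hN3 (h1.2 (show P ∈ ({P, Q} : Finset Pt) by simp)),
      ← mac_of_mem hN3 (h2.2 (show P ∈ ({P, Q} : Finset Pt) by simp))]
  have hShle : Sh.card ≤ shs k V := by
    rw [hcSh]
    exact Finset.sum_le_sum fun p hp => esh_le hT (h0 p hp) (h11 p hp)
  have hEc : E.card + 3 = shs k V + lng k V := by
    have := hT.card_edges
    rw [hv, card_pts hN3 k V h0 h11] at this
    exact this
  -- points of S
  have hmem : ∀ P Q, {P, Q} ∈ E → P ∈ cpts N k (mac N P) ∧ mac N P ∈ V ∧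
      Q ∈ cpts N k (mac N Q) ∧ mac N Q ∈ V := by
    intro P Q h
    have := edge_sub_verts h
    rw [hv] at this
    have h1 := mem_pts' hN3 (this (show P ∈ ({P, Q} : Finset Pt) by simp))
    have h2 := mem_pts' hN3 (this (show Q ∈ ({P, Q} : Finset Pt) by simp))
    exact ⟨h1.2, h1.1, h2.2, h2.1⟩
  have hlong : ∀ e ∈ E \ Sh, (N : ℝ) - 2 ≤ elen e := by
    intro e he
    rw [Finset.mem_sdiff] at he
    obtain ⟨P, Q, hPQ, rfl⟩ := edge_pair he.1
    obtain ⟨h1, h2, h3, h4⟩ := hmem P Q he.1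
    rw [elen_pair hPQ]
    by_cases hc : mac N P = mac N Q
    · exfalso
      apply he.2
      rw [hSh, Finset.mem_biUnion]
      refine ⟨mac N P, h2, ?_⟩
      rw [esh, Finset.mem_filter]
      refine ⟨he.1, ?_⟩
      intro y hy
      simp only [Finset.mem_insert, Finset.mem_singleton] at hy
      rcases hy with rfl | rfl
      · exact h1
      · rw [hc]; exact h3
    · exact len_far hN3 hc h1 h3
  have hlngle : lng k V ≤ 3 * V.card := by
    unfold lng
    calc _ ≤ ∑ p ∈ V, 3 := Finset.sum_le_sum fun p _ => by split_ifs <;> omega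
      _ = 3 * V.card := by rw [Finset.sum_const, smul_eq_mul, mul_comm]
  have hshsle : shs k V ≤ 5 * V.card := by
    unfold shs
    calc _ ≤ ∑ p ∈ V, 5 := Finset.sum_le_sum fun p _ => sh_le _
      _ = 5 * V.card := by rw [Finset.sum_const, smul_eq_mul, mul_comm]
  have hlng3 : 3 ≤ lng k V := by
    obtain ⟨p, hp, hp5⟩ := hroot
    unfold lng
    calc 3 = (if 6 ≤ k p then 2 else 3) := by rw [if_neg (by omega)]
      _ ≤ _ := Finset.single_le_sum (f := fun p => if 6 ≤ k p then 2 else 3)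
        (fun _ _ => Nat.zero_le _) hp
  have hNR : (75 : ℝ) * V.card + 10 ≤ N := by exact_mod_cast hN
  have hthr : (thr N k V : ℝ) = ((lng k V : ℝ) - 3) * (N + 3) + 3 * shs k V := by
    unfold thr
    rw [Nat.cast_add, Nat.cast_mul, Nat.cast_sub hlng3]
    push_cast
    ring
  have r1 : (lng k V : ℝ) ≤ 3 * V.card := by exact_mod_cast hlngle
  have r2 : (shs k V : ℝ) ≤ 5 * V.card := by exact_mod_cast hshsle
  have r3 : (3 : ℝ) ≤ lng k V := by exact_mod_cast hlng3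
  have hw1 : ((E \ Sh).card : ℝ) * ((N : ℝ) - 2) ≤ weight E := by
    unfold weight
    calc ((E \ Sh).card : ℝ) * ((N : ℝ) - 2) = ∑ e ∈ E \ Sh, ((N : ℝ) - 2) := by
          rw [Finset.sum_const, nsmul_eq_mul]
      _ ≤ ∑ e ∈ E \ Sh, elen e := Finset.sum_le_sum hlong
      _ ≤ ∑ e ∈ E, elen e := Finset.sum_le_sum_of_subset_of_nonneg Finset.sdiff_subset
          (fun e _ _ => elen_nonneg e)
  have hcc : (E \ Sh).card + Sh.card = E.card := by
    rw [Finset.card_sdiff_add_card_eq_card hShE]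
  have hShc : Sh.card = shs k V := by
    by_contra hne
    have : Sh.card + 1 ≤ shs k V := by omega
    have h1 : lng k V ≤ (E \ Sh).card + 2 := by omega
    have h2 : (lng k V : ℝ) - 2 ≤ ((E \ Sh).card : ℝ) := by
      have : (lng k V : ℝ) ≤ ((E \ Sh).card : ℝ) + 2 := by exact_mod_cast h1
      linarith
    have h3 : ((lng k V : ℝ) - 2) * ((N : ℝ) - 2) ≤ ((E \ Sh).card : ℝ) * ((N : ℝ) - 2) :=
      mul_le_mul_of_nonneg_right h2 (by
        have : (0 : ℝ) ≤ V.card := by positivity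
        linarith)
    have h4 : (0 : ℝ) ≤ V.card := by positivity
    rw [hthr] at hw
    nlinarith
  refine ⟨?_, ?_⟩
  · have : ∑ p ∈ V, (esh N k T p).card = ∑ p ∈ V, sh (k p) := by rw [← hcSh, hShc]; rfl
    rwa [Finset.sum_eq_sum_iff_of_le (fun p hp => esh_le hT (h0 p hp) (h11 p hp))] at this
  · intro P Q hPQ he hne
    by_contra hadj
    obtain ⟨h1, h2, h3, h4⟩ := hmem P Q he
    have hbig := len_nonadj hN3 hne hadj h1 h3
    have heL : ({P, Q} : Finset Pt) ∈ E \ Sh := by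
      rw [Finset.mem_sdiff]
      refine ⟨he, ?_⟩
      intro hs
      rw [hSh, Finset.mem_biUnion] at hs
      obtain ⟨p, _, hs⟩ := hs
      rw [esh, Finset.mem_filter] at hs
      apply hne
      rw [mac_of_mem hN3 (hs.2 (show P ∈ ({P, Q} : Finset Pt) by simp)),
        mac_of_mem hN3 (hs.2 (show Q ∈ ({P, Q} : Finset Pt) by simp))]
    have hw2 : (((E \ Sh).card : ℝ) - 1) * ((N : ℝ) - 2) + 7 / 5 * ((N : ℝ) - 2) ≤ weight E := by
      unfold weight
      have c1 : ((((E \ Sh).erase {P, Q}).card : ℕ) : ℝ) = ((E \ Sh).card : ℝ) - 1 := by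
        rw [Finset.card_erase_of_mem heL, Nat.cast_sub (Finset.card_pos.2 ⟨_, heL⟩)]
        simp
      calc (((E \ Sh).card : ℝ) - 1) * ((N : ℝ) - 2) + 7 / 5 * ((N : ℝ) - 2)
          = ∑ e ∈ (E \ Sh).erase {P, Q}, ((N : ℝ) - 2) + 7 / 5 * ((N : ℝ) - 2) := by
            rw [Finset.sum_const, nsmul_eq_mul, c1]
        _ ≤ ∑ e ∈ (E \ Sh).erase {P, Q}, elen e + elen {P, Q} := by
            apply add_le_add
            · exact Finset.sum_le_sum fun e he => hlong e (Finset.mem_of_mem_erase he)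
            · rw [elen_pair hPQ]; exact hbig
        _ = ∑ e ∈ E \ Sh, elen e := Finset.sum_erase_add _ _ heL
        _ ≤ ∑ e ∈ E, elen e := Finset.sum_le_sum_of_subset_of_nonneg Finset.sdiff_subset
            (fun e _ _ => elen_nonneg e)
    have h5 : (E \ Sh).card + 3 = lng k V := by omega
    have h6 : ((E \ Sh).card : ℝ) = (lng k V : ℝ) - 3 := by
      have : ((E \ Sh).card : ℝ) + 3 = lng k V := by exact_mod_cast h5
      linarith
    have h4 : (0 : ℝ) ≤ V.card := by positivity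
    rw [hthr] at hw
    rw [h6] at hw2
    nlinarith

end Light

end Pool.Agent.H883R2.OL
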