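import Pool.Agent.H883R2.OL.Macro

set_option autoImplicit false

/-!
Light triangulated polygons on a layout: the relation between the cells.
-/

namespace Pool.Agent.H883R2.OL

/-- What we know about a light triangulated polygon. -/
structure Light (N : ℕ) (k : ℕ × ℕ → ℕ) (V : Finset (ℕ × ℕ)) (T : Finset (Finset Pt)) : Prop where
  hN : 10 ≤ N
  stk : Stk T
  vts : verts T = pts N k V
  ne0 : ∀ p ∈ V, k p ≠ 0
  le11 : ∀ p ∈ V, k p ≤ 11
  esh : ∀ p ∈ V, (esh N k T p).card = sh (k p)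
  adj : ∀ P Q, P ≠ Q → {P, Q} ∈ edges T → mac N P ≠ mac N Q → Adj (mac N P) (mac N Q)
  ndeg : ∀ t ∈ T, ¬ Collinear ℝ (toR '' (t : Set Pt))
  face : ∀ t ∈ T, ∀ t' ∈ T, convexHull ℝ (toR '' (t : Set Pt)) ∩ convexHull ℝ (toR '' (t' : Set Pt)) =
    convexHull ℝ (toR '' ((t ∩ t' : Finset Pt) : Set Pt))

section

variable {N : ℕ} {k : ℕ × ℕ → ℕ} {V : Finset (ℕ × ℕ)} {T : Finset (Finset Pt)}

theorem tri_edge {t : Finset Pt} (ht : t ∈ T) {P Q : Pt} (hP : P ∈ t) (hQ : Q ∈ t) (h : P ≠ Q) :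
    {P, Q} ∈ edges T :=
  mem_edges.2 ⟨t, ht, by
    intro y hy
    simp only [Finset.mem_insert, Finset.mem_singleton] at hy
    rcases hy with rfl | rfl <;> assumption, Finset.card_pair h⟩

/-- a triangle meets at most two cells -/
theorem Light.two (h : Light N k V T) {t : Finset Pt} (ht : t ∈ T) {P Q R : Pt} (hP : P ∈ t)
    (hQ : Q ∈ t) (hR : R ∈ t) (h1 : mac N P ≠ mac N Q) (h2 : mac N P ≠ mac N R) :
    mac N Q = mac N R := by
  by_contra h3
  have n1 : P ≠ Q := fun e => h1 (by rw [e])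
  have n2 : P ≠ R := fun e => h2 (by rw [e])
  have n3 : Q ≠ R := fun e => h3 (by rw [e])
  have a1 := h.adj P Q n1 (tri_edge ht hP hQ n1) h1
  have a2 := h.adj P R n2 (tri_edge ht hP hR n2) h2
  have a3 := h.adj Q R n3 (tri_edge ht hQ hR n3) h3
  unfold Adj at a1 a2 a3
  omega

theorem Light.mem (h : Light N k V T) {t : Finset Pt} (ht : t ∈ T) {P : Pt} (hP : P ∈ t) :
    mac N P ∈ V ∧ P ∈ cpts N k (mac N P) := by
  have : P ∈ pts N k V := by rw [← h.vts]; exact mem_verts.2 ⟨t, ht, hP⟩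
  exact mem_pts' (by have := h.hN; omega) this

/-- the third vertex -/
theorem third {t : Finset Pt} (h3 : t.card = 3) {P Q : Pt} (hP : P ∈ t) (hQ : Q ∈ t) (h : P ≠ Q) :
    ∃ R, R ≠ P ∧ R ≠ Q ∧ t = {P, Q, R} := by
  have hsub : ({P, Q} : Finset Pt) ⊆ t := by
    intro y hy
    simp only [Finset.mem_insert, Finset.mem_singleton] at hy
    rcases hy with rfl | rfl <;> assumption
  have : (t \ {P, Q}).card = 1 := by
    rw [Finset.card_sdiff_of_subset hsub, h3, Finset.card_pair h]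
  obtain ⟨R, hR⟩ := Finset.card_eq_one.1 this
  have hRm : R ∈ t \ {P, Q} := by rw [hR]; simp
  simp only [Finset.mem_sdiff, Finset.mem_insert, Finset.mem_singleton, not_or] at hRm
  refine ⟨R, hRm.2.1, hRm.2.2, ?_⟩
  ext y
  simp only [Finset.mem_insert, Finset.mem_singleton]
  constructor
  · intro hy
    by_contra hcon
    push Not at hcon
    have : y ∈ t \ {P, Q} := by
      simp only [Finset.mem_sdiff, Finset.mem_insert, Finset.mem_singleton, not_or]
      exact ⟨hy, hcon.1, hcon.2.1⟩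
    rw [hR, Finset.mem_singleton] at this
    exact hcon.2.2 this
  · rintro (rfl | rfl | rfl)
    · exact hP
    · exact hQ
    · exact hRm.1

/-- Star argument: a linked vertex with a neighbour in its own cell. -/
theorem Light.star (h : Light N k V T) {a a' Q : Pt} (haa' : a ≠ a') (hc : mac N a' = mac N a)
    (h1 : {a, a'} ∈ edges T) (h2 : {a, Q} ∈ edges T) (hQ : mac N Q ≠ mac N a) :
    ∃ a'' u, a'' ≠ a ∧ mac N a'' = mac N a ∧ mac N u = mac N Q ∧ u ≠ a ∧ u ≠ a'' ∧ {a, a'', u} ∈ T := by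
  obtain ⟨t, ht, hst, -⟩ := mem_edges.1 h2
  obtain ⟨t', ht', hst', -⟩ := mem_edges.1 h1
  have hat : a ∈ t := hst (by simp)
  have hQt : Q ∈ t := hst (by simp)
  have hat' : a ∈ t' := hst' (by simp)
  have ha't' : a' ∈ t' := hst' (by simp)
  have haQ : a ≠ Q := fun e => hQ (by rw [e])
  by_cases hA : ∃ b ∈ t, b ≠ a ∧ mac N b = mac N a
  · obtain ⟨b, hb, hba, hmb⟩ := hA
    have hbQ : b ≠ Q := fun e => hQ (by rw [← e, hmb])
    obtain ⟨R, hR1, hR2, hR⟩ := third (h.stk.card3 t ht) hat hb hba.symm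
    have : Q = R := by
      rw [hR] at hQt
      simp only [Finset.mem_insert, Finset.mem_singleton] at hQt
      rcases hQt with e | e | e
      · exact absurd e.symm haQ
      · exact absurd e.symm hbQ
      · exact e
    subst this
    exact ⟨b, Q, hba, hmb, rfl, haQ.symm, hbQ.symm, hR ▸ ht⟩
  · obtain ⟨u, v, hu, hv, huv⟩ := exit_path
      (A := {s | s ∈ T ∧ a ∈ s ∧ (∀ b ∈ s, b ≠ a → mac N b ≠ mac N a) ∧
        ∀ b ∈ s, b ≠ a → mac N b = mac N Q})
      (h.stk.star a t ht hat t' ht' hat')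
      ⟨ht, hat, fun b hb hba hm => hA ⟨b, hb, hba, hm⟩, fun b hb hba => by
        by_cases hbQ : b = Q
        · rw [hbQ]
        · exact (h.two ht hat hQt hb (Ne.symm hQ) (fun e => hA ⟨b, hb, hba, e.symm⟩)).symm⟩
      (fun hcon => hcon.2.2.1 a' ha't' haa'.symm hc)
    obtain ⟨hu1, hu2, hu3, hu4⟩ := hu
    obtain ⟨hvT, hav, b, hba, hbu, hbv⟩ := huv
    have hbQ : mac N b = mac N Q := hu4 b hbu hba
    -- v has another vertex in the cell of a
    have : ∃ c ∈ v, c ≠ a ∧ mac N c = mac N a := by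
      by_contra hcon
      push Not at hcon
      apply hv
      refine ⟨hvT, hav, hcon, fun c hc hca => ?_⟩
      rw [← hbQ]
      exact (h.two hvT hav hbv hc (fun e => hcon b hbv hba e.symm)
        (fun e => hcon c hc hca e.symm)).symm
    obtain ⟨c, hcv, hca, hcm⟩ := this
    have hcb : c ≠ b := fun e => hQ (by rw [← hbQ, ← e, hcm])
    obtain ⟨R, hR1, hR2, hR⟩ := third (h.stk.card3 v hvT) hav hcv hca.symm
    have : b = R := by
      rw [hR] at hbv
      simp only [Finset.mem_insert, Finset.mem_singleton] at hbv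
      rcases hbv with e | e | e
      · exact absurd e hba
      · exact absurd e.symm hcb
      · exact e
    subst this
    exact ⟨c, b, hca, hcm, hbQ, hba, hcb.symm, hR ▸ hvT⟩

/-- Star argument for singletons. -/
theorem Light.star1 (h : Light N k V T) {a Q Q' : Pt} (hc : ∀ b, b ∈ verts T → mac N b = mac N a → b = a)
    (h1 : {a, Q} ∈ edges T) (h2 : {a, Q'} ∈ edges T) (hQ : mac N Q ≠ mac N a)
    (hQ' : mac N Q' ≠ mac N a) : mac N Q = mac N Q' := by
  obtain ⟨t, ht, hst, -⟩ := mem_edges.1 h1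
  obtain ⟨t', ht', hst', -⟩ := mem_edges.1 h2
  have hat : a ∈ t := hst (by simp)
  have hQt : Q ∈ t := hst (by simp)
  have hat' : a ∈ t' := hst' (by simp)
  have hQt' : Q' ∈ t' := hst' (by simp)
  by_contra hne
  have hQa : Q' ≠ a := fun e => hQ' (by rw [e])
  have cell : ∀ s ∈ T, ∀ b ∈ s, b ≠ a → mac N a ≠ mac N b := fun s hs b hb hba e =>
    hba (hc b (mem_verts.2 ⟨s, hs, hb⟩) e.symm)
  obtain ⟨u, v, hu, hv, huv⟩ := exit_path
      (A := {s | s ∈ T ∧ a ∈ s ∧ ∀ b ∈ s, b ≠ a → mac N b = mac N Q})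
      (h.stk.star a t ht hat t' ht' hat')
      ⟨ht, hat, fun b hb hba => (h.two ht hat hQt hb (Ne.symm hQ) (cell t ht b hb hba)).symm⟩
      (fun hcon => hne (hcon.2.2 Q' hQt' hQa).symm)
  obtain ⟨hu1, hu2, hu4⟩ := hu
  obtain ⟨hvT, hav, b, hba, hbu, hbv⟩ := huv
  have hbQ : mac N b = mac N Q := hu4 b hbu hba
  apply hv
  refine ⟨hvT, hav, fun c hcv hca => ?_⟩
  rw [← hbQ]
  exact (h.two hvT hav hbv hcv (cell v hvT b hbv hba) (cell v hvT c hcv hca)).symm

/-- Two triangles on an edge. -/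
theorem Light.opp (h : Light N k V T) {a b u w : Pt} (hab : a ≠ b) (huw : u ≠ w) (hua : u ≠ a)
    (hub : u ≠ b) (hwa : w ≠ a) (hwb : w ≠ b) (h1 : {a, b, u} ∈ T) (h2 : {a, b, w} ∈ T) :
    cross a b u * cross a b w < 0 := by
  have c1 : cross a b u ≠ 0 := cross_ne_zero hab (h.ndeg _ h1)
  have c2 : cross a b w ≠ 0 := cross_ne_zero hab (h.ndeg _ h2)
  rcases lt_trichotomy (cross a b u * cross a b w) 0 with hlt | heq | hgt
  · exact hlt
  · exact absurd heq (mul_ne_zero c1 c2)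
  · exact absurd (opp_side hab huw hua hub hwa hwb (h.face _ h1 _ h2) hgt) (fun h => h)

/-- An edge is in at most two triangles. -/
theorem Light.three (h : Light N k V T) {a b u v w : Pt} (hab : a ≠ b) (huv : u ≠ v) (huw : u ≠ w)
    (hvw : v ≠ w) (hua : u ≠ a) (hub : u ≠ b) (hva : v ≠ a) (hvb : v ≠ b) (hwa : w ≠ a)
    (hwb : w ≠ b) (h1 : {a, b, u} ∈ T) (h2 : {a, b, v} ∈ T) (h3 : {a, b, w} ∈ T) : False := by
  have e1 := h.opp hab huv hua hub hva hvb h1 h2
  have e2 := h.opp hab huw hua hub hwa hwb h1 h3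
  have e3 := h.opp hab hvw hva hvb hwa hwb h2 h3
  rw [mul_neg_iff] at e1 e2 e3
  omega

end

end Pool.Agent.H883R2.OL
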