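import Pool.Agent.H883R2.OL.Macro2

set_option autoImplicit false

/-!
Light triangulated polygons on a layout: degree bounds.
-/

namespace Pool.Agent.H883R2.OL

/-- the relation between cells -/
def Lnk (N : ℕ) (T : Finset (Finset Pt)) (p q : ℕ × ℕ) : Prop :=
  p ≠ q ∧ ∃ P Q, {P, Q} ∈ edges T ∧ mac N P = p ∧ mac N Q = q

section

variable {N : ℕ} {k : ℕ × ℕ → ℕ} {V : Finset (ℕ × ℕ)} {T : Finset (Finset Pt)}

theorem Light.memE (h : Light N k V T) {P Q : Pt} (he : {P, Q} ∈ edges T) :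
    (mac N P ∈ V ∧ P ∈ cpts N k (mac N P)) ∧ (mac N Q ∈ V ∧ Q ∈ cpts N k (mac N Q)) := by
  obtain ⟨t, ht, hst, -⟩ := mem_edges.1 he
  exact ⟨h.mem ht (hst (by simp)), h.mem ht (hst (by simp))⟩

theorem Lnk.symm {p q : ℕ × ℕ} (h : Lnk N T p q) : Lnk N T q p := by
  obtain ⟨h1, P, Q, h2, h3, h4⟩ := h
  exact ⟨h1.symm, Q, P, by rw [Finset.pair_comm]; exact h2, h4, h3⟩

theorem Light.lnk_adj (h : Light N k V T) {p q : ℕ × ℕ} (hl : Lnk N T p q) : Adj p q := by
  obtain ⟨h1, P, Q, h2, rfl, rfl⟩ := hl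
  exact h.adj P Q (fun e => h1 (by rw [e])) h2 h1

theorem Light.lnk_mem (h : Light N k V T) {p q : ℕ × ℕ} (hl : Lnk N T p q) : p ∈ V := by
  obtain ⟨h1, P, Q, h2, rfl, rfl⟩ := hl
  exact (h.memE h2).1.1

theorem Light.conn (h : Light N k V T) {p q : ℕ × ℕ} (hp : p ∈ V) (hq : q ∈ V) :
    Relation.ReflTransGen (Lnk N T) p q := by
  have pt : ∀ p ∈ V, ∃ P ∈ verts T, mac N P = p := by
    intro p hp
    have h1 := offs_count (h.ne0 p hp) (h.le11 p hp)
    have h2 := card_cpts N k p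
    have : 0 < (cpts N k p).card := by
      rw [h2]; split_ifs at h1 <;> omega
    obtain ⟨P, hP⟩ := Finset.card_pos.1 this
    exact ⟨P, by rw [h.vts]; exact mem_pts.2 ⟨p, hp, hP⟩, mac_of_mem (by have := h.hN; omega) hP⟩
  obtain ⟨P, hP, rfl⟩ := pt p hp
  obtain ⟨Q, hQ, rfl⟩ := pt q hq
  obtain ⟨t, ht, hPt⟩ := mem_verts.1 hP
  obtain ⟨t', ht', hQt⟩ := mem_verts.1 hQ
  have tri : ∀ t ∈ T, ∀ A ∈ t, ∀ B ∈ t, Relation.ReflTransGen (Lnk N T) (mac N A) (mac N B) := by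
    intro t ht A hA B hB
    by_cases hAB : mac N A = mac N B
    · rw [hAB]
    · exact Relation.ReflTransGen.single ⟨hAB, A, B, tri_edge ht hA hB (fun e => hAB (by rw [e])),
        rfl, rfl⟩
  have path := h.stk.conn t ht t' ht'
  have : ∀ s, Relation.ReflTransGen (fun s s' => s' ∈ T ∧ (s ∩ s').card = 2) t s → s ∈ T ∧
      ∀ B ∈ s, Relation.ReflTransGen (Lnk N T) (mac N P) (mac N B) := by
    intro s hs
    induction hs with
    | refl => exact ⟨ht, fun B hB => tri t ht P hPt B hB⟩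
    | tail _ hbc ih =>
      obtain ⟨hc, h2⟩ := hbc
      refine ⟨hc, fun B hB => ?_⟩
      obtain ⟨A, hA⟩ := Finset.card_pos.1 (show 0 < _ by rw [h2]; norm_num)
      rw [Finset.mem_inter] at hA
      exact (ih.2 A hA.1).trans (tri _ hc A hA.2 B hB)
  exact (this t' path).2 Q hQt

theorem Light.single (h : Light N k V T) {p q q' : ℕ × ℕ} (h6 : 6 ≤ k p) (h1 : Lnk N T p q)
    (h2 : Lnk N T p q') : q = q' := by
  have hp := h.lnk_mem h1
  obtain ⟨n1, P, Q, e1, m1, rfl⟩ := h1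
  obtain ⟨n2, P', Q', e2, m2, rfl⟩ := h2
  have hc : (cpts N k p).card = 1 := by
    have h1 := offs_count (h.ne0 p hp) (h.le11 p hp)
    have h2 := card_cpts N k p
    have h3 : sh (k p) = 0 := by unfold sh; split_ifs <;> omega
    rw [if_pos h6] at h1
    omega
  obtain ⟨a, ha⟩ := Finset.card_eq_one.1 hc
  have uniq : ∀ b, b ∈ verts T → mac N b = p → b = a := by
    intro b hb hm
    rw [h.vts] at hb
    have := (mem_pts' (by have := h.hN; omega) hb).2
    rw [hm, ha, Finset.mem_singleton] at this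
    exact this
  have hP : P = a := uniq P (edge_sub_verts e1 (by simp)) m1
  have hP' : P' = a := uniq P' (edge_sub_verts e2 (by simp)) m2
  subst hP
  subst hP'
  refine h.star1 (fun b hb hm => uniq b hb (hm.trans m1)) e1 e2 ?_ ?_
  · rw [m1]; exact n1.symm
  · rw [m1]; exact n2.symm

theorem Light.pairLink (h : Light N k V T) {p : ℕ × ℕ} (hp : p ∈ V) (h3 : 3 ≤ k p) (h5 : k p ≤ 5) :
    ∃ a a', a ≠ a' ∧ cpts N k p = {a, a'} ∧ ∀ q, Lnk N T p q →
      ∃ u, mac N u = q ∧ u ≠ a ∧ u ≠ a' ∧ {a, a', u} ∈ T := by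
  have hs : sh (k p) = 1 := by unfold sh; split_ifs <;> omega
  have hc : (cpts N k p).card = 2 := by
    have h1 := offs_count (h.ne0 p hp) (h.le11 p hp)
    have h2 := card_cpts N k p
    rw [if_neg (by omega)] at h1
    omega
  obtain ⟨a, a', haa, hca⟩ := Finset.card_eq_two.1 hc
  have hN3 : 3 ≤ N := by have := h.hN; omega
  have ma : mac N a = p := mac_of_mem hN3 (show a ∈ cpts N k p by rw [hca]; simp)
  have ma' : mac N a' = p := mac_of_mem hN3 (show a' ∈ cpts N k p by rw [hca]; simp)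
  have hE : {a, a'} ∈ edges T := by
    have h1 := h.esh p hp
    rw [hs] at h1
    obtain ⟨e, he⟩ := Finset.card_eq_one.1 h1
    have he' : e ∈ OL.esh N k T p := by rw [he]; simp
    rw [OL.esh, Finset.mem_filter] at he'
    have : e = cpts N k p := by
      apply Finset.eq_of_subset_of_card_le he'.2
      obtain ⟨_, _, _, h⟩ := mem_edges.1 he'.1
      omega
    rw [← hca, ← this]
    exact he'.1
  refine ⟨a, a', haa, hca, ?_⟩
  rintro q ⟨hpq, P, Q, he, hmP, hmQ⟩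
  have hPc : P ∈ cpts N k p := by rw [← hmP]; exact (h.memE he).1.2
  rw [hca] at hPc
  simp only [Finset.mem_insert, Finset.mem_singleton] at hPc
  rcases hPc with rfl | rfl
  · obtain ⟨a'', u, h1, h2, h3, h4, h5, h6⟩ := h.star haa (ma'.trans ma.symm) hE he
      (by rw [hmQ, ma]; exact hpq.symm)
    have : a'' ∈ cpts N k p := by
      have := (h.mem h6 (show a'' ∈ _ by simp)).2
      rwa [h2, ma] at this
    rw [hca] at this
    simp only [Finset.mem_insert, Finset.mem_singleton] at this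
    rcases this with rfl | rfl
    · exact absurd rfl h1
    · exact ⟨u, h3.trans hmQ, h4, h5, h6⟩
  · obtain ⟨a'', u, h1, h2, h3, h4, h5, h6⟩ := h.star haa.symm (ma.trans ma'.symm)
      (by rw [Finset.pair_comm]; exact hE) he (by rw [hmQ, ma']; exact hpq.symm)
    have : a'' ∈ cpts N k p := by
      have := (h.mem h6 (show a'' ∈ _ by simp)).2
      rwa [h2, ma'] at this
    rw [hca] at this
    simp only [Finset.mem_insert, Finset.mem_singleton] at this
    rcases this with rfl | rfl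
    · refine ⟨u, h3.trans hmQ, h5, h4, ?_⟩
      rw [Finset.insert_comm] at h6
      exact h6
    · exact absurd rfl h1

theorem Light.pair (h : Light N k V T) {p q q' q'' : ℕ × ℕ} (h3 : 3 ≤ k p) (h5 : k p ≤ 5)
    (h1 : Lnk N T p q) (h2 : Lnk N T p q') (h4 : Lnk N T p q'') : q = q' ∨ q = q'' ∨ q' = q'' := by
  obtain ⟨a, a', haa, hca, hl⟩ := h.pairLink (h.lnk_mem h1) h3 h5
  obtain ⟨u, u1, u2, u3, u4⟩ := hl q h1
  obtain ⟨v, v1, v2, v3, v4⟩ := hl q' h2
  obtain ⟨w, w1, w2, w3, w4⟩ := hl q'' h4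
  by_contra hcon
  push Not at hcon
  exact h.three haa (fun e => hcon.1 (by rw [← u1, ← v1, e])) (fun e => hcon.2.1 (by rw [← u1, ← w1, e]))
    (fun e => hcon.2.2 (by rw [← v1, ← w1, e])) u2 u3 v2 v3 w2 w3 u4 v4 w4

theorem Light.reader (h : Light N k V T) {x y : ℕ} (h5 : k (x, y + 1) = 5)
    (h1 : Lnk N T (x, y + 1) (x, y)) (h2 : Lnk N T (x, y + 1) (x + 1, y + 1)) : False := by
  have hN := h.hN
  have hN3 : 3 ≤ N := by omega
  obtain ⟨a, a', haa, hca, hl⟩ := h.pairLink (h.lnk_mem h1) (by omega) (by omega)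
  obtain ⟨u, u1, u2, u3, u4⟩ := hl _ h1
  obtain ⟨w, w1, w2, w3, w4⟩ := hl _ h2
  have huw : u ≠ w := by
    intro e
    have : (x, y) = (x + 1, y + 1) := by rw [← u1, ← w1, e]
    simp at this
  have hopp := h.opp haa huw u2 u3 w2 w3 u4 w4
  have hu := (h.mem u4 (show u ∈ _ by simp)).2
  have hw := (h.mem w4 (show w ∈ _ by simp)).2
  rw [u1] at hu
  rw [w1] at hw
  obtain ⟨o, ho, rfl⟩ := mem_cpts.1 hu
  obtain ⟨o', ho', rfl⟩ := mem_cpts.1 hw
  have b1 := offs_bound ho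
  have b2 := offs_bound ho'
  have hcc : cpts N k (x, y + 1) = {pnt N (x, y + 1) (0, 0), pnt N (x, y + 1) (2, 2)} := by
    unfold cpts
    rw [h5]
    simp [offs]
  rw [hca] at hcc
  have key : (a = pnt N (x, y + 1) (0, 0) ∧ a' = pnt N (x, y + 1) (2, 2)) ∨
      (a = pnt N (x, y + 1) (2, 2) ∧ a' = pnt N (x, y + 1) (0, 0)) := by
    have e1 : a ∈ ({pnt N (x, y + 1) (0, 0), pnt N (x, y + 1) (2, 2)} : Finset Pt) := by
      rw [← hcc]; simp
    have e2 : a' ∈ ({pnt N (x, y + 1) (0, 0), pnt N (x, y + 1) (2, 2)} : Finset Pt) := by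
      rw [← hcc]; simp
    simp only [Finset.mem_insert, Finset.mem_singleton] at e1 e2
    rcases e1 with e1 | e1 <;> rcases e2 with e2 | e2
    · exact absurd (e1.trans e2.symm) haa
    · exact Or.inl ⟨e1, e2⟩
    · exact Or.inr ⟨e1, e2⟩
    · exact absurd (e1.trans e2.symm) haa
  have c1 : ∀ (z1 z2 z3 z4 : ℕ), z1 ≤ 2 → z2 ≤ 2 → z3 ≤ 2 → z4 ≤ 2 →
      0 < (2 * ((z2 : ℤ) - N) - 2 * z1) * (2 * z4 - 2 * (N + z3)) := by
    intro z1 z2 z3 z4 h1 h2 h3 h4
    apply mul_pos_of_neg_of_neg <;> omega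
  have hpos := c1 o.1 o.2 o'.1 o'.2 b1.1 b1.2 b2.1 b2.2
  rcases key with ⟨rfl, rfl⟩ | ⟨rfl, rfl⟩
  · simp only [cross, pnt] at hopp
    push_cast at hopp
    nlinarith
  · simp only [cross, pnt] at hopp
    push_cast at hopp
    nlinarith

theorem Light.tri (h : Light N k V T) {p q1 q2 q3 q4 : ℕ × ℕ} (h2 : k p = 2)
    (l1 : Lnk N T p q1) (l2 : Lnk N T p q2) (l3 : Lnk N T p q3) (l4 : Lnk N T p q4)
    (n12 : q1 ≠ q2) (n13 : q1 ≠ q3) (n14 : q1 ≠ q4) (n23 : q2 ≠ q3) (n24 : q2 ≠ q4)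
    (n34 : q3 ≠ q4) : False := by
  have hp := h.lnk_mem l1
  have hN3 : 3 ≤ N := by have := h.hN; omega
  have hc : (cpts N k p).card = 3 := by
    rw [card_cpts, h2]; rfl
  have hesh : (OL.esh N k T p).card = 3 := by rw [h.esh p hp, h2]; rfl
  have hall : OL.esh N k T p = (cpts N k p).powersetCard 2 := by
    apply Finset.eq_of_subset_of_card_le
    · intro e he
      rw [OL.esh, Finset.mem_filter] at he
      rw [Finset.mem_powersetCard]
      obtain ⟨_, _, _, h⟩ := mem_edges.1 he.1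
      exact ⟨he.2, h⟩
    · rw [Finset.card_powersetCard, hc, hesh]; decide
  have hedge : ∀ P ∈ cpts N k p, ∀ Q ∈ cpts N k p, P ≠ Q → {P, Q} ∈ edges T := by
    intro P hP Q hQ hPQ
    have : ({P, Q} : Finset Pt) ∈ OL.esh N k T p := by
      rw [hall, Finset.mem_powersetCard]
      refine ⟨?_, Finset.card_pair hPQ⟩
      intro y hy
      simp only [Finset.mem_insert, Finset.mem_singleton] at hy
      rcases hy with rfl | rfl <;> assumption
    exact (Finset.mem_filter.1 this).1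
  have hT : cpts N k p ∈ T := by
    obtain ⟨a, b, c, hab, hac, hbc, he⟩ := Finset.card_eq_three.1 hc
    rw [he]
    apply h.stk.clique hab hac hbc <;> apply hedge <;> first | (rw [he]; simp) | assumption
  -- each link gives a missing vertex
  have key : ∀ q, Lnk N T p q → ∃ R ∈ cpts N k p, ∃ u P P', P ≠ P' ∧ mac N u = q ∧
      cpts N k p \ {R} = {P, P'} ∧ R ≠ P ∧ R ≠ P' ∧ u ≠ P ∧ u ≠ P' ∧ u ≠ R ∧ {P, P', u} ∈ T ∧
      {P, P', R} ∈ T := by
    rintro q ⟨hpq, P, Q, he, hmP, hmQ⟩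
    have hPc : P ∈ cpts N k p := by rw [← hmP]; exact (h.memE he).1.2
    obtain ⟨P1, hP1, hne⟩ := Finset.exists_mem_ne (show 1 < (cpts N k p).card by omega) P
    have hm1 : mac N P1 = p := mac_of_mem hN3 hP1
    obtain ⟨a'', u, g1, g2, g3, g4, g5, g6⟩ := h.star hne.symm (hm1.trans hmP.symm)
      (hedge P hPc P1 hP1 hne.symm) he (by rw [hmQ, hmP]; exact hpq.symm)
    have ha'' : a'' ∈ cpts N k p := by
      have := (h.mem g6 (show a'' ∈ _ by simp)).2
      rwa [g2, hmP] at this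
    obtain ⟨R, r1, r2, r3⟩ := third hc hPc ha'' g1.symm
    have hum : mac N u = q := g3.trans hmQ
    have huR : u ≠ R := by
      rintro rfl
      apply hpq
      rw [← hum]
      exact (mac_of_mem hN3 (show u ∈ cpts N k p by rw [r3]; simp)).symm
    refine ⟨R, by rw [r3]; simp, u, P, a'', g1.symm, hum, ?_, r1, r2, g4, g5, huR, g6, by
      rw [← r3]; exact hT⟩
    rw [r3]
    ext y
    simp only [Finset.mem_sdiff, Finset.mem_insert, Finset.mem_singleton]
    constructor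
    · rintro ⟨h1 | h1 | h1, h2⟩
      · exact Or.inl h1
      · exact Or.inr h1
      · exact absurd h1 h2
    · rintro (rfl | rfl)
      · exact ⟨Or.inl rfl, r1.symm⟩
      · exact ⟨Or.inr (Or.inl rfl), r2.symm⟩
  have key2 : ∀ q q' R R' u u' P P' Q Q', q ≠ q' → P ≠ P' → mac N u = q →
      cpts N k p \ {R} = {P, P'} → R ≠ P → R ≠ P' → u ≠ P → u ≠ P' → u ≠ R → {P, P', u} ∈ T →
      {P, P', R} ∈ T → Q ≠ Q' → mac N u' = q' → cpts N k p \ {R'} = {Q, Q'} → u' ≠ Q → u' ≠ Q' →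
      u' ≠ R' → {Q, Q', u'} ∈ T → R ≠ R' := by
    intro q q' R R' u u' P P' Q Q' hqq hPP hu hR r1 r2 hu1 hu2 hu3 hT1 hT2 hQQ hu' hR' hv1 hv2 hv3 hT3 hRR
    subst hRR
    have hPQ : ({P, P'} : Finset Pt) = {Q, Q'} := by rw [← hR, ← hR']
    have hT3' : {P, P', u'} ∈ T := by
      have : ({P, P', u'} : Finset Pt) = {Q, Q', u'} := by
        have e1 : ({P, P', u'} : Finset Pt) = insert u' {P, P'} := by
          ext y; simp only [Finset.mem_insert, Finset.mem_singleton]; tauto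
        have e2 : ({Q, Q', u'} : Finset Pt) = insert u' {Q, Q'} := by
          ext y; simp only [Finset.mem_insert, Finset.mem_singleton]; tauto
        rw [e1, e2, hPQ]
      rw [this]; exact hT3
    have hu'P : u' ∉ ({P, P'} : Finset Pt) := by
      rw [hPQ]; simp [hv1, hv2]
    simp only [Finset.mem_insert, Finset.mem_singleton, not_or] at hu'P
    exact h.three hPP (fun e => hqq (by rw [← hu, ← hu', e])) hu3 hv3 hu1 hu2 hu'P.1 hu'P.2 r1 r2
      hT1 hT3' hT2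
  obtain ⟨R1, m1, u1, P1, P1', a1, a2, a3, a4, a5, a6, a7, a8, a9, a10⟩ := key q1 l1
  obtain ⟨R2, m2, u2, P2, P2', b1, b2, b3, b4, b5, b6, b7, b8, b9, b10⟩ := key q2 l2
  obtain ⟨R3, m3, u3, P3, P3', c1, c2, c3, c4, c5, c6, c7, c8, c9, c10⟩ := key q3 l3
  obtain ⟨R4, m4, u4, P4, P4', d1, d2, d3, d4, d5, d6, d7, d8, d9, d10⟩ := key q4 l4
  have e12 := key2 _ _ _ _ _ _ _ _ _ _ n12 a1 a2 a3 a4 a5 a6 a7 a8 a9 a10 b1 b2 b3 b6 b7 b8 b9
  have e13 := key2 _ _ _ _ _ _ _ _ _ _ n13 a1 a2 a3 a4 a5 a6 a7 a8 a9 a10 c1 c2 c3 c6 c7 c8 c9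
  have e14 := key2 _ _ _ _ _ _ _ _ _ _ n14 a1 a2 a3 a4 a5 a6 a7 a8 a9 a10 d1 d2 d3 d6 d7 d8 d9
  have e23 := key2 _ _ _ _ _ _ _ _ _ _ n23 b1 b2 b3 b4 b5 b6 b7 b8 b9 b10 c1 c2 c3 c6 c7 c8 c9
  have e24 := key2 _ _ _ _ _ _ _ _ _ _ n24 b1 b2 b3 b4 b5 b6 b7 b8 b9 b10 d1 d2 d3 d6 d7 d8 d9
  have e34 := key2 _ _ _ _ _ _ _ _ _ _ n34 c1 c2 c3 c4 c5 c6 c7 c8 c9 c10 d1 d2 d3 d6 d7 d8 d9
  have : ({R1, R2, R3, R4} : Finset Pt) ⊆ cpts N k p := by
    intro y hy
    simp only [Finset.mem_insert, Finset.mem_singleton] at hy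
    rcases hy with rfl | rfl | rfl | rfl <;> assumption
  have h4 := Finset.card_le_card this
  rw [hc, Finset.card_insert_of_notMem (by simp [e12, e13, e14]),
    Finset.card_insert_of_notMem (by simp [e23, e24]), Finset.card_pair e34] at h4
  omega

end

theorem tile_le (m r j d i : ℕ) (b : Bool) : tile m r j d i b ≤ 11 := by
  unfold tile
  split_ifs <;> omega

theorem lend_le (r x i : ℕ) : lend r x i ≤ 11 := by
  unfold lend
  split_ifs <;> omega

theorem kd_le (K m : ℕ) (inc : ℕ → ℕ → Bool) (p : ℕ × ℕ) : kd K m inc p ≤ 11 := by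
  unfold kd
  split_ifs
  · omega
  · omega
  · omega
  · exact lend_le _ _ _
  · omega
  · exact tile_le _ _ _ _ _ _

theorem mem_cells (K m : ℕ) (inc : ℕ → ℕ → Bool) (p : ℕ × ℕ) :
    p ∈ cells K m inc ↔ kd K m inc p ≠ 0 := by
  unfold cells
  rw [Finset.mem_filter, Finset.mem_product, Finset.mem_range, Finset.mem_range]
  constructor
  · exact fun h => h.2
  · intro h
    refine ⟨?_, h⟩
    unfold kd at h
    split_ifs at h <;> first | omega | exact absurd rfl h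

theorem kd_root (K m : ℕ) (inc : ℕ → ℕ → Bool) (hK : 2 ≤ K) : kd K m inc (0, 1) = 1 := by
  unfold kd
  rw [if_neg (by simp; omega), if_pos rfl, if_neg (by simp)]

theorem linkRel_of_light (K m : ℕ) (inc : ℕ → ℕ → Bool) (hK : 2 ≤ K) (N : ℕ)
    (hN : 75 * (cells K m inc).card + 10 ≤ N) (T : Finset (Finset Pt))
    (hT : TriPoly (pts N (kd K m inc) (cells K m inc)) T)
    (hw : weight (edges T) ≤ (thr N (kd K m inc) (cells K m inc) : ℝ)) :
    ∃ Lk, LinkRel K m inc Lk := by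
  have hroot : (0, 1) ∈ cells K m inc := by
    rw [mem_cells, kd_root K m inc hK]; norm_num
  have hS : (pts N (kd K m inc) (cells K m inc)).Nonempty := by
    refine ⟨pnt N (0, 1) (0, 0), mem_pts.2 ⟨(0, 1), hroot, mem_cpts.2 ⟨(0, 0), ?_, rfl⟩⟩⟩
    rw [kd_root K m inc hK]
    decide
  obtain ⟨h1, h2⟩ := hT.stk hS
  have h0 : ∀ p ∈ cells K m inc, kd K m inc p ≠ 0 := fun p hp => (mem_cells K m inc p).1 hp
  have hc := light_count hN h0 (fun p _ => kd_le K m inc p)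
    ⟨(0, 1), hroot, by rw [kd_root K m inc hK]; norm_num⟩ h1 h2 hw
  have L : Light N (kd K m inc) (cells K m inc) T :=
    ⟨by omega, h1, h2, h0, fun p _ => kd_le K m inc p, hc.1, hc.2, hT.nondeg, hT.face⟩
  refine ⟨Lnk N T, fun p q h => h.symm, fun p q h => L.lnk_adj h,
    fun p q h => h0 p (L.lnk_mem h), fun p hp => L.conn hroot ((mem_cells K m inc p).2 hp),
    fun p q q' h6 l1 l2 => L.single h6 l1 l2, fun p q q' q'' h3 h5 l1 l2 l3 => L.pair h3 h5 l1 l2 l3,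
    ?_, fun x y h5 l1 l2 => L.reader h5 l1 l2⟩
  intro x y hk l1 l2 l3 l4
  apply L.tri hk l1 l2 l3 l4 <;> simp

end Pool.Agent.H883R2.OL
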