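import Pool.Agent.H883R2.OL.Lay

set_option autoImplicit false
set_option linter.all false

/-!
The parents of the cells.
-/

namespace Pool.Agent.H883R2.OL

variable {K m : ℕ} {inc : ℕ → ℕ → Bool} {σ : ℕ → Bool} {ρ : ℕ → ℕ}

theorem PG_of' {p q : ℕ × ℕ} {c c' : ℕ} {dx dy : ℤ} (hc : code K m inc σ ρ p = c)
    (hc' : code K m inc σ ρ q = c') (hd : pdir c = (dx, dy))
    (h1 : (q.1 : ℤ) = p.1 + dx) (h2 : (q.2 : ℤ) = p.2 + dy) (h3 : (c', c) ∈ fitsL)
    (h4 : 6 < c' → sel σ ρ q = (-dx, -dy)) : PG K m inc σ ρ p :=
  PG_of hc hc' (by rw [hd]; exact h1) (by rw [hd]; exact h2) h3 (by rw [hd]; exact h4)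

theorem pg_0_1 {r j : ℕ} (hr : r < K) (hj : j < m) (h0 : r ≠ 0) :
    PG K m inc σ ρ (r + 4 + 6 * j + 1, 5 * r + 0) := by
  exact PG_of' (q := (r + 4 + 6 * j + 1, 5 * r + 1)) (c := 10) (c' := 2) (dx := 0) (dy := 1)
                (by rw [code_T hr hj (by norm_num) (by norm_num)]; simp [codeT, h0])
                (by rw [code_T hr hj (by norm_num) (by norm_num)]; simp [codeT])
                rfl (by push_cast <;> omega) (by push_cast <;> omega) (by decide)
                (by norm_num)

theorem pg_0_2 {r j : ℕ} (hr : r < K) (hj : j < m) :
    PG K m inc σ ρ (r + 4 + 6 * j + 2, 5 * r + 0) := by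
  by_cases hle : r ≤ ρ j
  · exact PG_of' (q := (r + 4 + 6 * j + 2, 5 * r + 1)) (c := 28) (c' := 5) (dx := 0) (dy := 1)
                (by rw [code_T hr hj (by norm_num) (by norm_num)]; simp [codeT, hle])
                (by rw [code_T hr hj (by norm_num) (by norm_num)]; simp [codeT, hle])
                rfl (by push_cast <;> omega) (by push_cast <;> omega) (by decide)
                (by norm_num)
  · have h0 : r ≠ 0 := by omega
    exact PG_of' (q := (r + 4 + 6 * j + 1, 5 * r + 0)) (c := 29) (c' := 10) (dx := -1) (dy := 0)
                (by rw [code_T hr hj (by norm_num) (by norm_num)]; simp [codeT, hle])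
                (by rw [code_T hr hj (by norm_num) (by norm_num)]; simp [codeT, h0])
                rfl (by push_cast <;> omega) (by push_cast <;> omega) (by decide)
                (by intro _; rw [sel_T (by norm_num) (by norm_num)]; simp [selT, hle])

theorem pg_1_0 {r j : ℕ} (hr : r < K) (hj : j < m) :
    PG K m inc σ ρ (r + 4 + 6 * j + 0, 5 * r + 1) := by
  rcases Nat.eq_zero_or_pos j with h0 | h0
  · subst h0
    exact PG_of' (q := (r + 3, 5 * r + 1)) (c := 2) (c' := 2) (dx := -1) (dy := 0)
                (by rw [code_T hr hj (by norm_num) (by norm_num)]; simp [codeT])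
                (by rw [code_L hr (by omega) (by omega) (by norm_num)]; simp [codeL])
                rfl (by push_cast <;> omega) (by push_cast <;> omega) (by decide)
                (by norm_num)
  · obtain ⟨j', rfl⟩ : ∃ j', j = j' + 1 := ⟨j - 1, by omega⟩
    have hj' : j' < m := by omega
    have hne : j' + 1 ≠ m := by omega
    exact PG_of' (q := (r + 4 + 6 * j' + 5, 5 * r + 1)) (c := 2) (c' := 2) (dx := -1) (dy := 0)
                (by rw [code_T hr hj (by norm_num) (by norm_num)]; simp [codeT])
                (by rw [code_T hr hj' (by norm_num) (by norm_num)]; simp [codeT, hne])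
                rfl (by push_cast <;> omega) (by push_cast <;> omega) (by decide)
                (by norm_num)

theorem pg_1_1 {r j : ℕ} (hr : r < K) (hj : j < m) :
    PG K m inc σ ρ (r + 4 + 6 * j + 1, 5 * r + 1) := by
  exact PG_of' (q := (r + 4 + 6 * j + 0, 5 * r + 1)) (c := 2) (c' := 2) (dx := -1) (dy := 0)
                (by rw [code_T hr hj (by norm_num) (by norm_num)]; simp [codeT])
                (by rw [code_T hr hj (by norm_num) (by norm_num)]; simp [codeT])
                rfl (by push_cast <;> omega) (by push_cast <;> omega) (by decide)
                (by norm_num)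

theorem pg_1_2 {r j : ℕ} (hr : r < K) (hj : j < m) :
    PG K m inc σ ρ (r + 4 + 6 * j + 2, 5 * r + 1) := by
  by_cases hle : r ≤ ρ j
  · exact PG_of' (q := (r + 4 + 6 * j + 1, 5 * r + 1)) (c := 5) (c' := 2) (dx := -1) (dy := 0)
                (by rw [code_T hr hj (by norm_num) (by norm_num)]; simp [codeT, hle])
                (by rw [code_T hr hj (by norm_num) (by norm_num)]; simp [codeT])
                rfl (by push_cast <;> omega) (by push_cast <;> omega) (by decide)
                (by norm_num)
  · exact PG_of' (q := (r + 4 + 6 * j + 1, 5 * r + 1)) (c := 6) (c' := 2) (dx := -1) (dy := 0)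
                (by rw [code_T hr hj (by norm_num) (by norm_num)]; simp [codeT, hle])
                (by rw [code_T hr hj (by norm_num) (by norm_num)]; simp [codeT])
                rfl (by push_cast <;> omega) (by push_cast <;> omega) (by decide)
                (by norm_num)

theorem pg_1_3 {r j : ℕ} (hr : r < K) (hj : j < m) :
    PG K m inc σ ρ (r + 4 + 6 * j + 3, 5 * r + 1) := by
  by_cases hle : r ≤ ρ j
  · exact PG_of' (q := (r + 4 + 6 * j + 2, 5 * r + 1)) (c := 3) (c' := 5) (dx := -1) (dy := 0)
                (by rw [code_T hr hj (by norm_num) (by norm_num)]; simp [codeT])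
                (by rw [code_T hr hj (by norm_num) (by norm_num)]; simp [codeT, hle])
                rfl (by push_cast <;> omega) (by push_cast <;> omega) (by decide)
                (by norm_num)
  · exact PG_of' (q := (r + 4 + 6 * j + 2, 5 * r + 1)) (c := 3) (c' := 6) (dx := -1) (dy := 0)
                (by rw [code_T hr hj (by norm_num) (by norm_num)]; simp [codeT])
                (by rw [code_T hr hj (by norm_num) (by norm_num)]; simp [codeT, hle])
                rfl (by push_cast <;> omega) (by push_cast <;> omega) (by decide)
                (by norm_num)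

theorem pg_1_4 {r j : ℕ} (hr : r < K) (hj : j < m) :
    PG K m inc σ ρ (r + 4 + 6 * j + 4, 5 * r + 1) := by
  exact PG_of' (q := (r + 4 + 6 * j + 3, 5 * r + 1)) (c := 2) (c' := 3) (dx := -1) (dy := 0)
                (by rw [code_T hr hj (by norm_num) (by norm_num)]; simp [codeT])
                (by rw [code_T hr hj (by norm_num) (by norm_num)]; simp [codeT])
                rfl (by push_cast <;> omega) (by push_cast <;> omega) (by decide)
                (by norm_num)

theorem pg_1_5 {r j : ℕ} (hr : r < K) (hj : j < m) (h0 : j + 1 ≠ m) :
    PG K m inc σ ρ (r + 4 + 6 * j + 5, 5 * r + 1) := by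
  exact PG_of' (q := (r + 4 + 6 * j + 4, 5 * r + 1)) (c := 2) (c' := 2) (dx := -1) (dy := 0)
                (by rw [code_T hr hj (by norm_num) (by norm_num)]; simp [codeT, h0])
                (by rw [code_T hr hj (by norm_num) (by norm_num)]; simp [codeT])
                rfl (by push_cast <;> omega) (by push_cast <;> omega) (by decide)
                (by norm_num)

theorem pg_2_0 {r j : ℕ} (hr : r < K) (hj : j < m) :
    PG K m inc σ ρ (r + 4 + 6 * j + 0, 5 * r + 2) := by
  exact PG_of' (q := (r + 4 + 6 * j + 0, 5 * r + 1)) (c := 4) (c' := 2) (dx := 0) (dy := -1)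
                (by rw [code_T hr hj (by norm_num) (by norm_num)]; simp [codeT])
                (by rw [code_T hr hj (by norm_num) (by norm_num)]; simp [codeT])
                rfl (by push_cast <;> omega) (by push_cast <;> omega) (by decide)
                (by norm_num)

theorem pg_2_4 {r j : ℕ} (hr : r < K) (hj : j < m) :
    PG K m inc σ ρ (r + 4 + 6 * j + 4, 5 * r + 2) := by
  exact PG_of' (q := (r + 4 + 6 * j + 4, 5 * r + 1)) (c := 4) (c' := 2) (dx := 0) (dy := -1)
                (by rw [code_T hr hj (by norm_num) (by norm_num)]; simp [codeT])
                (by rw [code_T hr hj (by norm_num) (by norm_num)]; simp [codeT])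
                rfl (by push_cast <;> omega) (by push_cast <;> omega) (by decide)
                (by norm_num)

theorem pg_2_2 {r j : ℕ} (hr : r < K) (hj : j < m) :
    PG K m inc σ ρ (r + 4 + 6 * j + 2, 5 * r + 2) := by
  by_cases hle : r ≤ ρ j
  · rcases Bool.eq_false_or_eq_true (onB σ r) with hon | hon
    · exact PG_of' (q := (r + 4 + 6 * j + 2, 5 * r + 3)) (c := 25) (c' := 11) (dx := 0) (dy := 1)
                (by rw [code_T hr hj (by norm_num) (by norm_num)]; simp [codeT, hle])
                (by rw [code_T hr hj (by norm_num) (by norm_num)]; simp [codeT, hle, hon])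
                rfl (by push_cast <;> omega) (by push_cast <;> omega) (by decide)
                (by intro _; rw [sel_T (by norm_num) (by norm_num)]; simp [selT, hle])
    · exact PG_of' (q := (r + 4 + 6 * j + 2, 5 * r + 3)) (c := 25) (c' := 13) (dx := 0) (dy := 1)
                (by rw [code_T hr hj (by norm_num) (by norm_num)]; simp [codeT, hle])
                (by rw [code_T hr hj (by norm_num) (by norm_num)]; simp [codeT, hle, hon])
                rfl (by push_cast <;> omega) (by push_cast <;> omega) (by decide)
                (by intro _; rw [sel_T (by norm_num) (by norm_num)]; simp [selT, hle])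
  · exact PG_of' (q := (r + 4 + 6 * j + 2, 5 * r + 1)) (c := 26) (c' := 6) (dx := 0) (dy := -1)
                (by rw [code_T hr hj (by norm_num) (by norm_num)]; simp [codeT, hle])
                (by rw [code_T hr hj (by norm_num) (by norm_num)]; simp [codeT, hle])
                rfl (by push_cast <;> omega) (by push_cast <;> omega) (by decide)
                (by norm_num)

theorem pg_3_0 {r j : ℕ} (hr : r < K) (hj : j < m) :
    PG K m inc σ ρ (r + 4 + 6 * j + 0, 5 * r + 3) := by
  exact PG_of' (q := (r + 4 + 6 * j + 0, 5 * r + 2)) (c := 4) (c' := 4) (dx := 0) (dy := -1)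
                (by rw [code_T hr hj (by norm_num) (by norm_num)]; simp [codeT])
                (by rw [code_T hr hj (by norm_num) (by norm_num)]; simp [codeT])
                rfl (by push_cast <;> omega) (by push_cast <;> omega) (by decide)
                (by norm_num)

theorem pg_3_4 {r j : ℕ} (hr : r < K) (hj : j < m) :
    PG K m inc σ ρ (r + 4 + 6 * j + 4, 5 * r + 3) := by
  exact PG_of' (q := (r + 4 + 6 * j + 4, 5 * r + 2)) (c := 4) (c' := 4) (dx := 0) (dy := -1)
                (by rw [code_T hr hj (by norm_num) (by norm_num)]; simp [codeT])
                (by rw [code_T hr hj (by norm_num) (by norm_num)]; simp [codeT])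
                rfl (by push_cast <;> omega) (by push_cast <;> omega) (by decide)
                (by norm_num)

theorem pg_3_1 {r j : ℕ} (hr : r < K) (hj : j < m) :
    PG K m inc σ ρ (r + 4 + 6 * j + 1, 5 * r + 3) := by
  exact PG_of' (q := (r + 4 + 6 * j + 0, 5 * r + 3)) (c := 7) (c' := 4) (dx := -1) (dy := 0)
                (by rw [code_T hr hj (by norm_num) (by norm_num)]; simp [codeT])
                (by rw [code_T hr hj (by norm_num) (by norm_num)]; simp [codeT])
                rfl (by push_cast <;> omega) (by push_cast <;> omega) (by decide)
                (by norm_num)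

theorem pg_3_3 {r j : ℕ} (hr : r < K) (hj : j < m) :
    PG K m inc σ ρ (r + 4 + 6 * j + 3, 5 * r + 3) := by
  exact PG_of' (q := (r + 4 + 6 * j + 4, 5 * r + 3)) (c := 8) (c' := 4) (dx := 1) (dy := 0)
                (by rw [code_T hr hj (by norm_num) (by norm_num)]; simp [codeT])
                (by rw [code_T hr hj (by norm_num) (by norm_num)]; simp [codeT])
                rfl (by push_cast <;> omega) (by push_cast <;> omega) (by decide)
                (by norm_num)

theorem pg_3_2 {r j : ℕ} (hr : r < K) (hj : j < m) :
    PG K m inc σ ρ (r + 4 + 6 * j + 2, 5 * r + 3) := by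
  by_cases hle : r ≤ ρ j
  · rcases Bool.eq_false_or_eq_true (onB σ r) with hon | hon
    · exact PG_of' (q := (r + 4 + 6 * j + 1, 5 * r + 3)) (c := 11) (c' := 7) (dx := -1) (dy := 0)
                (by rw [code_T hr hj (by norm_num) (by norm_num)]; simp [codeT, hle, hon])
                (by rw [code_T hr hj (by norm_num) (by norm_num)]; simp [codeT])
                rfl (by push_cast <;> omega) (by push_cast <;> omega) (by decide)
                (by intro _; rw [sel_T (by norm_num) (by norm_num)]; simp [selT, hon])
    · exact PG_of' (q := (r + 4 + 6 * j + 3, 5 * r + 3)) (c := 13) (c' := 8) (dx := 1) (dy := 0)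
                (by rw [code_T hr hj (by norm_num) (by norm_num)]; simp [codeT, hle, hon])
                (by rw [code_T hr hj (by norm_num) (by norm_num)]; simp [codeT])
                rfl (by push_cast <;> omega) (by push_cast <;> omega) (by decide)
                (by intro _; rw [sel_T (by norm_num) (by norm_num)]; simp [selT, hon])
  · rcases Bool.eq_false_or_eq_true (onB σ r) with hon | hon
    · exact PG_of' (q := (r + 4 + 6 * j + 1, 5 * r + 3)) (c := 12) (c' := 7) (dx := -1) (dy := 0)
                (by rw [code_T hr hj (by norm_num) (by norm_num)]; simp [codeT, hle, hon])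
                (by rw [code_T hr hj (by norm_num) (by norm_num)]; simp [codeT])
                rfl (by push_cast <;> omega) (by push_cast <;> omega) (by decide)
                (by intro _; rw [sel_T (by norm_num) (by norm_num)]; simp [selT, hon])
    · exact PG_of' (q := (r + 4 + 6 * j + 3, 5 * r + 3)) (c := 14) (c' := 8) (dx := 1) (dy := 0)
                (by rw [code_T hr hj (by norm_num) (by norm_num)]; simp [codeT, hle, hon])
                (by rw [code_T hr hj (by norm_num) (by norm_num)]; simp [codeT])
                rfl (by push_cast <;> omega) (by push_cast <;> omega) (by decide)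
                (by intro _; rw [sel_T (by norm_num) (by norm_num)]; simp [selT, hon])

theorem pg_4_0 {r j : ℕ} (hr : r < K) (hj : j < m) :
    PG K m inc σ ρ (r + 4 + 6 * j + 0, 5 * r + 4) := by
  exact PG_of' (q := (r + 4 + 6 * j + 0, 5 * r + 3)) (c := 9) (c' := 4) (dx := 0) (dy := -1)
                (by rw [code_T hr hj (by norm_num) (by norm_num)]; simp [codeT])
                (by rw [code_T hr hj (by norm_num) (by norm_num)]; simp [codeT])
                rfl (by push_cast <;> omega) (by push_cast <;> omega) (by decide)
                (by norm_num)

theorem pg_4_4 {r j : ℕ} (hr : r < K) (hj : j < m) :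
    PG K m inc σ ρ (r + 4 + 6 * j + 4, 5 * r + 4) := by
  exact PG_of' (q := (r + 4 + 6 * j + 4, 5 * r + 3)) (c := 9) (c' := 4) (dx := 0) (dy := -1)
                (by rw [code_T hr hj (by norm_num) (by norm_num)]; simp [codeT])
                (by rw [code_T hr hj (by norm_num) (by norm_num)]; simp [codeT])
                rfl (by push_cast <;> omega) (by push_cast <;> omega) (by decide)
                (by norm_num)

theorem pg_4_1 {r j : ℕ} (hr : r < K) (hj : j < m) :
    PG K m inc σ ρ (r + 4 + 6 * j + 1, 5 * r + 4) := by
  rcases Bool.eq_false_or_eq_true (inc r j) with hin | hin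
  · rcases Bool.eq_false_or_eq_true (onB σ r) with hon | hon
    · exact PG_of' (q := (r + 4 + 6 * j + 0, 5 * r + 4)) (c := 15) (c' := 9) (dx := -1) (dy := 0)
                (by rw [code_T hr hj (by norm_num) (by norm_num)]; simp [codeT, hin, hon])
                (by rw [code_T hr hj (by norm_num) (by norm_num)]; simp [codeT])
                rfl (by push_cast <;> omega) (by push_cast <;> omega) (by decide)
                (by intro _; rw [sel_T (by norm_num) (by norm_num)]; simp [selT, hon])
    · exact PG_of' (q := (r + 4 + 6 * j + 1, 5 * r + 3)) (c := 16) (c' := 7) (dx := 0) (dy := -1)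
                (by rw [code_T hr hj (by norm_num) (by norm_num)]; simp [codeT, hin, hon])
                (by rw [code_T hr hj (by norm_num) (by norm_num)]; simp [codeT])
                rfl (by push_cast <;> omega) (by push_cast <;> omega) (by decide)
                (by intro _; rw [sel_T (by norm_num) (by norm_num)]; simp [selT, hon])
  · rcases Bool.eq_false_or_eq_true (onB σ r) with hon | hon
    · exact PG_of' (q := (r + 4 + 6 * j + 0, 5 * r + 4)) (c := 17) (c' := 9) (dx := -1) (dy := 0)
                (by rw [code_T hr hj (by norm_num) (by norm_num)]; simp [codeT, hin, hon])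
                (by rw [code_T hr hj (by norm_num) (by norm_num)]; simp [codeT])
                rfl (by push_cast <;> omega) (by push_cast <;> omega) (by decide)
                (by intro _; rw [sel_T (by norm_num) (by norm_num)]; simp [selT, hon])
    · exact PG_of' (q := (r + 4 + 6 * j + 1, 5 * r + 3)) (c := 18) (c' := 7) (dx := 0) (dy := -1)
                (by rw [code_T hr hj (by norm_num) (by norm_num)]; simp [codeT, hin, hon])
                (by rw [code_T hr hj (by norm_num) (by norm_num)]; simp [codeT])
                rfl (by push_cast <;> omega) (by push_cast <;> omega) (by decide)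
                (by intro _; rw [sel_T (by norm_num) (by norm_num)]; simp [selT, hon])

theorem pg_4_2 {r j : ℕ} (hr : r < K) (hj : j < m) (hρ : ρ j < K ∧ inc (ρ j) j = true ∧ onB σ (ρ j) = true) :
    PG K m inc σ ρ (r + 4 + 6 * j + 2, 5 * r + 4) := by
  rcases lt_trichotomy r (ρ j) with hlt | heq | hgt
  · have hle : r ≤ ρ j := hlt.le
    have hne : r ≠ ρ j := hlt.ne
    have hr' : r + 1 < K := by omega
    have hle' : r + 1 ≤ ρ j := hlt
    exact PG_of' (q := ((r + 1) + 4 + 6 * j + 1, 5 * (r + 1) + 0)) (c := 25) (c' := 10) (dx := 0) (dy := 1)
                (by rw [code_T hr hj (by norm_num) (by norm_num)]; simp [codeT, hle, hne])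
                (by rw [code_T hr' hj (by norm_num) (by norm_num)]; simp [codeT])
                rfl (by push_cast <;> omega) (by push_cast <;> omega) (by decide)
                (by intro _; rw [sel_T (by norm_num) (by norm_num)]; simp [selT, hle'])
  · have hin : inc r j = true := by rw [heq]; exact hρ.2.1
    have hon : onB σ r = true := by rw [heq]; exact hρ.2.2
    exact PG_of' (q := (r + 4 + 6 * j + 1, 5 * r + 4)) (c := 32) (c' := 15) (dx := -1) (dy := 0)
                (by rw [code_T hr hj (by norm_num) (by norm_num)]; simp [codeT, heq])
                (by rw [code_T hr hj (by norm_num) (by norm_num)]; simp [codeT, hin, hon])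
                rfl (by push_cast <;> omega) (by push_cast <;> omega) (by decide)
                (by intro _; rw [sel_T (by norm_num) (by norm_num)]; simp [selT])
  · have hle : ¬ r ≤ ρ j := by omega
    have hne : r ≠ ρ j := hgt.ne'
    rcases Bool.eq_false_or_eq_true (onB σ r) with hon | hon
    · exact PG_of' (q := (r + 4 + 6 * j + 2, 5 * r + 3)) (c := 24) (c' := 12) (dx := 0) (dy := -1)
                (by rw [code_T hr hj (by norm_num) (by norm_num)]; simp [codeT, hle, hne])
                (by rw [code_T hr hj (by norm_num) (by norm_num)]; simp [codeT, hle, hon])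
                rfl (by push_cast <;> omega) (by push_cast <;> omega) (by decide)
                (by intro _; rw [sel_T (by norm_num) (by norm_num)]; simp [selT, hle])
    · exact PG_of' (q := (r + 4 + 6 * j + 2, 5 * r + 3)) (c := 24) (c' := 14) (dx := 0) (dy := -1)
                (by rw [code_T hr hj (by norm_num) (by norm_num)]; simp [codeT, hle, hne])
                (by rw [code_T hr hj (by norm_num) (by norm_num)]; simp [codeT, hle, hon])
                rfl (by push_cast <;> omega) (by push_cast <;> omega) (by decide)
                (by intro _; rw [sel_T (by norm_num) (by norm_num)]; simp [selT, hle])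

theorem pg_4_3 {r j : ℕ} (hr : r < K) (hj : j < m) :
    PG K m inc σ ρ (r + 4 + 6 * j + 3, 5 * r + 4) := by
  rcases Bool.eq_false_or_eq_true (onB σ r) with hon | hon
  · exact PG_of' (q := (r + 4 + 6 * j + 3, 5 * r + 3)) (c := 19) (c' := 8) (dx := 0) (dy := -1)
                (by rw [code_T hr hj (by norm_num) (by norm_num)]; simp [codeT, hon])
                (by rw [code_T hr hj (by norm_num) (by norm_num)]; simp [codeT])
                rfl (by push_cast <;> omega) (by push_cast <;> omega) (by decide)
                (by intro _; rw [sel_T (by norm_num) (by norm_num)]; simp [selT, hon])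
  · exact PG_of' (q := (r + 4 + 6 * j + 4, 5 * r + 4)) (c := 20) (c' := 9) (dx := 1) (dy := 0)
                (by rw [code_T hr hj (by norm_num) (by norm_num)]; simp [codeT, hon])
                (by rw [code_T hr hj (by norm_num) (by norm_num)]; simp [codeT])
                rfl (by push_cast <;> omega) (by push_cast <;> omega) (by decide)
                (by intro _; rw [sel_T (by norm_num) (by norm_num)]; simp [selT, hon])

theorem pg_4_5 {r j : ℕ} (hr : r < K) (hj : j < m) (h0 : j + 1 ≠ m) :
    PG K m inc σ ρ (r + 4 + 6 * j + 5, 5 * r + 4) := by
  have hj' : j + 1 < m := by omega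
  rcases Bool.eq_false_or_eq_true (onB σ r) with hon | hon
  · exact PG_of' (q := (r + 4 + 6 * j + 4, 5 * r + 4)) (c := 21) (c' := 9) (dx := -1) (dy := 0)
                (by rw [code_T hr hj (by norm_num) (by norm_num)]; simp [codeT, hon, h0])
                (by rw [code_T hr hj (by norm_num) (by norm_num)]; simp [codeT])
                rfl (by push_cast <;> omega) (by push_cast <;> omega) (by decide)
                (by intro _; rw [sel_T (by norm_num) (by norm_num)]; simp [selT, hon])
  · exact PG_of' (q := (r + 4 + 6 * (j + 1) + 0, 5 * r + 4)) (c := 23) (c' := 9) (dx := 1) (dy := 0)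
                (by rw [code_T hr hj (by norm_num) (by norm_num)]; simp [codeT, hon, h0])
                (by rw [code_T hr hj' (by norm_num) (by norm_num)]; simp [codeT])
                rfl (by push_cast <;> omega) (by push_cast <;> omega) (by decide)
                (by intro _; rw [sel_T (by norm_num) (by norm_num)]; simp [selT, hon])

theorem pl_1 (hK : 2 ≤ K) {r : ℕ} (hr : r < K) {x : ℕ} (hx : 1 ≤ x) (hx2 : x < r + 4) :
    PG K m inc σ ρ (x, 5 * r + 1) := by
  obtain ⟨x', rfl⟩ : ∃ x', x = x' + 1 := ⟨x - 1, by omega⟩
  rcases Nat.eq_zero_or_pos x' with h0 | h0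
  · subst h0
    have e1 : ¬ (r = 0 ∧ r % 2 = 1) := by omega
    have e2 : ¬ (0 + 1 = r + 2 ∧ r % 2 = 1) := by omega
    rcases Nat.eq_zero_or_pos r with hr0 | hr0
    · subst hr0
      exact PG_of' (q := (0, 5 * 0 + 1)) (c := 2) (c' := 1) (dx := -1) (dy := 0)
                (by rw [code_L hr (by omega) (by omega) (by norm_num)]; simp [codeL])
                (by exact code_root hK)
                rfl (by push_cast <;> omega) (by push_cast <;> omega) (by decide)
                (by norm_num)
    · have e3 : r ≠ 0 := by omega
      exact PG_of' (q := (0, 5 * r + 1)) (c := 2) (c' := 4) (dx := -1) (dy := 0)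
                (by rw [code_L hr (by omega) (by omega) (by norm_num)]; simp [codeL, e3])
                (by exact code_S (by omega) (by omega))
                rfl (by push_cast <;> omega) (by push_cast <;> omega) (by decide)
                (by norm_num)
  · by_cases hodd : r % 2 = 1
    · by_cases h1 : x' = r
      · subst h1
        rcases Bool.eq_false_or_eq_true (σ (x' / 2)) with hs | hs
        · exact PG_of' (q := (x', 5 * x' + 1)) (c := 5) (c' := 2) (dx := -1) (dy := 0)
                (by rw [code_L hr (by omega) (by omega) (by norm_num)]; simp [codeL, hodd, hs])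
                (by rw [code_L hr (by omega) (by omega) (by norm_num)]; simp [codeL, hodd])
                rfl (by push_cast <;> omega) (by push_cast <;> omega) (by decide)
                (by norm_num)
        · exact PG_of' (q := (x', 5 * x' + 1)) (c := 6) (c' := 2) (dx := -1) (dy := 0)
                (by rw [code_L hr (by omega) (by omega) (by norm_num)]; simp [codeL, hodd, hs])
                (by rw [code_L hr (by omega) (by omega) (by norm_num)]; simp [codeL, hodd])
                rfl (by push_cast <;> omega) (by push_cast <;> omega) (by decide)
                (by norm_num)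
      · by_cases h2 : x' = r + 1
        · subst h2
          rcases Bool.eq_false_or_eq_true (σ (r / 2)) with hs | hs
          · exact PG_of' (q := (r + 1, 5 * r + 1)) (c := 3) (c' := 5) (dx := -1) (dy := 0)
                (by rw [code_L hr (by omega) (by omega) (by norm_num)]; simp [codeL, hodd])
                (by rw [code_L hr (by omega) (by omega) (by norm_num)]; simp [codeL, hodd, hs])
                rfl (by push_cast <;> omega) (by push_cast <;> omega) (by decide)
                (by norm_num)
          · exact PG_of' (q := (r + 1, 5 * r + 1)) (c := 3) (c' := 6) (dx := -1) (dy := 0)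
                (by rw [code_L hr (by omega) (by omega) (by norm_num)]; simp [codeL, hodd])
                (by rw [code_L hr (by omega) (by omega) (by norm_num)]; simp [codeL, hodd, hs])
                rfl (by push_cast <;> omega) (by push_cast <;> omega) (by decide)
                (by norm_num)
        · by_cases h3 : x' = r + 2
          · subst h3
            exact PG_of' (q := (r + 2, 5 * r + 1)) (c := 2) (c' := 3) (dx := -1) (dy := 0)
                (by rw [code_L hr (by omega) (by omega) (by norm_num)]; simp [codeL, hodd])
                (by rw [code_L hr (by omega) (by omega) (by norm_num)]; simp [codeL, hodd])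
                rfl (by push_cast <;> omega) (by push_cast <;> omega) (by decide)
                (by norm_num)
          · have h4 : x' < r := by omega
            have h5 : x' ≠ r + 2 := by omega
            exact PG_of' (q := (x', 5 * r + 1)) (c := 2) (c' := 2) (dx := -1) (dy := 0)
                (by rw [code_L hr (by omega) (by omega) (by norm_num)]; simp [codeL, hodd, h1, h2])
                (by rw [code_L hr (by omega) (by omega) (by norm_num)]; simp [codeL, hodd, h2, h5])
                rfl (by push_cast <;> omega) (by push_cast <;> omega) (by decide)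
                (by norm_num)
    · exact PG_of' (q := (x', 5 * r + 1)) (c := 2) (c' := 2) (dx := -1) (dy := 0)
                (by rw [code_L hr (by omega) (by omega) (by norm_num)]; simp [codeL, hodd])
                (by rw [code_L hr (by omega) (by omega) (by norm_num)]; simp [codeL, hodd])
                rfl (by push_cast <;> omega) (by push_cast <;> omega) (by decide)
                (by norm_num)

theorem pe_2 {r : ℕ} (hr : r < K) (he : r % 2 = 0) :
    PG K m inc σ ρ (r + 2, 5 * r + 2) := by
  exact PG_of' (q := (r + 2, 5 * r + 1)) (c := 4) (c' := 2) (dx := 0) (dy := -1)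
                (by rw [code_L hr (by omega) (by omega) (by norm_num)]; simp [codeL, he])
                (by rw [code_L hr (by omega) (by omega) (by norm_num)]; simp [codeL, he])
                rfl (by push_cast <;> omega) (by push_cast <;> omega) (by decide)
                (by norm_num)

theorem pe_3 {r : ℕ} (hr : r < K) (he : r % 2 = 0) :
    PG K m inc σ ρ (r + 2, 5 * r + 3) := by
  exact PG_of' (q := (r + 2, 5 * r + 2)) (c := 4) (c' := 4) (dx := 0) (dy := -1)
                (by rw [code_L hr (by omega) (by omega) (by norm_num)]; simp [codeL, he])
                (by rw [code_L hr (by omega) (by omega) (by norm_num)]; simp [codeL, he])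
                rfl (by push_cast <;> omega) (by push_cast <;> omega) (by decide)
                (by norm_num)

theorem pe_4 {r : ℕ} (hr : r < K) (he : r % 2 = 0) :
    PG K m inc σ ρ (r + 2, 5 * r + 4) := by
  exact PG_of' (q := (r + 2, 5 * r + 3)) (c := 9) (c' := 4) (dx := 0) (dy := -1)
                (by rw [code_L hr (by omega) (by omega) (by norm_num)]; simp [codeL, he])
                (by rw [code_L hr (by omega) (by omega) (by norm_num)]; simp [codeL, he])
                rfl (by push_cast <;> omega) (by push_cast <;> omega) (by decide)
                (by norm_num)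

theorem pe_u {r : ℕ} (hr : r < K) (he : r % 2 = 0) (hm : 0 < m) :
    PG K m inc σ ρ (r + 3, 5 * r + 4) := by
  rcases Bool.eq_false_or_eq_true (onB σ r) with hon | hon
  · exact PG_of' (q := (r + 2, 5 * r + 4)) (c := 21) (c' := 9) (dx := -1) (dy := 0)
                (by rw [code_L hr (by omega) (by omega) (by norm_num)]; simp [codeL, he, hon])
                (by rw [code_L hr (by omega) (by omega) (by norm_num)]; simp [codeL, he])
                rfl (by push_cast <;> omega) (by push_cast <;> omega) (by decide)
                (by intro _; rw [sel_L (by omega) (by norm_num)]; simp [selL, he, hon])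
  · exact PG_of' (q := (r + 4 + 6 * 0 + 0, 5 * r + 4)) (c := 23) (c' := 9) (dx := 1) (dy := 0)
                (by rw [code_L hr (by omega) (by omega) (by norm_num)]; simp [codeL, he, hon])
                (by rw [code_T hr hm (by norm_num) (by norm_num)]; simp [codeT])
                rfl (by push_cast <;> omega) (by push_cast <;> omega) (by decide)
                (by intro _; rw [sel_T (by norm_num) (by norm_num)]; simp [selT, hon])

theorem po_0 {r : ℕ} (hr : r + 1 < K) (he : r % 2 = 0) :
    PG K m inc σ ρ ((r + 1) + 1, 5 * (r + 1) + 0) := by
  have ho : (r + 1) % 2 = 1 := by omega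
  have hd : (r + 1) / 2 = r / 2 := by omega
  rcases Bool.eq_false_or_eq_true (σ (r / 2)) with hs | hs
  · have hon : onB σ (r + 1) = false := by simp [onB, ho, hd, hs]
    exact PG_of' (q := ((r + 1) + 1, 5 * (r + 1) + 1)) (c := 27) (c' := 5) (dx := 0) (dy := 1)
                (by rw [code_L hr (by omega) (by omega) (by norm_num)]; simp [codeL, ho, hon])
                (by rw [code_L hr (by omega) (by omega) (by norm_num)]; simp [codeL, ho, hd, hs])
                rfl (by push_cast <;> omega) (by push_cast <;> omega) (by decide)
                (by norm_num)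
  · have hon : onB σ (r + 1) = true := by simp [onB, ho, hd, hs]
    have hon' : onB σ r = false := by simp [onB, he, hs]
    exact PG_of' (q := (r + 2, 5 * r + 4)) (c := 24) (c' := 9) (dx := 0) (dy := -1)
                (by rw [code_L hr (by omega) (by omega) (by norm_num)]; simp [codeL, ho, hon])
                (by rw [code_L (show r < K by omega) (by omega) (by omega) (by norm_num)]; simp [codeL, he])
                rfl (by push_cast <;> omega) (by push_cast <;> omega) (by decide)
                (by intro _; rw [sel_L (by omega) (by norm_num)]; simp [selL, he, hon'])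

theorem po_2 {r : ℕ} (hr : r < K) (ho : r % 2 = 1) :
    PG K m inc σ ρ (r + 1, 5 * r + 2) := by
  rcases Bool.eq_false_or_eq_true (σ (r / 2)) with hs | hs
  · have hon : onB σ r = false := by simp [onB, ho, hs]
    exact PG_of' (q := (r + 1, 5 * r + 3)) (c := 25) (c' := 10) (dx := 0) (dy := 1)
                (by rw [code_L hr (by omega) (by omega) (by norm_num)]; simp [codeL, ho, hon])
                (by rw [code_L hr (by omega) (by omega) (by norm_num)]; simp [codeL, ho])
                rfl (by push_cast <;> omega) (by push_cast <;> omega) (by decide)
                (by intro _; rw [sel_L (by omega) (by norm_num)]; simp [selL, ho, hon])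
  · have hon : onB σ r = true := by simp [onB, ho, hs]
    exact PG_of' (q := (r + 1, 5 * r + 1)) (c := 26) (c' := 6) (dx := 0) (dy := -1)
                (by rw [code_L hr (by omega) (by omega) (by norm_num)]; simp [codeL, ho, hon])
                (by rw [code_L hr (by omega) (by omega) (by norm_num)]; simp [codeL, ho, hs])
                rfl (by push_cast <;> omega) (by push_cast <;> omega) (by decide)
                (by norm_num)

theorem po_3 {r : ℕ} (hr : r < K) (ho : r % 2 = 1) :
    PG K m inc σ ρ (r + 1, 5 * r + 3) := by
  exact PG_of' (q := (r + 1, 5 * r + 4)) (c := 10) (c' := 2) (dx := 0) (dy := 1)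
                (by rw [code_L hr (by omega) (by omega) (by norm_num)]; simp [codeL, ho])
                (by rw [code_L hr (by omega) (by omega) (by norm_num)]; simp [codeL, ho])
                rfl (by push_cast <;> omega) (by push_cast <;> omega) (by decide)
                (by norm_num)

theorem po_s {r : ℕ} (hr : r < K) (ho : r % 2 = 1) :
    PG K m inc σ ρ (r + 2, 5 * r + 3) := by
  rcases Bool.eq_false_or_eq_true (onB σ r) with hon | hon
  · exact PG_of' (q := (r + 1, 5 * r + 3)) (c := 30) (c' := 10) (dx := -1) (dy := 0)
                (by rw [code_L hr (by omega) (by omega) (by norm_num)]; simp [codeL, ho, hon])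
                (by rw [code_L hr (by omega) (by omega) (by norm_num)]; simp [codeL, ho])
                rfl (by push_cast <;> omega) (by push_cast <;> omega) (by decide)
                (by intro _; rw [sel_L (by omega) (by norm_num)]; simp [selL, ho, hon])
  · exact PG_of' (q := (r + 2, 5 * r + 4)) (c := 31) (c' := 7) (dx := 0) (dy := 1)
                (by rw [code_L hr (by omega) (by omega) (by norm_num)]; simp [codeL, ho, hon])
                (by rw [code_L hr (by omega) (by omega) (by norm_num)]; simp [codeL, ho])
                rfl (by push_cast <;> omega) (by push_cast <;> omega) (by decide)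
                (by intro _; rw [sel_L (by omega) (by norm_num)]; simp [selL, ho, hon])

theorem po_b {r : ℕ} (hr : r < K) (ho : r % 2 = 1) :
    PG K m inc σ ρ (r + 2, 5 * r + 4) := by
  exact PG_of' (q := (r + 1, 5 * r + 4)) (c := 7) (c' := 2) (dx := -1) (dy := 0)
                (by rw [code_L hr (by omega) (by omega) (by norm_num)]; simp [codeL, ho])
                (by rw [code_L hr (by omega) (by omega) (by norm_num)]; simp [codeL, ho])
                rfl (by push_cast <;> omega) (by push_cast <;> omega) (by decide)
                (by norm_num)

theorem po_u {r : ℕ} (hr : r < K) (ho : r % 2 = 1) (hm : 0 < m) :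
    PG K m inc σ ρ (r + 3, 5 * r + 4) := by
  rcases Bool.eq_false_or_eq_true (onB σ r) with hon | hon
  · exact PG_of' (q := (r + 2, 5 * r + 4)) (c := 22) (c' := 7) (dx := -1) (dy := 0)
                (by rw [code_L hr (by omega) (by omega) (by norm_num)]; simp [codeL, ho, hon])
                (by rw [code_L hr (by omega) (by omega) (by norm_num)]; simp [codeL, ho])
                rfl (by push_cast <;> omega) (by push_cast <;> omega) (by decide)
                (by intro _; rw [sel_L (by omega) (by norm_num)]; simp [selL, ho, hon])
  · exact PG_of' (q := (r + 4 + 6 * 0 + 0, 5 * r + 4)) (c := 23) (c' := 9) (dx := 1) (dy := 0)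
                (by rw [code_L hr (by omega) (by omega) (by norm_num)]; simp [codeL, ho, hon])
                (by rw [code_T hr hm (by norm_num) (by norm_num)]; simp [codeT])
                rfl (by push_cast <;> omega) (by push_cast <;> omega) (by decide)
                (by intro _; rw [sel_T (by norm_num) (by norm_num)]; simp [selT, hon])

theorem po_4 {r : ℕ} (hr : r < K) (ho : r % 2 = 1) {x : ℕ} (hx : 1 ≤ x) (hx2 : x ≤ r + 1) :
    PG K m inc σ ρ (x, 5 * r + 4) := by
  obtain ⟨x', rfl⟩ : ∃ x', x = x' + 1 := ⟨x - 1, by omega⟩
  have n2 : x' ≠ r + 1 := by omega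
  have n3 : x' ≠ r + 2 := by omega
  have n4 : x' ≠ r + 3 := by omega
  rcases Nat.eq_zero_or_pos x' with h0 | h0
  · subst h0
    exact PG_of' (q := (0, 5 * r + 4)) (c := 2) (c' := 4) (dx := -1) (dy := 0)
                (by rw [code_L hr (by omega) (by omega) (by norm_num)]; simp [codeL, ho, n2, n3])
                (by exact code_S (by omega) (by omega))
                rfl (by push_cast <;> omega) (by push_cast <;> omega) (by decide)
                (by norm_num)
  · exact PG_of' (q := (x', 5 * r + 4)) (c := 2) (c' := 2) (dx := -1) (dy := 0)
                (by rw [code_L hr (by omega) (by omega) (by norm_num)]; simp [codeL, ho, n2, n3])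
                (by rw [code_L hr (by omega) (by omega) (by norm_num)]; simp [codeL, ho, n2, n3, n4])
                rfl (by push_cast <;> omega) (by push_cast <;> omega) (by decide)
                (by norm_num)

theorem ps (hK : 2 ≤ K) {y : ℕ} (hy : y < 5 * K) (hy2 : 2 ≤ y) :
    PG K m inc σ ρ (0, y) := by
  obtain ⟨y', rfl⟩ : ∃ y', y = y' + 1 := ⟨y - 1, by omega⟩
  by_cases h : y' = 1
  · subst h
    exact PG_of' (q := (0, 1)) (c := 4) (c' := 1) (dx := 0) (dy := -1)
                (by exact code_S (by omega) (by omega))
                (by exact code_root hK)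
                rfl (by push_cast <;> omega) (by push_cast <;> omega) (by decide)
                (by norm_num)
  · exact PG_of' (q := (0, y')) (c := 4) (c' := 4) (dx := 0) (dy := -1)
                (by exact code_S (by omega) (by omega))
                (by exact code_S (by omega) (by omega))
                rfl (by push_cast <;> omega) (by push_cast <;> omega) (by decide)
                (by norm_num)

end Pool.Agent.H883R2.OL
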