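import Mathlib

set_option autoImplicit false

/-!
# The decision problem for minimum-weight outerplane Laman graphs

An outerplane Laman graph on a finite set `S` of points is the graph of a triangulated simple polygon
with vertex set `S`.  A triangulated polygon is described here by its set of triangles.
-/

namespace Pool.Agent.H883R2.OL

/-- Points of the plane with integer coordinates. -/
abbrev Pt := ℤ × ℤ

/-- The point as a point of the real plane. -/
def toR (p : Pt) : ℝ × ℝ := ((p.1 : ℝ), (p.2 : ℝ))

/-- Euclidean distance. -/
noncomputable def len (p q : Pt) : ℝ :=
  Real.sqrt (((p.1 : ℝ) - q.1) ^ 2 + ((p.2 : ℝ) - q.2) ^ 2)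

/-- The edges (two element sets) of a family of triangles (three element sets). -/
def edges {α : Type*} [DecidableEq α] (T : Finset (Finset α)) : Finset (Finset α) :=
  T.biUnion (fun t => t.powersetCard 2)

/-- `T` is the set of triangles (given by their sets of vertices) of a triangulated simple polygon
whose vertex set is the finite set `S` of points: the triangles have their vertices in `S` and are
nondegenerate, every point of `S` is a vertex of one of them, any two triangles `t`, `t'` meet exactly
in the convex hull of their common vertices (a common side, a common vertex, or nothing), any two
can be joined by a chain of triangles in which consecutive ones share a side, and there are `|S| - 2`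
of them.

Because of the last two conditions the triangles can be put together one after the other, each one
sharing a side with an earlier one and bringing exactly one new vertex, so their union is a simple
polygon, every point of `S` is a vertex of it, and the triangles are those of a triangulation of it
by non-crossing diagonals; conversely the triangles of a triangulated simple polygon with vertex set
`S` satisfy all the conditions. -/
structure TriPoly (S : Finset Pt) (T : Finset (Finset Pt)) : Prop where
  /-- the vertices are in `S` -/
  sub : ∀ t ∈ T, t ⊆ S
  /-- triangles have three vertices -/
  card3 : ∀ t ∈ T, t.card = 3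
  /-- which are not on a line -/
  nondeg : ∀ t ∈ T, ¬ Collinear ℝ (toR '' (t : Set Pt))
  /-- every point of `S` is used -/
  cover : ∀ p ∈ S, ∃ t ∈ T, p ∈ t
  /-- the triangles meet face to face -/
  face : ∀ t ∈ T, ∀ t' ∈ T, convexHull ℝ (toR '' (t : Set Pt)) ∩ convexHull ℝ (toR '' (t' : Set Pt)) =
    convexHull ℝ (toR '' ((t ∩ t' : Finset Pt) : Set Pt))
  /-- the triangles are connected through common sides -/
  conn : ∀ t ∈ T, ∀ t' ∈ T, Relation.ReflTransGen (fun s s' => s' ∈ T ∧ (s ∩ s').card = 2) t t'
  /-- the number of triangles -/
  card : T.card + 2 = S.card

/-- `E` is the edge set of an outerplane Laman graph on `S`: the single edge if `S` has two points,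
and the edge set (sides and diagonals) of a triangulated simple polygon with vertex set `S`
otherwise. -/
def OuterplaneLaman (S : Finset Pt) (E : Finset (Finset Pt)) : Prop :=
  (S.card = 2 ∧ E = {S}) ∨ ∃ T, TriPoly S T ∧ E = edges T

/-- Length of an edge (given as a set of two points). -/
noncomputable def elen (e : Finset Pt) : ℝ := (∑ p ∈ e, ∑ q ∈ e, len p q) / 2

/-- Weight of a geometric graph: the sum of the lengths of its edges. -/
noncomputable def weight (E : Finset (Finset Pt)) : ℝ := ∑ e ∈ E, elen e

/-- The decision problem: given a finite set of points with integer coordinates (as a list) and an
integer `W`, is there an outerplane Laman graph on the set of weight at most `W`? -/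
def MinLaman (x : List Pt × ℤ) : Prop :=
  ∃ E, OuterplaneLaman x.1.toFinset E ∧ weight E ≤ (x.2 : ℝ)

end Pool.Agent.H883R2.OL
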