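import Pool.Agent.H883R2.OL.Defs
import Pool.Agent.H671R2.BSat

set_option autoImplicit false

/-!
# The reduction from satisfiability: polynomial-time computability (task M6)
-/

namespace Pool.Agent.H883R2.OL

open Pool.Agent.NPC Pool.Agent.NPC.R671

/-- instances of the satisfiability problem -/
abbrev Fm := List (List (Bool × ℕ))

/-- twice the number of literals -/
def rK (φ : Fm) : ℕ := 2 * φ.flatten.length

/-- the number of clauses -/
def rm (φ : Fm) : ℕ := φ.length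

/-- incidence of literals and clauses -/
def rinc (φ : Fm) (r j : ℕ) : Bool := decide ((decide (r % 2 = 0), r / 2) ∈ φ.getD j [])

/-- the scale -/
def rN (φ : Fm) : ℕ := 100 * ((rK φ + 6 * rm φ + 4) * (5 * rK φ))

/-- kinds of the cells -/
def rkd (φ : Fm) (p : ℕ × ℕ) : ℕ := kd (rK φ) (rm φ) (rinc φ) p

/-- the list of cells -/
def rcells (φ : Fm) : List (ℕ × ℕ) :=
  ((List.range (rK φ + 6 * rm φ + 4)) ×ˢ (List.range (5 * rK φ))).filter
    (fun p => decide (¬ rkd φ p = 0))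

/-- the list of points -/
def rpts (φ : Fm) : List Pt :=
  (rcells φ).flatMap (fun p => (offs (rkd φ p)).map (pnt (rN φ) p))

/-- the threshold -/
def rthr (φ : Fm) : ℕ :=
  (((rcells φ).map (fun p => if 6 ≤ rkd φ p then 2 else 3)).sum - 3) * (rN φ + 3) +
    3 * ((rcells φ).map (fun p => sh (rkd φ p))).sum

/-- the reduction -/
def red (φ : Fm) : List Pt × ℤ := (rpts φ, ((rthr φ : ℕ) : ℤ))

theorem rK_upoly : UPoly rK :=
  (UPoly.mul (UPoly.const 2) (UPoly.length (Poly.flatten Poly.id)))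

theorem rm_upoly : UPoly rm := UPoly.length Poly.id

@[fun_prop] theorem rK_poly : Poly rK := rK_upoly.toPoly

@[fun_prop] theorem rm_poly : Poly rm := rm_upoly.toPoly

@[fun_prop] theorem rN_poly : Poly rN := by
  unfold rN
  fun_prop

theorem rinc_poly : Poly (fun q : Fm × ℕ × ℕ => rinc q.1 q.2.1 q.2.2) := by
  unfold rinc
  fun_prop

theorem lend_poly : Poly (fun q : ℕ × ℕ × ℕ => lend q.1 q.2.1 q.2.2) := by
  unfold lend
  fun_prop

theorem tile_poly : Poly (fun q : ℕ × ℕ × ℕ × ℕ × ℕ × Bool =>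
    tile q.1 q.2.1 q.2.2.1 q.2.2.2.1 q.2.2.2.2.1 q.2.2.2.2.2) := by
  unfold tile
  fun_prop

theorem rkd_poly : Poly (fun q : Fm × (ℕ × ℕ) => rkd q.1 q.2) := by
  have h1 : Poly (fun q : Fm × (ℕ × ℕ) => rinc q.1 (q.2.2 / 5) ((q.2.1 - q.2.2 / 5 - 4) / 6)) :=
    rinc_poly.comp (f := fun q : Fm × (ℕ × ℕ) => (q.1, q.2.2 / 5, (q.2.1 - q.2.2 / 5 - 4) / 6))
      (by fun_prop)
  have h2 : Poly (fun q : Fm × (ℕ × ℕ) => lend (q.2.2 / 5) q.2.1 (q.2.2 % 5)) :=
    lend_poly.comp (f := fun q : Fm × (ℕ × ℕ) => (q.2.2 / 5, q.2.1, q.2.2 % 5)) (by fun_prop)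
  have h3 : Poly (fun q : Fm × (ℕ × ℕ) => tile (rm q.1) (q.2.2 / 5) ((q.2.1 - q.2.2 / 5 - 4) / 6)
      ((q.2.1 - q.2.2 / 5 - 4) % 6) (q.2.2 % 5)
      (rinc q.1 (q.2.2 / 5) ((q.2.1 - q.2.2 / 5 - 4) / 6))) :=
    tile_poly.comp (f := fun q : Fm × (ℕ × ℕ) => (rm q.1, q.2.2 / 5, (q.2.1 - q.2.2 / 5 - 4) / 6,
      (q.2.1 - q.2.2 / 5 - 4) % 6, q.2.2 % 5,
      rinc q.1 (q.2.2 / 5) ((q.2.1 - q.2.2 / 5 - 4) / 6))) (by fun_prop)
  unfold rkd kd
  fun_prop

theorem rcells_poly : Poly rcells := by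
  have h := rkd_poly
  have h1 : Poly (fun φ => List.range (rK φ + 6 * rm φ + 4)) :=
    Poly.range_uPoly (UPoly.add (UPoly.add rK_upoly (UPoly.mul (UPoly.const 6) rm_upoly))
      (UPoly.const 4))
  have h2 : Poly (fun φ => List.range (5 * rK φ)) :=
    Poly.range_uPoly (UPoly.mul (UPoly.const 5) rK_upoly)
  unfold rcells
  fun_prop

theorem offs_poly : Poly offs := by
  unfold offs
  fun_prop

theorem pnt_poly : Poly (fun q : ℕ × (ℕ × ℕ) × (ℕ × ℕ) => pnt q.1 q.2.1 q.2.2) := by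
  unfold pnt
  fun_prop

theorem sh_poly : Poly sh := by
  unfold sh
  fun_prop

theorem rpts_poly : Poly rpts := by
  have h := rkd_poly
  have h1 := rcells_poly
  have h2 : Poly (fun q : Fm × (ℕ × ℕ) => offs (rkd q.1 q.2)) := offs_poly.comp h
  have h3 : Poly (fun q : (Fm × (ℕ × ℕ)) × (ℕ × ℕ) => pnt (rN q.1.1) q.1.2 q.2) :=
    pnt_poly.comp (f := fun q : (Fm × (ℕ × ℕ)) × (ℕ × ℕ) => (rN q.1.1, q.1.2, q.2)) (by fun_prop)
  have h4 : Poly (fun q : Fm × (ℕ × ℕ) => (offs (rkd q.1 q.2)).map (pnt (rN q.1) q.2)) :=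
    NPC.Poly.map (F := fun (q : Fm × (ℕ × ℕ)) o => pnt (rN q.1) q.2 o) h2 h3
  exact Poly.flatMap (F := fun φ p => (offs (rkd φ p)).map (pnt (rN φ) p)) h1 h4

theorem rthr_poly : Poly rthr := by
  have h := rkd_poly
  have h1 := rcells_poly
  have h2 : Poly (fun q : Fm × (ℕ × ℕ) => sh (rkd q.1 q.2)) := sh_poly.comp h
  unfold rthr
  fun_prop

theorem red_poly : Poly red := by
  have h := rthr_poly
  have h1 := rpts_poly
  unfold red
  fun_prop

theorem rcells_toFinset (φ : Fm) :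
    (rcells φ).toFinset = cells (rK φ) (rm φ) (rinc φ) := by
  ext p
  have h : p ∈ (List.range (rK φ + 6 * rm φ + 4)) ×ˢ (List.range (5 * rK φ)) ↔
      p.1 < rK φ + 6 * rm φ + 4 ∧ p.2 < 5 * rK φ := by
    obtain ⟨a, b⟩ := p
    have h1 := @List.pair_mem_product ℕ ℕ (List.range (rK φ + 6 * rm φ + 4))
      (List.range (5 * rK φ)) a b
    rw [List.mem_range, List.mem_range] at h1
    exact h1
  simp [rcells, cells, rkd, h]

theorem rcells_nodup (φ : Fm) : (rcells φ).Nodup :=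
  (List.Nodup.product List.nodup_range List.nodup_range).filter _

theorem rpts_toFinset (φ : Fm) :
    (rpts φ).toFinset = pts (rN φ) (kd (rK φ) (rm φ) (rinc φ)) (cells (rK φ) (rm φ) (rinc φ)) := by
  ext P
  unfold rpts pts
  rw [← rcells_toFinset]
  simp [rkd]

theorem rthr_eq (φ : Fm) :
    rthr φ = thr (rN φ) (kd (rK φ) (rm φ) (rinc φ)) (cells (rK φ) (rm φ) (rinc φ)) := by
  unfold rthr thr lng shs
  rw [← rcells_toFinset, List.sum_toFinset _ (rcells_nodup φ), List.sum_toFinset _ (rcells_nodup φ)]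
  rfl

theorem bsat_iff (φ : Fm) : BSat φ ↔ ∃ σ, Sats (rK φ) (rm φ) (rinc φ) σ := by
  unfold BSat Sats
  refine exists_congr fun σ => ?_
  constructor
  · intro h j hj
    unfold rm at hj
    obtain ⟨l, hl, hlt, hσ⟩ := h φ[j] (List.getElem_mem _)
    refine ⟨2 * l.2 + (if l.1 then 0 else 1), ?_, ?_, ?_⟩
    · unfold rK
      split_ifs <;> omega
    · unfold rinc
      rw [decide_eq_true_iff]
      have h1 : (decide ((2 * l.2 + (if l.1 then 0 else 1)) % 2 = 0),
          (2 * l.2 + (if l.1 then 0 else 1)) / 2) = l := by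
        refine Prod.ext ?_ ?_
        · rcases hb : l.1 with _ | _
          · simp
          · simp
        · simp only
          split_ifs <;> omega
      rw [h1]
      simpa [List.getD_eq_getElem?_getD, hj] using hl
    · have h1 : (2 * l.2 + (if l.1 then 0 else 1)) / 2 = l.2 := by split_ifs <;> omega
      rw [h1, hσ]
      rcases hb : l.1 with _ | _
      · simp
      · simp
  · intro h c hc
    obtain ⟨j, hj, rfl⟩ := List.getElem_of_mem hc
    obtain ⟨r, hr, hi, hσ⟩ := h j hj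
    unfold rinc at hi
    rw [decide_eq_true_iff] at hi
    refine ⟨(decide (r % 2 = 0), r / 2), ?_, ?_, hσ⟩
    · simpa [List.getD_eq_getElem?_getD, hj] using hi
    · unfold rK at hr
      simp only
      omega

/-- The decision problem is hard, provided the layout is correct. -/
theorem hardI_of_equiv
    (hE : ∀ (K m : ℕ) (inc : ℕ → ℕ → Bool), 2 ≤ K → K % 2 = 0 → 1 ≤ m → ∀ N : ℕ,
      N = 100 * ((K + 6 * m + 4) * (5 * K)) →
      ((∃ σ, Sats K m inc σ) ↔ ∃ E, OuterplaneLaman (pts N (kd K m inc) (cells K m inc)) E ∧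
        weight E ≤ (thr N (kd K m inc) (cells K m inc) : ℝ))) : HardI MinLaman := by
  refine (hardPr_BSat.trans (Pr' := fun _ => True) red_poly (fun _ _ => trivial) ?_).toHardI
  rintro φ ⟨h1, h2⟩
  rw [bsat_iff, hE (rK φ) (rm φ) (rinc φ) (by unfold rK; omega) (by unfold rK; omega)
    (List.length_pos_iff.2 h1) (rN φ) rfl]
  unfold MinLaman red
  simp only
  rw [rpts_toFinset, rthr_eq, Int.cast_natCast]

/-- `NP`-hardness of the decision problem, provided the layout is correct. -/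
theorem npHard_of_equiv
    (hE : ∀ (K m : ℕ) (inc : ℕ → ℕ → Bool), 2 ≤ K → K % 2 = 0 → 1 ≤ m → ∀ N : ℕ,
      N = 100 * ((K + 6 * m + 4) * (5 * K)) →
      ((∃ σ, Sats K m inc σ) ↔ ∃ E, OuterplaneLaman (pts N (kd K m inc) (cells K m inc)) E ∧
        weight E ≤ (thr N (kd K m inc) (cells K m inc) : ℝ))) : NPHardP MinLaman :=
  (hardI_of_equiv hE).toNPHardP

end Pool.Agent.H883R2.OL
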