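import Pool.Agent.H883R2.OL.Defs

set_option autoImplicit false

/-!
Stacked families of triangles (2-trees given with their triangles): combinatorics.
-/

namespace Pool.Agent.H883R2.OL

variable {α : Type*} [DecidableEq α]

/-- The vertices of a family of triangles. -/
def verts (T : Finset (Finset α)) : Finset α := T.biUnion id

/-- Families of triangles built by gluing a triangle `{a, b, x}` with a new vertex `x` to an edge
`{a, b}` of a triangle already present. -/
inductive Stk : Finset (Finset α) → Prop
  | base (t : Finset α) : t.card = 3 → Stk {t}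
  | step (T : Finset (Finset α)) (t0 : Finset α) (a b x : α) : Stk T → t0 ∈ T → a ∈ t0 → b ∈ t0 →
      a ≠ b → x ∉ verts T → Stk (insert {a, b, x} T)

theorem mem_verts {T : Finset (Finset α)} {x : α} : x ∈ verts T ↔ ∃ t ∈ T, x ∈ t := by
  simp [verts]

theorem mem_edges {T : Finset (Finset α)} {e : Finset α} :
    e ∈ edges T ↔ ∃ t ∈ T, e ⊆ t ∧ e.card = 2 := by
  simp [edges, Finset.mem_powersetCard]

theorem verts_insert (t : Finset α) (T : Finset (Finset α)) : verts (insert t T) = t ∪ verts T := by
  simp [verts, Finset.biUnion_insert]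

theorem edges_insert (t : Finset α) (T : Finset (Finset α)) :
    edges (insert t T) = t.powersetCard 2 ∪ edges T := by
  simp [edges, Finset.biUnion_insert]

theorem Stk.card3 {T : Finset (Finset α)} (h : Stk T) : ∀ t ∈ T, t.card = 3 := by
  induction h with
  | base t ht => intro s hs; rw [Finset.mem_singleton] at hs; subst hs; exact ht
  | step T t0 a b x hT ht0 ha hb hab hx ih =>
    intro s hs
    rw [Finset.mem_insert] at hs
    rcases hs with rfl | hs
    · have h1 : x ≠ a := fun h => hx (mem_verts.2 ⟨t0, ht0, h ▸ ha⟩)
      have h2 : x ≠ b := fun h => hx (mem_verts.2 ⟨t0, ht0, h ▸ hb⟩)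
      rw [Finset.card_eq_three]
      exact ⟨a, b, x, hab, h1.symm, h2.symm, rfl⟩
    · exact ih s hs

theorem Stk.nonempty {T : Finset (Finset α)} (h : Stk T) : T.Nonempty := by
  cases h with
  | base t ht => exact ⟨t, by simp⟩
  | step T t0 a b x hT ht0 ha hb hab hx => exact ⟨_, Finset.mem_insert_self _ _⟩

theorem Stk.card_verts {T : Finset (Finset α)} (h : Stk T) : (verts T).card = T.card + 2 := by
  induction h with
  | base t ht => simp [verts, ht]
  | step T t0 a b x hT ht0 ha hb hab hx ih =>
    have hn : ({a, b, x} : Finset α) ∉ T := fun h => hx (mem_verts.2 ⟨_, h, by simp⟩)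
    rw [verts_insert, Finset.card_insert_of_notMem hn]
    have : ({a, b, x} : Finset α) ∪ verts T = insert x (verts T) := by
      ext y
      simp only [Finset.mem_union, Finset.mem_insert, Finset.mem_singleton]
      constructor
      · rintro ((rfl | rfl | rfl) | h)
        · exact Or.inr (mem_verts.2 ⟨t0, ht0, ha⟩)
        · exact Or.inr (mem_verts.2 ⟨t0, ht0, hb⟩)
        · exact Or.inl rfl
        · exact Or.inr h
      · rintro (rfl | h)
        · exact Or.inl (Or.inr (Or.inr rfl))
        · exact Or.inr h
    rw [this, Finset.card_insert_of_notMem hx, ih]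

/-- the two new edges -/
theorem edges_step {T : Finset (Finset α)} {t0 : Finset α} {a b x : α} (ht0 : t0 ∈ T)
    (ha : a ∈ t0) (hb : b ∈ t0) (hab : a ≠ b) (hx : x ∉ verts T) :
    edges (insert {a, b, x} T) = insert {a, x} (insert {b, x} (edges T)) := by
  have h1 : x ≠ a := fun h => hx (mem_verts.2 ⟨t0, ht0, h ▸ ha⟩)
  have h2 : x ≠ b := fun h => hx (mem_verts.2 ⟨t0, ht0, h ▸ hb⟩)
  ext e
  rw [edges_insert]
  simp only [Finset.mem_union, Finset.mem_powersetCard, Finset.mem_insert]
  constructor
  · rintro (⟨hs, hc⟩ | h)
    · rw [Finset.card_eq_two] at hc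
      obtain ⟨u, v, huv, rfl⟩ := hc
      have hu : u ∈ ({a, b, x} : Finset α) := hs (by simp)
      have hv : v ∈ ({a, b, x} : Finset α) := hs (by simp)
      simp only [Finset.mem_insert, Finset.mem_singleton] at hu hv
      have hE : ({a, b} : Finset α) ∈ edges T :=
        mem_edges.2 ⟨t0, ht0, by intro y hy; simp at hy; rcases hy with rfl | rfl <;> assumption,
          Finset.card_pair hab⟩
      rcases hu with rfl | rfl | rfl <;> rcases hv with rfl | rfl | rfl
      · exact absurd rfl huv
      · exact Or.inr (Or.inr hE)
      · exact Or.inl rfl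
      · rw [Finset.pair_comm] at hE; exact Or.inr (Or.inr hE)
      · exact absurd rfl huv
      · exact Or.inr (Or.inl rfl)
      · exact Or.inl (Finset.pair_comm _ _)
      · exact Or.inr (Or.inl (Finset.pair_comm _ _))
      · exact absurd rfl huv
    · exact Or.inr (Or.inr h)
  · rintro (rfl | rfl | h)
    · left
      refine ⟨by intro y hy; simp at hy ⊢; tauto, Finset.card_pair h1.symm⟩
    · left
      refine ⟨by intro y hy; simp at hy ⊢; tauto, Finset.card_pair h2.symm⟩
    · exact Or.inr h

theorem edge_sub_verts {T : Finset (Finset α)} {e : Finset α} (he : e ∈ edges T) :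
    e ⊆ verts T := by
  obtain ⟨t, ht, h, -⟩ := mem_edges.1 he
  exact fun y hy => mem_verts.2 ⟨t, ht, h hy⟩

theorem Stk.card_edges {T : Finset (Finset α)} (h : Stk T) :
    (edges T).card + 3 = 2 * (verts T).card := by
  induction h with
  | base t ht => simp [edges, verts, Finset.card_powersetCard, ht]
  | step T t0 a b x hT ht0 ha hb hab hx ih =>
    have hS := Stk.step T t0 a b x hT ht0 ha hb hab hx
    have hc := hS.card_verts
    have hc' := hT.card_verts
    have hn : ({a, b, x} : Finset α) ∉ T := fun h => hx (mem_verts.2 ⟨_, h, by simp⟩)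
    rw [Finset.card_insert_of_notMem hn] at hc
    rw [edges_step ht0 ha hb hab hx]
    have n1 : ({b, x} : Finset α) ∉ edges T := fun h => hx (edge_sub_verts h (by simp))
    have n2 : ({a, x} : Finset α) ∉ insert {b, x} (edges T) := by
      rw [Finset.mem_insert, not_or]
      constructor
      · intro h
        have : a ∈ ({b, x} : Finset α) := h ▸ (by simp)
        simp only [Finset.mem_insert, Finset.mem_singleton] at this
        rcases this with h | h
        · exact hab h
        · exact hx (h ▸ mem_verts.2 ⟨t0, ht0, ha⟩)
      · exact fun h => hx (edge_sub_verts h (by simp))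
    rw [Finset.card_insert_of_notMem n2, Finset.card_insert_of_notMem n1]
    omega

/-- Laman condition. -/
theorem Stk.laman {T : Finset (Finset α)} (h : Stk T) (X : Finset α) (hX : 2 ≤ X.card) :
    ((edges T).filter (· ⊆ X)).card + 3 ≤ 2 * X.card := by
  induction h generalizing X with
  | base t ht =>
    have h1 : ((edges ({t} : Finset (Finset α))).filter (· ⊆ X)) ⊆ (t ∩ X).powersetCard 2 := by
      intro e he
      simp only [Finset.mem_filter, mem_edges, Finset.mem_singleton, exists_eq_left] at he
      rw [Finset.mem_powersetCard]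
      exact ⟨Finset.subset_inter he.1.1 he.2, he.1.2⟩
    have h2 := Finset.card_le_card h1
    rw [Finset.card_powersetCard] at h2
    have h3 : (t ∩ X).card ≤ 3 := le_trans (Finset.card_le_card Finset.inter_subset_left) ht.le
    have h4 : (t ∩ X).card ≤ X.card := Finset.card_le_card Finset.inter_subset_right
    have h5 : (t ∩ X).card.choose 2 + 3 ≤ 2 * X.card := by
      rcases (show (t ∩ X).card = 0 ∨ (t ∩ X).card = 1 ∨ (t ∩ X).card = 2 ∨ (t ∩ X).card = 3 by omega)
        with hc | hc | hc | hc <;> rw [hc] <;> simp [Nat.choose] <;> omega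
    omega
  | step T t0 a b x hT ht0 ha hb hab hx ih =>
    rw [edges_step ht0 ha hb hab hx]
    by_cases hxX : x ∈ X
    · have hsub : (insert {a, x} (insert {b, x} (edges T))).filter (· ⊆ X) ⊆
          insert {a, x} (insert {b, x} ((edges T).filter (· ⊆ X.erase x))) := by
        intro e he
        simp only [Finset.mem_filter, Finset.mem_insert] at he ⊢
        rcases he with ⟨h | h | h, h'⟩
        · exact Or.inl h
        · exact Or.inr (Or.inl h)
        · refine Or.inr (Or.inr ⟨h, ?_⟩)
          intro y hy
          rw [Finset.mem_erase]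
          refine ⟨?_, h' hy⟩
          rintro rfl
          exact hx (edge_sub_verts h hy)
      have hcX : (X.erase x).card + 1 = X.card := Finset.card_erase_add_one hxX
      by_cases h2 : 2 ≤ (X.erase x).card
      · have h3 := ih (X.erase x) h2
        have h4 := Finset.card_le_card hsub
        have h5 := Finset.card_insert_le ({a, x} : Finset α) (insert {b, x} ((edges T).filter (· ⊆ X.erase x)))
        have h6 := Finset.card_insert_le ({b, x} : Finset α) ((edges T).filter (· ⊆ X.erase x))
        omega
      · -- X has two elements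
        have hX2 : X.card = 2 := by omega
        have : (insert {a, x} (insert {b, x} (edges T))).filter (· ⊆ X) ⊆ {X} := by
          intro e he
          rw [Finset.mem_filter] at he
          rw [Finset.mem_singleton]
          apply Finset.eq_of_subset_of_card_le he.2
          have : e ∈ edges (insert {a, b, x} T) := by rw [edges_step ht0 ha hb hab hx]; exact he.1
          obtain ⟨_, _, _, h⟩ := mem_edges.1 this
          omega
        have := Finset.card_le_card this
        rw [Finset.card_singleton] at this
        omega
    · have hsub : (insert {a, x} (insert {b, x} (edges T))).filter (· ⊆ X) ⊆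
          (edges T).filter (· ⊆ X) := by
        intro e he
        simp only [Finset.mem_filter, Finset.mem_insert] at he ⊢
        rcases he with ⟨h | h | h, h'⟩
        · exact absurd (h' (h ▸ by simp)) hxX
        · exact absurd (h' (h ▸ by simp)) hxX
        · exact ⟨h, h'⟩
      have := Finset.card_le_card hsub
      have := ih X hX
      omega

/-- three mutually adjacent vertices form a triangle of the family -/
theorem Stk.clique {T : Finset (Finset α)} (h : Stk T) {p q r : α} (hpq : p ≠ q) (hpr : p ≠ r)
    (hqr : q ≠ r) (h1 : {p, q} ∈ edges T) (h2 : {p, r} ∈ edges T) (h3 : {q, r} ∈ edges T) :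
    {p, q, r} ∈ T := by
  induction h generalizing p q r with
  | base t ht =>
    simp only [mem_edges, Finset.mem_singleton, exists_eq_left] at h1 h2 h3 ⊢
    apply Finset.eq_of_subset_of_card_le
    · intro y hy
      simp only [Finset.mem_insert, Finset.mem_singleton] at hy
      rcases hy with rfl | rfl | rfl
      · exact h1.1 (by simp)
      · exact h1.1 (by simp)
      · exact h2.1 (by simp)
    · rw [ht, Finset.card_eq_three.2 ⟨p, q, r, hpq, hpr, hqr, rfl⟩]
  | step T t0 a b x hT ht0 ha hb hab hx ih =>
    rw [edges_step ht0 ha hb hab hx] at h1 h2 h3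
    -- general fact: an edge containing x is {a,x} or {b,x}
    have key : ∀ y, y ≠ x → ({y, x} : Finset α) ∈ insert {a, x} (insert {b, x} (edges T)) →
        y = a ∨ y = b := by
      intro y hy h
      simp only [Finset.mem_insert] at h
      rcases h with h | h | h
      · left
        have : y ∈ ({a, x} : Finset α) := h ▸ (by simp)
        simpa [hy] using this
      · right
        have : y ∈ ({b, x} : Finset α) := h ▸ (by simp)
        simpa [hy] using this
      · exact absurd (edge_sub_verts h (by simp)) hx
    have key2 : ∀ y z, y ≠ x → z ≠ x → ({y, z} : Finset α) ∈ insert {a, x} (insert {b, x} (edges T)) →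
        {y, z} ∈ edges T := by
      intro y z hy hz h
      simp only [Finset.mem_insert] at h
      rcases h with h | h | h
      · have : x ∈ ({y, z} : Finset α) := h ▸ (by simp)
        simp [hy.symm, hz.symm] at this
      · have : x ∈ ({y, z} : Finset α) := h ▸ (by simp)
        simp [hy.symm, hz.symm] at this
      · exact h
    rw [Finset.mem_insert]
    by_cases ep : p = x
    · subst ep
      left
      have e1 := key q hpq.symm (by rw [Finset.pair_comm q p]; exact h1)
      have e2 := key r hpr.symm (by rw [Finset.pair_comm r p]; exact h2)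
      rcases e1 with rfl | rfl <;> rcases e2 with rfl | rfl
      · exact absurd rfl hqr
      · ext y; simp; tauto
      · ext y; simp; tauto
      · exact absurd rfl hqr
    · by_cases eq : q = x
      · subst eq
        left
        have e1 := key p hpq h1
        have e2 := key r hqr.symm (by rw [Finset.pair_comm r q]; exact h3)
        rcases e1 with rfl | rfl <;> rcases e2 with rfl | rfl
        · exact absurd rfl hpr
        · ext y; simp; tauto
        · ext y; simp; tauto
        · exact absurd rfl hpr
      · by_cases er : r = x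
        · subst er
          left
          have e1 := key p hpr h2
          have e2 := key q hqr h3
          rcases e1 with rfl | rfl <;> rcases e2 with rfl | rfl
          · exact absurd rfl hpq
          · ext y; simp
          · ext y; simp; tauto
          · exact absurd rfl hpq
        · right
          exact ih hpq hpr hqr (key2 _ _ ep eq h1) (key2 _ _ ep er h2) (key2 _ _ eq er h3)

/-- The star of a vertex is connected through edges containing the vertex. -/
theorem Stk.star {T : Finset (Finset α)} (h : Stk T) (a : α) : ∀ t ∈ T, a ∈ t → ∀ t' ∈ T, a ∈ t' →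
    Relation.ReflTransGen (fun s s' => s' ∈ T ∧ a ∈ s' ∧ ∃ b, b ≠ a ∧ b ∈ s ∧ b ∈ s') t t' := by
  induction h with
  | base t ht =>
    intro s hs _ s' hs' _
    rw [Finset.mem_singleton] at hs hs'
    subst hs; subst hs'
    exact Relation.ReflTransGen.refl
  | step T t0 p q x hT ht0 hp hq hpq hx ih =>
    have mono : ∀ s s', Relation.ReflTransGen
        (fun s s' => s' ∈ T ∧ a ∈ s' ∧ ∃ b, b ≠ a ∧ b ∈ s ∧ b ∈ s') s s' →
        Relation.ReflTransGen (fun s s' => s' ∈ insert {p, q, x} T ∧ a ∈ s' ∧ ∃ b, b ≠ a ∧ b ∈ s ∧ b ∈ s') s s' := by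
      intro s s' h
      refine Relation.ReflTransGen.mono ?_ _ _ h
      rintro u v ⟨h1, h2, h3⟩
      exact ⟨Finset.mem_insert_of_mem h1, h2, h3⟩
    -- if a is in the new triangle and in T then a = p or a = q
    have hnew : a ∈ ({p, q, x} : Finset α) → (∃ t ∈ T, a ∈ t) → a ∈ t0 ∧ ∃ b, b ≠ a ∧ b ∈ t0 ∧
        b ∈ ({p, q, x} : Finset α) := by
      intro h1 ⟨t, ht, hat⟩
      have hax : a ≠ x := by rintro rfl; exact hx (mem_verts.2 ⟨t, ht, hat⟩)
      simp only [Finset.mem_insert, Finset.mem_singleton] at h1
      rcases h1 with rfl | rfl | rfl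
      · exact ⟨hp, q, hpq.symm, hq, by simp⟩
      · exact ⟨hq, p, hpq, hp, by simp⟩
      · exact absurd rfl hax
    intro s hs has s' hs' has'
    rw [Finset.mem_insert] at hs hs'
    rcases hs with rfl | hs <;> rcases hs' with rfl | hs'
    · exact Relation.ReflTransGen.refl
    · obtain ⟨h0, b, hb, hb0, hbn⟩ := hnew has ⟨s', hs', has'⟩
      refine Relation.ReflTransGen.head ?_ (mono _ _ (ih t0 ht0 h0 s' hs' has'))
      exact ⟨Finset.mem_insert_of_mem ht0, h0, b, hb, hbn, hb0⟩
    · obtain ⟨h0, b, hb, hb0, hbn⟩ := hnew has' ⟨s, hs, has⟩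
      refine Relation.ReflTransGen.tail (mono _ _ (ih s hs has t0 ht0 h0)) ?_
      exact ⟨Finset.mem_insert_self _ _, has', b, hb, hb0, hbn⟩
    · exact mono _ _ (ih s hs has s' hs' has')

/-- A stacked family is connected through edges. -/
theorem Stk.conn {T : Finset (Finset α)} (h : Stk T) : ∀ t ∈ T, ∀ t' ∈ T,
    Relation.ReflTransGen (fun s s' => s' ∈ T ∧ (s ∩ s').card = 2) t t' := by
  induction h with
  | base t ht =>
    intro s hs s' hs'
    rw [Finset.mem_singleton] at hs hs'
    subst hs; subst hs'
    exact Relation.ReflTransGen.refl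
  | step T t0 p q x hT ht0 hp hq hpq hx ih =>
    have mono : ∀ s s', Relation.ReflTransGen (fun s s' => s' ∈ T ∧ (s ∩ s').card = 2) s s' →
        Relation.ReflTransGen (fun s s' => s' ∈ insert {p, q, x} T ∧ (s ∩ s').card = 2) s s' := by
      intro s s' h
      refine Relation.ReflTransGen.mono ?_ _ _ h
      rintro u v ⟨h1, h2⟩
      exact ⟨Finset.mem_insert_of_mem h1, h2⟩
    have hx0 : x ∉ t0 := fun h => hx (mem_verts.2 ⟨t0, ht0, h⟩)
    have hi : ({p, q, x} : Finset α) ∩ t0 = {p, q} := by
      ext y
      simp only [Finset.mem_inter, Finset.mem_insert, Finset.mem_singleton]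
      constructor
      · rintro ⟨rfl | rfl | rfl, h⟩
        · exact Or.inl rfl
        · exact Or.inr rfl
        · exact absurd h hx0
      · rintro (rfl | rfl)
        · exact ⟨Or.inl rfl, hp⟩
        · exact ⟨Or.inr (Or.inl rfl), hq⟩
    have hc : (({p, q, x} : Finset α) ∩ t0).card = 2 := by rw [hi, Finset.card_pair hpq]
    intro s hs s' hs'
    rw [Finset.mem_insert] at hs hs'
    rcases hs with rfl | hs <;> rcases hs' with rfl | hs'
    · exact Relation.ReflTransGen.refl
    · refine Relation.ReflTransGen.head ?_ (mono _ _ (ih t0 ht0 s' hs'))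
      exact ⟨Finset.mem_insert_of_mem ht0, hc⟩
    · refine Relation.ReflTransGen.tail (mono _ _ (ih s hs t0 ht0)) ?_
      exact ⟨Finset.mem_insert_self _ _, by rw [Finset.inter_comm]; exact hc⟩
    · exact mono _ _ (ih s hs s' hs')

/-- exit of a path from a set -/
theorem exit_path {β : Type*} {R : β → β → Prop} {A : Set β} {x y : β}
    (h : Relation.ReflTransGen R x y) (hx : x ∈ A) (hy : y ∉ A) : ∃ u v, u ∈ A ∧ v ∉ A ∧ R u v := by
  induction h with
  | refl => exact absurd hx hy
  | tail hab hbc ih =>
    rename_i b c
    by_cases hb : b ∈ A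
    · exact ⟨b, c, hb, hy, hbc⟩
    · exact ih hb

/-- Converse: connectivity and the right number of vertices. -/
theorem stk_of {T : Finset (Finset α)} (hne : T.Nonempty) (h3 : ∀ t ∈ T, t.card = 3)
    (hconn : ∀ t ∈ T, ∀ t' ∈ T, Relation.ReflTransGen (fun s s' => s' ∈ T ∧ (s ∩ s').card = 2) t t')
    (hcard : (verts T).card = T.card + 2) : Stk T := by
  classical
  obtain ⟨t₀, ht₀⟩ := hne
  -- maximal stacked subfamily
  have hP : ((T.powerset).filter (fun A => Stk A)).Nonempty :=
    ⟨{t₀}, by simp [ht₀, Stk.base t₀ (h3 t₀ ht₀)]⟩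
  obtain ⟨A, hA, hAmax⟩ := Finset.exists_max_image _ (fun A : Finset (Finset α) => A.card) hP
  rw [Finset.mem_filter, Finset.mem_powerset] at hA
  by_cases hAT : A = T
  · rw [← hAT]; exact hA.2
  exfalso
  -- neighbour outside
  have hgrow : ∀ B : Finset (Finset α), B ⊆ T → B.Nonempty → B ≠ T →
      ∃ u ∈ B, ∃ v ∈ T, v ∉ B ∧ (u ∩ v).card = 2 := by
    intro B hB ⟨b, hb⟩ hne
    obtain ⟨c, hc, hcB⟩ := Finset.exists_of_ssubset (hB.ssubset_of_ne hne)
    obtain ⟨u, v, hu, hv, huv⟩ := exit_path (A := (B : Set (Finset α))) (hconn b (hB hb) c hc)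
      (by exact_mod_cast hb) (by exact_mod_cast hcB)
    exact ⟨u, by exact_mod_cast hu, v, huv.1, by exact_mod_cast hv, huv.2⟩
  obtain ⟨u, hu, v, hv, hvA, huv⟩ := hgrow A hA.1 hA.2.nonempty hAT
  have hv3 := h3 v hv
  obtain ⟨p, q, hpq, hpq2⟩ := Finset.card_eq_two.1 huv
  have hp : p ∈ u ∩ v := hpq2 ▸ (by simp)
  have hq : q ∈ u ∩ v := hpq2 ▸ (by simp)
  rw [Finset.mem_inter] at hp hq
  -- the third vertex
  obtain ⟨x, hx, hxp, hxq⟩ : ∃ x ∈ v, x ≠ p ∧ x ≠ q := by
    by_contra hcon
    push Not at hcon
    have : v ⊆ {p, q} := by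
      intro y hy
      simp only [Finset.mem_insert, Finset.mem_singleton]
      by_contra h'
      push Not at h'
      exact h'.2 (hcon y hy h'.1)
    have := Finset.card_le_card this
    rw [hv3, Finset.card_pair hpq] at this
    omega
  have hveq : v = {p, q, x} := by
    symm
    apply Finset.eq_of_subset_of_card_le
    · intro y hy
      simp only [Finset.mem_insert, Finset.mem_singleton] at hy
      rcases hy with rfl | rfl | rfl
      · exact hp.2
      · exact hq.2
      · exact hx
    · rw [hv3, Finset.card_eq_three.2 ⟨p, q, x, hpq, hxp.symm, hxq.symm, rfl⟩]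
  by_cases hxA : x ∈ verts A
  · -- too few vertices
    have hB0 : ((T.powerset).filter (fun B => (verts B).card ≤ B.card + 1 ∧ B.Nonempty)).Nonempty := by
      refine ⟨insert v A, ?_⟩
      rw [Finset.mem_filter, Finset.mem_powerset]
      refine ⟨Finset.insert_subset hv hA.1, ?_, ⟨v, by simp⟩⟩
      rw [verts_insert, Finset.card_insert_of_notMem hvA]
      have : v ∪ verts A = verts A := by
        apply Finset.union_eq_right.2
        rw [hveq]
        intro y hy
        simp only [Finset.mem_insert, Finset.mem_singleton] at hy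
        rcases hy with rfl | rfl | rfl
        · exact mem_verts.2 ⟨u, hu, hp.1⟩
        · exact mem_verts.2 ⟨u, hu, hq.1⟩
        · exact hxA
      rw [this, hA.2.card_verts]
    obtain ⟨B, hB, hBmax⟩ := Finset.exists_max_image _ (fun A : Finset (Finset α) => A.card) hB0
    rw [Finset.mem_filter, Finset.mem_powerset] at hB
    by_cases hBT : B = T
    · have := hB.2.1
      rw [hBT] at this
      omega
    · obtain ⟨u', hu', v', hv', hvB', huv'⟩ := hgrow B hB.1 hB.2.2 hBT
      have : insert v' B ∈ (T.powerset).filter (fun B => (verts B).card ≤ B.card + 1 ∧ B.Nonempty) := by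
        rw [Finset.mem_filter, Finset.mem_powerset]
        refine ⟨Finset.insert_subset hv' hB.1, ?_, ⟨v', by simp⟩⟩
        rw [verts_insert, Finset.card_insert_of_notMem hvB']
        have e1 : v' ∪ verts B = (v' \ u') ∪ verts B := by
          ext y
          simp only [Finset.mem_union, Finset.mem_sdiff]
          constructor
          · rintro (h | h)
            · by_cases hy : y ∈ u'
              · exact Or.inr (mem_verts.2 ⟨u', hu', hy⟩)
              · exact Or.inl ⟨h, hy⟩
            · exact Or.inr h
          · rintro (h | h)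
            · exact Or.inl h.1
            · exact Or.inr h
        rw [e1]
        have e2 : (v' \ u').card = 1 := by
          have := Finset.card_sdiff_add_card_inter v' u'
          rw [Finset.inter_comm v' u', huv', h3 v' hv'] at this
          omega
        have := Finset.card_union_le (v' \ u') (verts B)
        have := hB.2.1
        omega
      have := hBmax _ this
      rw [Finset.card_insert_of_notMem hvB'] at this
      omega
  · have hS : Stk (insert v A) := by
      rw [hveq]
      exact Stk.step A u p q x hA.2 hu hp.1 hq.1 hpq hxA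
    have : insert v A ∈ (T.powerset).filter (fun A => Stk A) := by
      rw [Finset.mem_filter, Finset.mem_powerset]
      exact ⟨Finset.insert_subset hv hA.1, hS⟩
    have := hAmax _ this
    rw [Finset.card_insert_of_notMem hvA] at this
    omega

end Pool.Agent.H883R2.OL
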